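import Pool.Agent.C1E.Cov

/-!
# The window: there are few special pairs
-/

set_option linter.unusedSectionVars false
set_option linter.unusedVariables false

namespace C1E

open Finset

variable {ι : Type} [Fintype ι] [DecidableEq ι]

/-- the labels between `g` and `nu` -/
def Wd (x y : ι → ℝ) (g nu a : ι) : Prop :=
  0 < et x y g a ∧ 0 < x a * et x y g nu - et x y g a * x nu

section

variable {x y : ι → ℝ} {A : ℝ} {pos : (ι → Bool) → Prop} {g nu : ι}

/-- the loop labels of a special pair are in the window -/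
theorem Spc.loops (S : Sys x y A pos g nu) (hg : g ≠ nu) {b : ι → Bool}
    (h : Spc x y A pos g nu b) :
    (∃ n, Wd x y g nu n ∧ b n = true ∧ dp x A b < 2 * x n) ∧
    (∃ m, Wd x y g nu m ∧ nup g nu b m = true ∧ dp x A (nup g nu b) < 2 * x m) := by
  obtain ⟨h1, h2, h3, h4, h5, h6⟩ := h
  set c := nup g nu b with hc
  obtain ⟨j, k, h7⟩ := Lk_elim S h5
  obtain ⟨h8, -, -⟩ := TG S h7 h1.1 h4
  have hk : k = nu := by
    by_contra hk
    have e1 := nup_ne (g := g) (nu := nu) (a := k) (by rw [← h8]; exact h7.jk.symm) hk b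
    rw [← hc, h7.ck, h7.bk] at e1
    exact Bool.noConfusion e1
  have h9 := h7.hk
  rw [hk] at h9
  have hdb := dp_pos h1.1.1
  have hdc := dp_pos h4.1.1
  have hyb := FD_neg S h3
  have hyc := FU_pos S h6
  have hxnu := S.x0 nu
  have htau := S.tau
  have hEc := h4.2
  have hEb := h1.2
  -- the label `nu` has positive slope
  have hynu : 0 < y nu := by
    have e1 : x nu * val y c < y nu * dp x A c := by
      rw [Ev_y x y A g c, et_y x y g nu]; linarith
    have e2 : 0 < y nu * dp x A c := lt_of_le_of_lt (mul_nonneg hxnu hyc.le) e1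
    exact pos_of_mul_pos_left e2 hdc.le
  refine ⟨?_, ?_⟩
  · obtain ⟨_, n, n1, n2, n3, n4⟩ := FD_elim S h3
    have hxn : 0 < x n := by linarith
    refine ⟨n, ⟨?_, ?_⟩, n1, n2⟩
    · have : 0 < et x y g n * dp x A b := lt_trans (mul_pos hxn hEb) n3
      exact pos_of_mul_pos_left this hdb.le
    · have e1 : x n * et x y g nu - et x y g n * x nu = x n * y nu - y n * x nu := by
        unfold et; ring
      rw [e1]
      have e2 : y n < 0 := by linarith
      have e3 := mul_pos hxn hynu
      have e4 := mul_nonneg hxnu (by linarith : (0 : ℝ) ≤ - y n)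
      nlinarith
  · obtain ⟨_, m, m1, m2, m3, m4⟩ := FU_elim S h6
    have hxm : 0 < x m := by linarith
    have hym : 0 < y m := by linarith
    refine ⟨m, ⟨?_, ?_⟩, m1, m2⟩
    · unfold et
      have := mul_nonneg htau hxm.le
      linarith
    · have e1 : x m * (x nu * Ev x y A g c) < x m * (et x y g nu * dp x A c) :=
        mul_lt_mul_of_pos_left h9 hxm
      have e2 : x nu * (et x y g m * dp x A c) ≤ x nu * (x m * Ev x y A g c) :=
        mul_le_mul_of_nonneg_left m3.le hxnu
      have e3 : 0 < (x m * et x y g nu - et x y g m * x nu) * dp x A c := by linarith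
      exact pos_of_mul_pos_left e3 hdc.le

theorem nup_eq_of {g nu : ι} {b b' : ι → Bool} (h : nup g nu b = nup g nu b') (hg : g ≠ nu) :
    b = b' := by rw [← nup_nup hg b, h, nup_nup hg]

/-- at most every sixteenth vertex is the source of a special pair -/
theorem spc_card [DecidablePred (Spc x y A pos g nu)] (S : Sys x y A pos g nu) (hg : g ≠ nu) :
    2 * (univ.filter (Spc x y A pos g nu)).card ≤ 2 ^ (Fintype.card ι - 3) := by
  classical
  set Sp : Finset (ι → Bool) := univ.filter (Spc x y A pos g nu) with hSp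
  have mSp : ∀ b, b ∈ Sp ↔ Spc x y A pos g nu b := fun b => by simp [hSp]
  rcases Sp.eq_empty_or_nonempty with h0 | ⟨b₀, hb₀⟩
  · rw [h0]; simp
  -- the heaviest label of the window
  set W : Finset ι := univ.filter (Wd x y g nu) with hW
  have mW : ∀ a, a ∈ W ↔ Wd x y g nu a := fun a => by simp [hW]
  obtain ⟨⟨n₀, hn₀, -, -⟩, -⟩ := ((mSp b₀).1 hb₀).loops S hg
  obtain ⟨L, hL, hmax⟩ := W.exists_max_image x ⟨n₀, (mW n₀).2 hn₀⟩
  have hLW := (mW L).1 hL
  have hLg : L ≠ g := by
    rintro rfl; have := hLW.1; rw [S.et_g] at this; exact lt_irrefl _ this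
  have hLnu : L ≠ nu := by
    rintro rfl
    have := hLW.2
    have e : x L * et x y g L - et x y g L * x L = 0 := by ring
    rw [e] at this; exact lt_irrefl _ this
  -- the members of the special pairs
  set U : Finset (ι → Bool) := Sp ∪ Sp.image (nup g nu) with hU
  have hUp : ∀ b ∈ U, b g = true ∧ b nu = true ∧ A < val x b ∧ dp x A b < 2 * x L := by
    intro b hb
    rcases mem_union.1 hb with h | h
    · have h1 := (mSp b).1 h
      obtain ⟨⟨n, n1, n2, n3⟩, -⟩ := h1.loops S hg
      have := hmax n ((mW n).2 n1)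
      exact ⟨h1.1.1.2.1, h1.2.1, h1.1.1.1, by linarith⟩
    · obtain ⟨b', hb', rfl⟩ := mem_image.1 h
      have h1 := (mSp b').1 hb'
      obtain ⟨-, ⟨n, n1, n2, n3⟩⟩ := h1.loops S hg
      have := hmax n ((mW n).2 n1)
      exact ⟨h1.2.2.2.1.1.2.1, by rw [nup_nu hg]; exact h1.2.1, h1.2.2.2.1.1.1, by linarith⟩
  have hdisj : Disjoint Sp (Sp.image (nup g nu)) := by
    rw [disjoint_left]
    intro b hb hb'
    obtain ⟨b', hb'', rfl⟩ := mem_image.1 hb'
    have h1 := (mSp b').1 hb''
    have h2 := (mSp _).1 hb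
    exact not_FD_FU S h2.2.2.1 h1.2.2.2.2.2
  have hUc : U.card = 2 * Sp.card := by
    rw [hU, card_union_of_disjoint hdisj, card_image_of_injective _
      (fun b b' h => nup_eq_of h hg)]
    ring
  rw [← hUc]
  -- restriction to the other labels
  have hcard : (univ : Finset ({a : ι // a ≠ g ∧ a ≠ nu ∧ a ≠ L} → Bool)).card =
      2 ^ (Fintype.card ι - 3) := by
    rw [card_univ, Fintype.card_fun, Fintype.card_bool]
    congr 1
    have e1 : Fintype.card {a : ι // a ≠ g ∧ a ≠ nu ∧ a ≠ L} =
        (univ.filter fun a : ι => a ≠ g ∧ a ≠ nu ∧ a ≠ L).card := Fintype.card_subtype _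
    have e2 : (univ.filter fun a : ι => a ≠ g ∧ a ≠ nu ∧ a ≠ L) = univ \ {g, nu, L} := by
      ext a; simp
    have e3 : ({g, nu, L} : Finset ι).card = 3 := by
      rw [card_insert_of_notMem, card_insert_of_notMem, card_singleton]
      · simp [hLnu.symm]
      · simp [hg, hLg.symm]
    rw [e1, e2, card_sdiff_of_subset (subset_univ _), e3, card_univ]
  rw [← hcard]
  refine card_le_card_of_injOn (fun b a => b a.1) (fun _ _ => mem_coe.2 (mem_univ _)) ?_
  have key : ∀ b ∈ U, ∀ b' ∈ U, (∀ a, a ≠ g → a ≠ nu → a ≠ L → b a = b' a) → b L = true →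
      b' L = false → False := by
    intro b hb b' hb' he h1 h2
    have e : b' = flp b L := by
      funext a
      by_cases ha : a = L
      · subst ha; rw [flp_same, h1, h2]; rfl
      · rw [flp_ne b ha]
        by_cases hag : a = g
        · subst hag; rw [(hUp b hb).1, (hUp b' hb').1]
        · by_cases han : a = nu
          · subst han; rw [(hUp b hb).2.1, (hUp b' hb').2.1]
          · exact (he a hag han ha).symm
    have h3 := (hUp b' hb').2.2.1
    have h4 := (hUp b hb).2.2.2
    have h5 := dp_pos h3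
    rw [e, dp_flp_true h1] at h5
    linarith
  intro b hb b' hb' he
  have hb := mem_coe.1 hb
  have hb' := mem_coe.1 hb'
  have he' : ∀ a, a ≠ g → a ≠ nu → a ≠ L → b a = b' a := fun a h1 h2 h3 =>
    congrFun he ⟨a, h1, h2, h3⟩
  cases h1 : b L <;> cases h2 : b' L
  · funext a
    by_cases ha : a = L
    · subst ha; rw [h1, h2]
    · by_cases hag : a = g
      · subst hag; rw [(hUp b hb).1, (hUp b' hb').1]
      · by_cases han : a = nu
        · subst han; rw [(hUp b hb).2.1, (hUp b' hb').2.1]
        · exact he' a hag han ha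
  · exact (key b' hb' b hb (fun a h3 h4 h5 => (he' a h3 h4 h5).symm) h2 h1).elim
  · exact (key b hb b' hb' he' h1 h2).elim
  · funext a
    by_cases ha : a = L
    · subst ha; rw [h1, h2]
    · by_cases hag : a = g
      · subst hag; rw [(hUp b hb).1, (hUp b' hb').1]
      · by_cases han : a = nu
        · subst han; rw [(hUp b hb).2.1, (hUp b' hb').2.1]
        · exact he' a hag han ha

end

end C1E
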