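import Pool.Agent.C1E.Norm
import Pool.Agent.C1E.Win

/-!
# All numbers of labels
-/

set_option linter.unusedSectionVars false

namespace C1E

open Finset

/-- the contracted statement with an arbitrary bound -/
def G2 (k N : ℕ) : Prop := ∀ (x y : Fin k → ℝ) (A : ℝ), 0 < A → (∀ a, |x a| ≤ A) →
  ∃ C D : Finset (Fin k → Bool), C.card + D.card ≤ N ∧ Good x y A C D

theorem r1_of_g2 {k N : ℕ} (hG : G2 k N) : R1 (k + 1) N := by
  classical
  intro x y hx
  obtain ⟨h, -, hmax⟩ := (univ : Finset (Fin (k + 1))).exists_max_image (fun a => |x a|)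
    ⟨0, mem_univ 0⟩
  have hA : 0 < |x h| := by
    obtain ⟨a, ha⟩ := hx
    exact lt_of_lt_of_le (abs_pos.2 ha) (hmax a (mem_univ a))
  have hxh : x h ≠ 0 := abs_pos.1 hA
  obtain ⟨e, he1, he2⟩ : ∃ e : ℝ, |e| = 1 ∧ e * x h = |x h| := by
    rcases lt_or_gt_of_ne hxh with h' | h'
    · exact ⟨-1, by norm_num, by rw [abs_of_neg h']; ring⟩
    · exact ⟨1, by norm_num, by rw [abs_of_pos h']; ring⟩
  obtain ⟨C, D, hcard, hb, hc, ha⟩ := hG (fun a => e * x (h.succAbove a))
    (fun a => y (h.succAbove a) - y h / x h * x (h.succAbove a)) |x h| hA (fun a => by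
      rw [abs_mul, he1, one_mul]; exact hmax _ (mem_univ _))
  refine ⟨C.image (fun s => (h.insertNth false s : Fin (k + 1) → Bool)) ∪
    D.image (fun s => (h.insertNth true (ng s) : Fin (k + 1) → Bool)), ?_, ?_⟩
  · have h1 := Finset.card_union_le
      (C.image (fun s => (h.insertNth false s : Fin (k + 1) → Bool)))
      (D.image (fun s => (h.insertNth true (ng s) : Fin (k + 1) → Bool)))
    have h2 := Finset.card_image_le (s := C)
      (f := fun s => (h.insertNth false s : Fin (k + 1) → Bool))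
    have h3 := Finset.card_image_le (s := D)
      (f := fun s => (h.insertNth true (ng s) : Fin (k + 1) → Bool))
    omega
  · intro u hu hux huy
    have hX : ∑ a, e * x (h.succAbove a) * u (h.succAbove a) = - (|x h| * u h) := by
      rw [Fin.sum_univ_succAbove _ h] at hux
      have : ∑ a, e * x (h.succAbove a) * u (h.succAbove a) =
          e * ∑ a, x (h.succAbove a) * u (h.succAbove a) := by
        rw [Finset.mul_sum]
        exact Finset.sum_congr rfl fun a _ => by ring
      rw [this, ← he2]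
      have h5 : ∑ a, x (h.succAbove a) * u (h.succAbove a) = - (x h * u h) := by linarith
      rw [h5]; ring
    have hY : ∑ a, (y (h.succAbove a) - y h / x h * x (h.succAbove a)) * u (h.succAbove a) =
        ∑ a, y a * u a := by
      rw [Fin.sum_univ_succAbove _ h] at hux ⊢
      have : ∑ a, (y (h.succAbove a) - y h / x h * x (h.succAbove a)) * u (h.succAbove a) =
          ∑ a, y (h.succAbove a) * u (h.succAbove a) -
            y h / x h * ∑ a, x (h.succAbove a) * u (h.succAbove a) := by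
        rw [Finset.mul_sum, ← Finset.sum_sub_distrib]
        exact Finset.sum_congr rfl fun a _ => by ring
      have h5 : ∑ a, x (h.succAbove a) * u (h.succAbove a) = - (x h * u h) := by linarith
      rw [this, h5]
      field_simp
      ring
    have huh := abs_le.1 (hu h)
    rcases eq_or_lt_of_le huh.1 with h1 | h1
    · -- `u h = -1`
      obtain ⟨s, hs, hs'⟩ := hb (fun a => u (h.succAbove a)) (fun a => hu _)
        (by rw [hX, ← h1]; ring) (by rw [hY]; exact huy)
      refine ⟨_, mem_union_left _ (mem_image.2 ⟨s, hs, rfl⟩), inFace_insert hs' ⟨?_, ?_⟩⟩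
      · intro h2; rw [← h1] at h2; norm_num at h2
      · intro _; rfl
    · rcases eq_or_lt_of_le huh.2 with h2 | h2
      · -- `u h = 1`
        obtain ⟨s, hs, hs'⟩ := hc (fun a => - u (h.succAbove a))
          (fun a => by rw [abs_neg]; exact hu _)
          (by
            simp only [mul_neg, Finset.sum_neg_distrib]
            rw [hX, h2]; ring)
          (by
            simp only [mul_neg, Finset.sum_neg_distrib]
            rw [hY]; linarith)
        refine ⟨_, mem_union_right _ (mem_image.2 ⟨s, hs, rfl⟩),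
          inFace_insert (inFace_neg hs') ⟨?_, ?_⟩⟩
        · intro _; rfl
        · intro h3; rw [h2] at h3; norm_num at h3
      · obtain ⟨s, hs, hs'⟩ := ha (fun a => u (h.succAbove a)) (fun a => hu _)
          (by rw [hX, abs_neg, abs_mul, abs_abs]; have := abs_lt.2 ⟨h1, h2⟩; nlinarith)
          (by rw [hY]; exact huy)
        have hn1 : u h ≠ 1 := h2.ne
        have hn2 : u h ≠ -1 := h1.ne'
        rcases hs with hs | hs
        · exact ⟨_, mem_union_left _ (mem_image.2 ⟨s, hs, rfl⟩),
            inFace_insert hs' ⟨fun h => absurd h hn1, fun h => absurd h hn2⟩⟩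
        · refine ⟨_, mem_union_right _ (mem_image.2 ⟨ng s, hs, rfl⟩), ?_⟩
          rw [ng_ng]
          exact inFace_insert hs' ⟨fun h => absurd h hn1, fun h => absurd h hn2⟩


variable {k : ℕ}

/-- there is a good pair of sets of total size at most `N / 2` -/
def GN (x y : Fin k → ℝ) (A : ℝ) (N : ℕ) : Prop :=
  ∃ C D : Finset (Fin k → Bool), 2 * (C.card + D.card) ≤ N ∧ Good x y A C D

theorem GN.flip {x y : Fin k → ℝ} {A : ℝ} {N : ℕ} (c : Fin k → Bool)
    (h : GN (fun a => sg (c a) * x a) (fun a => sg (c a) * y a) A N) : GN x y A N := by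
  classical
  obtain ⟨C, D, h1, h2, h3, h4⟩ := h
  set f : (Fin k → Bool) → (Fin k → Bool) := fun s a => (s a == c a) with hf
  have hface : ∀ {u : Fin k → ℝ} {s : Fin k → Bool}, InFace (fun a => sg (c a) * u a) s →
      InFace u (f s) := by
    intro u s h a
    have h := h a
    simp only [hf]
    cases hc : c a
    · simp only [hc, sg_false, neg_mul, one_mul] at h
      constructor
      · intro h5
        rw [h.2 (by rw [h5])]; rfl
      · intro h5
        rw [h.1 (by rw [h5]; ring)]; rfl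
    · simp only [hc, sg_true, one_mul] at h
      constructor
      · intro h5
        rw [h.1 h5]; rfl
      · intro h5
        rw [h.2 h5]; rfl
  have hng : ∀ s, ng (f s) = f (ng s) := by
    intro s; funext a
    simp only [hf, ng]
    cases s a <;> cases c a <;> rfl
  have hsum : ∀ z u : Fin k → ℝ, ∑ a, (sg (c a) * z a) * (sg (c a) * u a) = ∑ a, z a * u a := by
    intro z u
    refine Finset.sum_congr rfl fun a _ => ?_
    have : sg (c a) * sg (c a) = 1 := by cases c a <;> simp [sg]
    linear_combination (z a * u a) * this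
  have hab : ∀ u : Fin k → ℝ, (∀ a, |u a| ≤ 1) → ∀ a, |sg (c a) * u a| ≤ 1 := by
    intro u hu a
    rw [abs_mul, abs_sg, one_mul]; exact hu a
  refine ⟨C.image f, D.image f, ?_, fun u hu hx hy => ?_, fun u hu hx hy => ?_,
    fun u hu hx hy => ?_⟩
  · have := Finset.card_image_le (s := C) (f := f)
    have := Finset.card_image_le (s := D) (f := f)
    omega
  · obtain ⟨s, hs, hs'⟩ := h2 (fun a => sg (c a) * u a) (hab u hu) (by rw [hsum]; exact hx)
      (by rw [hsum]; exact hy)
    exact ⟨f s, mem_image_of_mem f hs, hface hs'⟩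
  · obtain ⟨s, hs, hs'⟩ := h3 (fun a => sg (c a) * u a) (hab u hu) (by rw [hsum]; exact hx)
      (by rw [hsum]; exact hy)
    exact ⟨f s, mem_image_of_mem f hs, hface hs'⟩
  · obtain ⟨s, hs, hs'⟩ := h4 (fun a => sg (c a) * u a) (hab u hu) (by rw [hsum]; exact hx)
      (by rw [hsum]; exact hy)
    exact ⟨f s, hs.imp (mem_image_of_mem f) fun h => mem_image.2 ⟨_, h, (hng s).symm⟩, hface hs'⟩

theorem GN.neg {x y : Fin k → ℝ} {A : ℝ} {N : ℕ} (h : GN x (fun a => - y a) A N) : GN x y A N := by
  classical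
  obtain ⟨C, D, h1, h2, h3, h4⟩ := h
  refine ⟨D, C, by omega, fun u hu hx hy => h3 u hu hx ?_, fun u hu hx hy => h2 u hu hx ?_,
    fun u hu hx hy => ?_⟩
  · simp only [neg_mul, Finset.sum_neg_distrib]; linarith
  · simp only [neg_mul, Finset.sum_neg_distrib]; linarith
  · obtain ⟨s, hs, hs'⟩ := h4 (fun a => - u a) (fun a => by rw [abs_neg]; exact hu a)
      (by simp only [mul_neg, Finset.sum_neg_distrib, abs_neg]; exact hx)
      (by simp only [mul_neg, neg_mul, neg_neg]; exact hy)
    refine ⟨ng s, ?_, inFace_neg hs'⟩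
    rw [ng_ng]
    exact hs.symm


theorem gn_nonneg {x y : Fin k → ℝ} {A : ℝ} (hA0 : 0 < A) (hx : ∀ a, 0 ≤ x a) (hA : ∀ a, x a ≤ A)
    (hk : 3 ≤ k) {g : Fin k} (hg : ∀ a, x a ≤ x g) (hyg : y g ≤ 0) :
    GN x y A (2 ^ k + 2 ^ (k - 3)) := by
  classical
  have hA' : ∀ a, |x a| ≤ A := fun a => by rw [abs_of_nonneg (hx a)]; exact hA a
  have hp := isSign_ps y g
  rcases (hx g).eq_or_lt with h0 | h0
  · -- all weights vanish
    have hx0 : ∀ a, x a = 0 := fun a => le_antisymm ((hg a).trans h0.symm.le) (hx a)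
    have hval : ∀ s, val x s = 0 := fun s => by
      unfold val; exact Finset.sum_eq_zero fun a _ => by rw [hx0]; ring
    have hno : ∀ s, ¬ A < val x s := fun s h => by rw [hval] at h; linarith
    obtain ⟨C, D, h1, h2⟩ := contraction_excess 0 x y hA0 hA' hp ∅ ∅
      (fun b hb => absurd hb.1 (hno b)) (fun b hb => absurd hb.1 (hno b))
      (fun b c hb => absurd hb.1 (hno b)) (by simp)
    refine ⟨C, D, ?_, h2⟩
    rw [Fintype.card_fin] at h1
    exact h1.trans (by simp)
  · obtain ⟨nu, hnu, hmax⟩ := (univ.erase g).exists_max_image (et x y g) (by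
      rw [← Finset.card_pos, Finset.card_erase_of_mem (mem_univ g), Finset.card_univ,
        Fintype.card_fin]
      omega)
    have hgn : g ≠ nu := (Finset.ne_of_mem_erase hnu).symm
    have S : Sys x y A (ps y g) g nu := ⟨hA0, hx, hg, hA g, h0, hyg, hp,
      fun a ha => hmax a (Finset.mem_erase.2 ⟨ha, mem_univ a⟩)⟩
    obtain ⟨cC, cD, h1, h2, h3, h4⟩ := static_cover S hgn
    obtain ⟨C, D, h5, h6⟩ := contraction_excess _ x y hA0 hA' hp cC cD h1 h2 h3 h4
    refine ⟨C, D, ?_, h6⟩
    have h7 := spc_card S hgn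
    rw [Fintype.card_fin] at h5 h7
    omega

theorem gn_all {x y : Fin k → ℝ} {A : ℝ} (hk : 3 ≤ k) (hA0 : 0 < A) (hA : ∀ a, |x a| ≤ A) :
    GN x y A (2 ^ k + 2 ^ (k - 3)) := by
  refine GN.flip (fun a => decide (0 ≤ x a)) ?_
  set x' : Fin k → ℝ := fun a => sg (decide (0 ≤ x a)) * x a with hx'
  set y' : Fin k → ℝ := fun a => sg (decide (0 ≤ x a)) * y a with hy'
  have e : ∀ a, x' a = |x a| := by
    intro a
    rw [hx']
    by_cases h0 : 0 ≤ x a
    · simp [h0, sg, abs_of_nonneg h0]
    · simp [h0, sg, abs_of_neg (not_le.1 h0)]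
  obtain ⟨g, -, hg⟩ := (univ : Finset (Fin k)).exists_max_image x' ⟨⟨0, by omega⟩, mem_univ _⟩
  have h1 : ∀ a, 0 ≤ x' a := fun a => by rw [e]; exact abs_nonneg _
  have h2 : ∀ a, x' a ≤ A := fun a => by rw [e]; exact hA a
  rcases le_total (y' g) 0 with h | h
  · exact gn_nonneg hA0 h1 h2 hk (fun a => hg a (mem_univ a)) h
  · exact GN.neg (gn_nonneg hA0 h1 h2 hk (fun a => hg a (mem_univ a)) (by linarith))

/-- hitting sets of `9 / 8` of the conjectured size, for all numbers of labels -/
theorem r1_all {n : ℕ} (hn : 5 ≤ n) : R1 n (9 * 2 ^ (n - 5)) := by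
  obtain ⟨k, rfl⟩ : ∃ k, n = k + 1 := ⟨n - 1, by omega⟩
  refine r1_of_g2 fun x y A hA0 hA => ?_
  obtain ⟨C, D, h1, h2⟩ := gn_all (x := x) (y := y) (by omega) hA0 hA
  refine ⟨C, D, ?_, h2⟩
  obtain ⟨m, rfl⟩ : ∃ m, k = m + 4 := ⟨k - 4, by omega⟩
  have e1 : m + 4 - 3 = m + 1 := by omega
  have e2 : m + 4 + 1 - 5 = m := by omega
  rw [e1] at h1
  rw [e2]
  have e3 : 2 ^ (m + 4) = 16 * 2 ^ m := by rw [pow_add]; ring
  have e4 : 2 ^ (m + 1) = 2 * 2 ^ m := by rw [pow_succ]; ring
  omega

end C1E
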