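import Pool.Agent.C1E.Frac

/-!
# Homothets of a polyhedron with few facets
-/

namespace C1E

open Finset Module

/-- Common points of the intervals `[g i - c i, g i + c i]`. -/
lemma exists_common {ι : Type} [Finite ι] [Nonempty ι] (c g : ι → ℝ)
    (h : ∀ i l, |g i - g l| ≤ c i + c l) :
    ∃ t : ℝ, ∀ i, g i - c i ≤ t ∧ t ≤ g i + c i := by
  refine ⟨⨆ i, (g i - c i), fun i => ⟨?_, ?_⟩⟩
  · exact le_ciSup (f := fun i => g i - c i) (Set.finite_range _).bddAbove i
  · refine ciSup_le fun l => ?_
    have := (abs_le.mp (h l i)).2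
    linarith

/-- the kernel of two independent linear forms -/
theorem finrank_ker_two {m : ℕ} (x y : Fin m → ℝ) (hxy : LinearIndependent ℝ ![x, y]) :
    ∃ L : (Fin m → ℝ) →ₗ[ℝ] (Fin 2 → ℝ), (∀ u, L u 0 = ∑ a, x a * u a) ∧
      (∀ u, L u 1 = ∑ a, y a * u a) ∧ finrank ℝ (LinearMap.ker L) + 2 = m := by
  set M : Matrix (Fin 2) (Fin m) ℝ := Matrix.of ![x, y] with hM
  refine ⟨M.mulVecLin, fun u => ?_, fun u => ?_, ?_⟩
  · simp [hM, Matrix.mulVec, dotProduct]
  · simp [hM, Matrix.mulVec, dotProduct]
  · have h1 := LinearMap.finrank_range_add_finrank_ker M.mulVecLin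
    have h2 : M.rank = 2 := by
      have h3 : LinearIndependent ℝ M.row := hxy
      have := LinearIndependent.rank_matrix h3
      simpa using this
    rw [Module.finrank_fin_fun] at h1
    have h4 : finrank ℝ (LinearMap.range M.mulVecLin) = 2 := h2
    omega

/-- Blocks with two relations. -/
theorem block2 {ι : Type} [Fintype ι] {m N : ℕ} (hR : R1 m N) (hN : 2 ^ (m - 2) ≤ N) (c : ι → ℝ)
    (hc : ∀ i, 0 < c i) (g : ι → Fin m → ℝ) (x y : Fin m → ℝ)
    (hxy : LinearIndependent ℝ ![x, y]) (hx : ∀ i, ∑ a, x a * g i a = 0)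
    (hy : ∀ i, ∑ a, y a * g i a = 0) (hint : ∀ i l a, |g i a - g l a| ≤ c i + c l) :
    Frac (fun i l => ∃ a, g i a - g l a = c i + c l) (N : ℝ) := by
  classical
  rcases isEmpty_or_nonempty ι with hι | hι
  · exact ⟨Empty, inferInstance, fun o => o.elim, fun o => o.elim, fun o => o.elim,
      fun o => o.elim, fun i => (hι.false i).elim, by simp⟩
  have hex : ∀ a, ∃ t : ℝ, ∀ i, g i a - c i ≤ t ∧ t ≤ g i a + c i := fun a =>
    exists_common c (fun i => g i a) fun i l => hint i l a
  choose t ht using hex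
  set u : ι → Fin m → ℝ := fun i a => (g i a - t a) / c i with hu
  have hu1 : ∀ i a, |u i a| ≤ 1 := by
    intro i a
    have h1 := ht a i
    rw [hu, abs_div, abs_of_pos (hc i), div_le_one (hc i), abs_le]
    constructor <;> linarith [h1.1, h1.2]
  have hsep : ∀ i l a, g i a - g l a = c i + c l → u i a = 1 ∧ u l a = -1 := by
    intro i l a h
    have h1 := (ht a i).1
    have h2 := (ht a l).2
    have h3 : g i a - t a = c i := by linarith
    have h4 : g l a - t a = - c l := by linarith
    simp only [hu, h3, h4]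
    exact ⟨div_self (hc i).ne', by rw [neg_div, div_self (hc l).ne']⟩
  have hsum : ∀ (z : Fin m → ℝ), (∀ i, ∑ a, z a * g i a = 0) → ∀ i,
      ∑ a, z a * u i a = - (∑ a, z a * t a) / c i := by
    intro z hz i
    have h1 : ∀ a, z a * u i a = (z a * g i a - z a * t a) / c i := fun a => by
      rw [hu]; ring
    simp only [h1]
    rw [← Finset.sum_div, Finset.sum_sub_distrib, hz i, zero_sub]
  set X := ∑ a, x a * t a with hX
  set Y := ∑ a, y a * t a with hY
  have h1 := hsum x hx
  have h2 := hsum y hy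
  by_cases h0 : X = 0 ∧ Y = 0
  · -- all pieces contain a common point
    obtain ⟨L, hL0, hL1, hdim⟩ := finrank_ker_two x y hxy
    have hmem : ∀ i, u i ∈ LinearMap.ker L := by
      intro i
      rw [LinearMap.mem_ker]
      funext j
      fin_cases j
      · show L (u i) 0 = 0
        rw [hL0, h1, ← hX, h0.1]; simp
      · show L (u i) 1 = 0
        rw [hL1, h2, ← hY, h0.2]; simp
    have h3 := frac_volume (fun i => (⟨u i, hmem i⟩ : LinearMap.ker L)) (fun i => by
      show ‖(u i : Fin m → ℝ)‖ ≤ 1
      rw [pi_norm_le_iff_of_nonneg zero_le_one]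
      exact fun a => by rw [Real.norm_eq_abs]; exact hu1 i a)
    have e : finrank ℝ (LinearMap.ker L) = m - 2 := by omega
    rw [e] at h3
    refine h3.mono ?_ (by exact_mod_cast hN)
    rintro i l ⟨a, ha⟩
    obtain ⟨e1, e2⟩ := hsep i l a ha
    have h4 : ‖(u i - u l) a‖ ≤ ‖u i - u l‖ := norm_le_pi_norm _ a
    rw [Pi.sub_apply, e1, e2, Real.norm_eq_abs] at h4
    have h5 : |(1 : ℝ) - -1| = 2 := by norm_num
    rw [h5] at h4
    exact h4
  · have hpos : 0 < X ^ 2 + Y ^ 2 := by
      rcases not_and_or.1 h0 with h | h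
      · have := pow_pos (abs_pos.2 h) 2; rw [sq_abs] at this; positivity
      · have := pow_pos (abs_pos.2 h) 2; rw [sq_abs] at this; positivity
    have hne : ∃ a, Y * x a - X * y a ≠ 0 := by
      by_contra hcon
      push Not at hcon
      have h3 := LinearIndependent.pair_iff.1 hxy Y (-X) (by
        funext a
        have := hcon a
        simp only [Pi.add_apply, Pi.smul_apply, smul_eq_mul, Pi.zero_apply]
        linarith)
      exact h0 ⟨by linarith [h3.2], h3.1⟩
    obtain ⟨C, hC1, hC2⟩ := hR (fun a => Y * x a - X * y a) (fun a => - X * x a - Y * y a) hne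
    have h5 := frac_of_hit (sep := fun i l => ∃ a, g i a - g l a = c i + c l) C
      (fun i s => InFace (u i) s) (fun i => ?_) ?_ hC1
    · exact_mod_cast h5
    · refine hC2 (u i) (hu1 i) ?_ ?_
      · have : ∀ a, (Y * x a - X * y a) * u i a = Y * (x a * u i a) - X * (y a * u i a) :=
          fun a => by ring
        simp only [this]
        rw [Finset.sum_sub_distrib, ← Finset.mul_sum, ← Finset.mul_sum, h1, h2, ← hX, ← hY]
        ring
      · have : ∀ a, (- X * x a - Y * y a) * u i a = - X * (x a * u i a) - Y * (y a * u i a) :=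
          fun a => by ring
        simp only [this]
        rw [Finset.sum_sub_distrib, ← Finset.mul_sum, ← Finset.mul_sum, h1, h2, ← hX, ← hY]
        have e : -X * (-X / c i) - Y * (-Y / c i) = (X ^ 2 + Y ^ 2) / c i := by ring
        rw [e]
        exact div_pos hpos (hc i)
    · rintro i l s hi hl ⟨a, ha⟩
      obtain ⟨e1, e2⟩ := hsep i l a ha
      have h6 := (hi a).1 e1
      have h7 := (hl a).2 e2
      rw [h6] at h7
      exact absurd h7 (by simp)

end C1E
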