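import Pool.Agent.C1E.Edge

/-!
# Contracting the heaviest label
-/

namespace C1E

open Finset

variable {ι : Type} [Fintype ι] [DecidableEq ι]

/-- `pos` is a tie-broken sign of `val y` -/
def IsSign (y : ι → ℝ) (pos : (ι → Bool) → Prop) : Prop :=
  (∀ s, 0 < val y s → pos s) ∧ ∀ s, pos (ng s) ↔ ¬ pos s

omit [DecidableEq ι] in
theorem IsSign.nonneg {y : ι → ℝ} {pos : (ι → Bool) → Prop} (h : IsSign y pos) {s : ι → Bool}
    (hs : pos s) : 0 ≤ val y s := by
  by_contra hc
  push Not at hc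
  have h1 : pos (ng s) := h.1 _ (by rw [val_ng]; linarith)
  exact (h.2 s).1 h1 hs

omit [DecidableEq ι] in
theorem IsSign.nonpos {y : ι → ℝ} {pos : (ι → Bool) → Prop} (h : IsSign y pos) {s : ι → Bool}
    (hs : ¬ pos s) : val y s ≤ 0 := by
  by_contra hc
  push Not at hc
  exact hs (h.1 _ hc)

/-- forced to be in `D` -/
def FD (x y : ι → ℝ) (A : ℝ) (pos : (ι → Bool) → Prop) (b : ι → Bool) : Prop :=
  A < val x b ∧ ∃ a, val x (flp b a) < A ∧ ht x y A b (flp b a) < 0 ∧ pos (flp b a)

/-- forced to be in `C` -/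
def FU (x y : ι → ℝ) (A : ℝ) (pos : (ι → Bool) → Prop) (b : ι → Bool) : Prop :=
  A < val x b ∧ ∃ a, val x (flp b a) < A ∧ 0 < ht x y A b (flp b a) ∧ ¬ pos (flp b a)

/-- if `b` is in `D` then `b'` is in `D` -/
def Lk (x y : ι → ℝ) (A : ℝ) (pos : (ι → Bool) → Prop) (b b' : ι → Bool) : Prop :=
  A < val x b ∧ A < val x b' ∧ ∃ j k, val x (flp b j) < A ∧ 0 < ht x y A b (flp b j) ∧
    pos (flp b j) ∧ val x (flp b' k) < A ∧ ht x y A b' (flp b' k) < 0 ∧ flp b' k = ng (flp b j)

/-- reachable from a forced vertex -/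
def Rch (x y : ι → ℝ) (A : ℝ) (pos : (ι → Bool) → Prop) (b : ι → Bool) : Prop :=
  ∃ b₀, FD x y A pos b₀ ∧ Relation.ReflTransGen (Lk x y A pos) b₀ b

/-- no bad path -/
def NoBad (x y : ι → ℝ) (A : ℝ) (pos : (ι → Bool) → Prop) : Prop :=
  ∀ b, Rch x y A pos b → ¬ FU x y A pos b

/-- a pair of sets which is good for the system with the additional label of weight `A` -/
def Good (x y : ι → ℝ) (A : ℝ) (C D : Finset (ι → Bool)) : Prop :=
  (∀ u : ι → ℝ, (∀ a, |u a| ≤ 1) → ∑ a, x a * u a = A → 0 < ∑ a, y a * u a →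
    ∃ s ∈ C, InFace u s) ∧
  (∀ u : ι → ℝ, (∀ a, |u a| ≤ 1) → ∑ a, x a * u a = A → ∑ a, y a * u a < 0 →
    ∃ s ∈ D, InFace u s) ∧
  (∀ u : ι → ℝ, (∀ a, |u a| ≤ 1) → |∑ a, x a * u a| < A → 0 < ∑ a, y a * u a →
    ∃ s, (s ∈ C ∨ ng s ∈ D) ∧ InFace u s)

theorem edge_lemma' (x y : ι → ℝ) (A : ℝ) (u : ι → ℝ) (hu : ∀ a, |u a| ≤ 1)
    (hx : ∑ a, x a * u a = A) (hy : 0 < ∑ a, y a * u a) :
    (∃ s, InFace u s ∧ val x s = A ∧ 0 < val y s) ∨
    (∃ b a, InFace u b ∧ InFace u (flp b a) ∧ val x (flp b a) < A ∧ A < val x b ∧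
      0 < ht x y A b (flp b a)) :=
  edge_lemma x y A _ u rfl hu hx hy

omit [DecidableEq ι] in
theorem val_neg_left (y : ι → ℝ) (s : ι → Bool) : val (fun a => - y a) s = - val y s := by
  simp only [val, neg_mul, Finset.sum_neg_distrib]

omit [DecidableEq ι] in
theorem ht_neg (x y : ι → ℝ) (A : ℝ) (b q : ι → Bool) :
    ht x (fun a => - y a) A b q = - ht x y A b q := by
  simp only [ht, val_neg_left]; ring

theorem val_flp_gt {x : ι → ℝ} {A : ℝ} (hA : ∀ a, |x a| ≤ A) {b : ι → Bool} {a : ι}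
    (hb : A < val x b) : -A < val x (flp b a) := by
  rw [val_flp]
  have h1 : x a * sg (b a) ≤ A := by
    refine (le_abs_self _).trans ?_
    rw [abs_mul, abs_sg, mul_one]
    exact hA a
  linarith

theorem contraction (x y : ι → ℝ) {A : ℝ} (hA0 : 0 < A) (hA : ∀ a, |x a| ≤ A)
    {pos : (ι → Bool) → Prop} (hp : IsSign y pos) (hno : NoBad x y A pos) :
    ∃ C D : Finset (ι → Bool), 2 * (C.card + D.card) ≤ 2 ^ Fintype.card ι ∧ Good x y A C D := by
  classical
  set R : (ι → Bool) → Prop := Rch x y A pos with hR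
  -- the two sets
  set inC : (ι → Bool) → Prop := fun s =>
    (val x s = A ∧ pos s) ∨ (A < val x s ∧ ¬ R s) ∨
    (|val x s| < A ∧ pos s ∧ ∃ b j, R b ∧ A < val x b ∧ 0 < ht x y A b s ∧ flp b j = s) with hinC
  set inD : (ι → Bool) → Prop := fun s =>
    (val x s = A ∧ ¬ pos s) ∨ (A < val x s ∧ R s) ∨
    (|val x s| < A ∧ ¬ pos s ∧ ¬ inC (ng s)) with hinD
  set C : Finset (ι → Bool) := univ.filter inC with hC
  set D : Finset (ι → Bool) := univ.filter inD with hD
  have memC : ∀ s, s ∈ C ↔ inC s := fun s => by simp [hC]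
  have memD : ∀ s, s ∈ D ↔ inD s := fun s => by simp [hD]
  -- counting
  set P : (ι → Bool) → Prop := fun s => A ≤ val x s ∨ (|val x s| < A ∧ pos s) with hP
  have hcount : 2 * (C.card + D.card) ≤ 2 ^ Fintype.card ι := by
    set D' : Finset (ι → Bool) := D.image fun s => if A ≤ val x s then s else ng s with hD'
    have hinj : D'.card = D.card := by
      refine Finset.card_image_of_injOn fun s hs s' hs' hss => ?_
      have hs := (memD s).1 (by exact_mod_cast hs)
      have hs' := (memD s').1 (by exact_mod_cast hs')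
      have hsplit : ∀ s, inD s → ¬ A ≤ val x s → |val x s| < A := by
        rintro s (⟨h, _⟩ | ⟨h, _⟩ | ⟨h, _⟩) hn
        · exact absurd h.ge hn
        · exact absurd h.le hn
        · exact h
      by_cases h1 : A ≤ val x s <;> by_cases h2 : A ≤ val x s'
      · rwa [if_pos h1, if_pos h2] at hss
      · rw [if_pos h1, if_neg h2] at hss
        have h3 := abs_lt.1 (hsplit _ hs' h2)
        rw [hss, val_ng] at h1
        linarith [h3.1]
      · rw [if_neg h1, if_pos h2] at hss
        have h3 := abs_lt.1 (hsplit _ hs h1)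
        rw [← hss, val_ng] at h2
        linarith [h3.1]
      · rw [if_neg h1, if_neg h2] at hss
        rw [← ng_ng s, hss, ng_ng]
    have hCP : ∀ s ∈ C, P s := by
      intro s hs
      rcases (memC s).1 hs with ⟨h, _⟩ | ⟨h, _⟩ | ⟨h, h', _⟩
      · exact Or.inl h.ge
      · exact Or.inl h.le
      · exact Or.inr ⟨h, h'⟩
    have hDP : ∀ s ∈ D', P s ∧ s ∉ C := by
      intro s hs
      obtain ⟨t, ht1, ht2⟩ := Finset.mem_image.1 hs
      rcases (memD t).1 ht1 with ⟨h, h'⟩ | ⟨h, h'⟩ | ⟨h, h', h''⟩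
      · rw [if_pos h.ge] at ht2
        subst ht2
        refine ⟨Or.inl h.ge, fun hc => ?_⟩
        rcases (memC t).1 hc with ⟨_, g⟩ | ⟨g, _⟩ | ⟨g, _⟩
        · exact h' g
        · linarith
        · have := (abs_lt.1 g).2; linarith
      · rw [if_pos h.le] at ht2
        subst ht2
        refine ⟨Or.inl h.le, fun hc => ?_⟩
        rcases (memC t).1 hc with ⟨g, _⟩ | ⟨_, g⟩ | ⟨g, _⟩
        · linarith
        · exact g h'
        · have := (abs_lt.1 g).2; linarith
      · have hn : ¬ A ≤ val x t := by have := (abs_lt.1 h).2; linarith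
        rw [if_neg hn] at ht2
        subst ht2
        refine ⟨Or.inr ⟨by rw [val_ng, abs_neg]; exact h, (hp.2 t).2 h'⟩, fun hc => ?_⟩
        exact h'' ((memC _).1 hc)
    have hdisj : Disjoint C D' := by
      rw [Finset.disjoint_left]
      intro s hs hs'
      exact (hDP s hs').2 hs
    have hdisj2 : Disjoint (C ∪ D') ((C ∪ D').image ng) := by
      rw [Finset.disjoint_left]
      intro s hs hs'
      obtain ⟨t, ht1, ht2⟩ := Finset.mem_image.1 hs'
      have hall : ∀ s ∈ C ∪ D', P s := by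
        intro s hs
        rcases Finset.mem_union.1 hs with h | h
        · exact hCP s h
        · exact (hDP s h).1
      have h1 := hall s hs
      have h2 := hall t ht1
      subst ht2
      rcases h1 with h1 | ⟨h1, h1'⟩ <;> rcases h2 with h2 | ⟨h2, h2'⟩
      · rw [val_ng] at h1; linarith
      · rw [val_ng] at h1; linarith [(abs_lt.1 h2).1]
      · rw [val_ng, abs_neg] at h1; linarith [(abs_lt.1 h1).2]
      · exact (hp.2 t).1 h1' h2'
    have hinj2 : ((C ∪ D').image ng).card = (C ∪ D').card :=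
      Finset.card_image_of_injective _ fun s s' h => by rw [← ng_ng s, h, ng_ng]
    have h1 : (C ∪ D').card = C.card + D.card := by
      rw [Finset.card_union_of_disjoint hdisj, hinj]
    have h2 : ((C ∪ D') ∪ (C ∪ D').image ng).card ≤ 2 ^ Fintype.card ι := by
      refine (Finset.card_le_univ _).trans ?_
      rw [Fintype.card_fun, Fintype.card_bool]
    rw [Finset.card_union_of_disjoint hdisj2, hinj2, h1] at h2
    omega
  -- the cover property
  have cov1 : ∀ b a, A < val x b → val x (flp b a) < A → 0 < ht x y A b (flp b a) →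
      b ∈ C ∨ flp b a ∈ C := by
    intro b a hb hq hh
    by_cases hrb : R b
    · right
      have hpq : pos (flp b a) := by
        by_contra hc
        exact hno b hrb ⟨hb, a, hq, hh, hc⟩
      rw [memC]
      refine Or.inr (Or.inr ⟨abs_lt.2 ⟨val_flp_gt hA hb, hq⟩, hpq, b, a, hrb, hb, hh, rfl⟩)
    · left
      rw [memC]
      exact Or.inr (Or.inl ⟨hb, hrb⟩)
  have cov2 : ∀ b a, A < val x b → val x (flp b a) < A → ht x y A b (flp b a) < 0 →
      b ∈ D ∨ flp b a ∈ D := by
    intro b a hb hq hh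
    by_cases hrb : R b
    · left
      rw [memD]
      exact Or.inr (Or.inl ⟨hb, hrb⟩)
    · right
      have hpq : ¬ pos (flp b a) := by
        intro hc
        exact hrb ⟨b, ⟨hb, a, hq, hh, hc⟩, Relation.ReflTransGen.refl⟩
      rw [memD]
      refine Or.inr (Or.inr ⟨abs_lt.2 ⟨val_flp_gt hA hb, hq⟩, hpq, ?_⟩)
      rintro (⟨h1, _⟩ | ⟨h1, _⟩ | ⟨h1, h2, b₁, j, h3, h4, h5, h6⟩)
      · rw [val_ng] at h1; have := val_flp_gt hA (a := a) hb; linarith
      · rw [val_ng] at h1; have := val_flp_gt hA (a := a) hb; linarith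
      · refine hrb ?_
        obtain ⟨b₀, h7, h8⟩ := h3
        refine ⟨b₀, h7, h8.tail ⟨h4, hb, j, a, ?_, ?_, ?_, hq, hh, ?_⟩⟩
        · rw [h6]; exact (abs_lt.1 h1).2
        · rw [h6]; exact h5
        · rw [h6]; exact h2
        · rw [h6, ng_ng]
  -- forced vertices
  have hFU : ∀ b, FU x y A pos b → b ∈ C := by
    intro b hb
    rw [memC]
    refine Or.inr (Or.inl ⟨hb.1, fun hr => hno b hr hb⟩)
  have hFD : ∀ b, FD x y A pos b → b ∈ D := by
    intro b hb
    rw [memD]
    exact Or.inr (Or.inl ⟨hb.1, b, hb, Relation.ReflTransGen.refl⟩)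
  have hmid : ∀ s, |val x s| < A → pos s → s ∈ C ∨ ng s ∈ D := by
    intro s hs hps
    by_cases h : s ∈ C
    · exact Or.inl h
    · refine Or.inr ((memD _).2 (Or.inr (Or.inr ⟨by rw [val_ng, abs_neg]; exact hs,
        fun h' => (hp.2 s).1 h' hps, fun h' => h ((memC s).2 ?_)⟩)))
      rwa [ng_ng] at h'
  refine ⟨C, D, hcount, fun u hu hx hy => ?_, fun u hu hx hy => ?_, fun u hu hx hy => ?_⟩
  · rcases edge_lemma' x y A u hu hx hy with ⟨s, h1, h2, h3⟩ | ⟨b, a, h1, h2, h3, h4, h5⟩
    · exact ⟨s, (memC s).2 (Or.inl ⟨h2, hp.1 s h3⟩), h1⟩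
    · rcases cov1 b a h4 h3 h5 with h | h
      · exact ⟨b, h, h1⟩
      · exact ⟨_, h, h2⟩
  · rcases edge_lemma' x (fun a => - y a) A u hu hx (by
      simp only [neg_mul, Finset.sum_neg_distrib]; linarith) with ⟨s, h1, h2, h3⟩ |
      ⟨b, a, h1, h2, h3, h4, h5⟩
    · rw [val_neg_left] at h3
      refine ⟨s, (memD s).2 (Or.inl ⟨h2, fun h => ?_⟩), h1⟩
      have := hp.nonneg h
      linarith
    · rw [ht_neg] at h5
      rcases cov2 b a h4 h3 (by linarith) with h | h
      · exact ⟨b, h, h1⟩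
      · exact ⟨_, h, h2⟩
  · set A0 := ∑ a, x a * u a with hA0'
    have hA1 := abs_lt.1 hx
    rcases edge_lemma' x y A0 u hu rfl hy with ⟨s, h1, h2, h3⟩ | ⟨b, a, h1, h2, h3, h4, h5⟩
    · exact ⟨s, hmid s (by rw [h2]; exact hx) (hp.1 s h3), h1⟩
    · set q := flp b a with hq
      have hgap : val x b - val x q ≤ 2 * A := by
        rw [hq, val_flp]
        have h1 : x a * sg (b a) ≤ A := by
          refine (le_abs_self _).trans ?_
          rw [abs_mul, abs_sg, mul_one]
          exact hA a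
        linarith
      unfold ht at h5
      by_cases hyb : 0 < val y b
      · rcases lt_trichotomy (val x b) A with hb | hb | hb
        · exact ⟨b, hmid b (abs_lt.2 ⟨by linarith, hb⟩) (hp.1 b hyb), h1⟩
        · exact ⟨b, Or.inl ((memC b).2 (Or.inl ⟨hb, hp.1 b hyb⟩)), h1⟩
        · have hq1 : |val x q| < A := abs_lt.2 ⟨by linarith, by linarith⟩
          by_cases hpq : pos q
          · exact ⟨q, hmid q hq1 hpq, h2⟩
          · have hyq := hp.nonpos hpq
            refine ⟨b, Or.inl (hFU b ⟨hb, a, by rw [← hq]; linarith, ?_, hpq⟩), h1⟩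
            rw [← hq]
            unfold ht
            nlinarith
      · push Not at hyb
        have hyq : 0 < val y q := by
          by_contra hc
          push Not at hc
          nlinarith
        rcases lt_trichotomy (val x q) (-A) with hb | hb | hb
        · have hb1 : |val x b| < A := abs_lt.2 ⟨by linarith, by linarith⟩
          by_cases hpb : pos b
          · exact ⟨b, hmid b hb1 hpb, h1⟩
          · refine ⟨q, Or.inr (hFD (ng q) ⟨by rw [val_ng]; linarith, a, ?_, ?_, ?_⟩), h2⟩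
            · rw [hq, ng_flp, flp_flp, val_ng]; linarith
            · have e : flp (ng q) a = ng b := by rw [hq, ng_flp, flp_flp]
              rw [e]
              unfold ht
              rw [val_ng, val_ng, val_ng, val_ng]
              nlinarith
            · rw [hq, ng_flp, flp_flp]
              exact (hp.2 b).2 hpb
        · refine ⟨q, Or.inr ((memD _).2 (Or.inl ⟨by rw [val_ng]; linarith, fun h => ?_⟩)), h2⟩
          exact (hp.2 q).1 h (hp.1 q hyq)
        · exact ⟨q, hmid q (abs_lt.2 ⟨hb, by linarith⟩) (hp.1 q hyq), h2⟩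

end C1E
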