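import Pool.Agent.C1E.Contr

/-!
# Contracting the heaviest label: covers of the digraph of the outer vertices
-/

namespace C1E

open Finset

variable {ι : Type} [Fintype ι] [DecidableEq ι]

/-- A cover of the digraph of the outer vertices (`A < val x s`): `cC` contains the vertices which
are forced up, `cD` those which are forced down, and each link starts in `cC` or ends in `cD`. -/
theorem contraction_cover (x y : ι → ℝ) {A : ℝ} (hA0 : 0 < A) (hA : ∀ a, |x a| ≤ A)
    {pos : (ι → Bool) → Prop} (hp : IsSign y pos) (cC cD : Finset (ι → Bool))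
    (hFU : ∀ b, FU x y A pos b → b ∈ cC) (hFD : ∀ b, FD x y A pos b → b ∈ cD)
    (hLk : ∀ b c, Lk x y A pos b c → b ∈ cC ∨ c ∈ cD)
    (hcard : cC.card + cD.card ≤ (univ.filter fun s => A < val x s).card) :
    ∃ C D : Finset (ι → Bool), 2 * (C.card + D.card) ≤ 2 ^ Fintype.card ι ∧ Good x y A C D := by
  classical
  -- the two sets
  set inC1 : (ι → Bool) → Prop := fun s =>
    (val x s = A ∧ pos s) ∨
    (|val x s| < A ∧ pos s ∧ ∃ b j, b ∉ cC ∧ A < val x b ∧ 0 < ht x y A b s ∧
      flp b j = s) with hinC1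
  set inD1 : (ι → Bool) → Prop := fun s =>
    (val x s = A ∧ ¬ pos s) ∨ (|val x s| < A ∧ ¬ pos s ∧ ¬ inC1 (ng s)) with hinD1
  set C1 : Finset (ι → Bool) := univ.filter inC1 with hC1
  set D1 : Finset (ι → Bool) := univ.filter inD1 with hD1
  have memC1 : ∀ s, s ∈ C1 ↔ inC1 s := fun s => by simp [hC1]
  have memD1 : ∀ s, s ∈ D1 ↔ inD1 s := fun s => by simp [hD1]
  set C := cC ∪ C1 with hC
  set D := cD ∪ D1 with hD
  set O : Finset (ι → Bool) := univ.filter fun s => A < val x s with hO
  have memO : ∀ s, s ∈ O ↔ A < val x s := fun s => by simp [hO]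
  -- counting
  have hcount : 2 * (C.card + D.card) ≤ 2 ^ Fintype.card ι := by
    set D' : Finset (ι → Bool) := D1.image fun s => if A ≤ val x s then s else ng s with hD'
    have hinj : D'.card = D1.card := by
      refine Finset.card_image_of_injOn fun s hs s' hs' hss => ?_
      have hs := (memD1 s).1 (by exact_mod_cast hs)
      have hs' := (memD1 s').1 (by exact_mod_cast hs')
      have hsplit : ∀ s, inD1 s → ¬ A ≤ val x s → |val x s| < A := by
        rintro s (⟨h, _⟩ | ⟨h, _⟩) hn
        · exact absurd h.ge hn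
        · exact h
      by_cases h1 : A ≤ val x s <;> by_cases h2 : A ≤ val x s'
      · rwa [if_pos h1, if_pos h2] at hss
      · rw [if_pos h1, if_neg h2] at hss
        have h3 := abs_lt.1 (hsplit _ hs' h2)
        rw [hss, val_ng] at h1
        linarith [h3.1]
      · rw [if_neg h1, if_pos h2] at hss
        have h3 := abs_lt.1 (hsplit _ hs h1)
        rw [← hss, val_ng] at h2
        linarith [h3.1]
      · rw [if_neg h1, if_neg h2] at hss
        rw [← ng_ng s, hss, ng_ng]
    set P : (ι → Bool) → Prop := fun s => val x s = A ∨ (|val x s| < A ∧ pos s) with hP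
    have hCP : ∀ s ∈ C1, P s := by
      intro s hs
      rcases (memC1 s).1 hs with ⟨h, _⟩ | ⟨h, h', _⟩
      · exact Or.inl h
      · exact Or.inr ⟨h, h'⟩
    have hDP : ∀ s ∈ D', P s ∧ s ∉ C1 := by
      intro s hs
      obtain ⟨t, ht1, ht2⟩ := Finset.mem_image.1 hs
      rcases (memD1 t).1 ht1 with ⟨h, h'⟩ | ⟨h, h', h''⟩
      · rw [if_pos h.ge] at ht2
        subst ht2
        refine ⟨Or.inl h, fun hc => ?_⟩
        rcases (memC1 t).1 hc with ⟨_, g⟩ | ⟨g, _⟩
        · exact h' g
        · have := (abs_lt.1 g).2; linarith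
      · have hn : ¬ A ≤ val x t := by have := (abs_lt.1 h).2; linarith
        rw [if_neg hn] at ht2
        subst ht2
        refine ⟨Or.inr ⟨by rw [val_ng, abs_neg]; exact h, (hp.2 t).2 h'⟩, fun hc => ?_⟩
        exact h'' ((memC1 _).1 hc)
    have hPO : ∀ s, P s → ¬ A < val x s := by
      rintro s (h | ⟨h, _⟩) h1
      · linarith
      · have := (abs_lt.1 h).2; linarith
    have hdisj : Disjoint C1 D' := by
      rw [Finset.disjoint_left]
      intro s hs hs'
      exact (hDP s hs').2 hs
    have hall : ∀ s ∈ C1 ∪ D', P s := by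
      intro s hs
      rcases Finset.mem_union.1 hs with h | h
      · exact hCP s h
      · exact (hDP s h).1
    have hdisj1 : Disjoint O (C1 ∪ D') := by
      rw [Finset.disjoint_left]
      intro s hs hs'
      exact hPO s (hall s hs') ((memO s).1 hs)
    set W := O ∪ (C1 ∪ D') with hW
    have hallW : ∀ s ∈ W, A ≤ val x s ∨ (|val x s| < A ∧ pos s) := by
      intro s hs
      rcases Finset.mem_union.1 hs with h | h
      · exact Or.inl ((memO s).1 h).le
      · rcases hall s h with h | h
        · exact Or.inl h.ge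
        · exact Or.inr h
    have hdisj2 : Disjoint W (W.image ng) := by
      rw [Finset.disjoint_left]
      intro s hs hs'
      obtain ⟨t, ht1, ht2⟩ := Finset.mem_image.1 hs'
      have h1 := hallW s hs
      have h2 := hallW t ht1
      subst ht2
      rcases h1 with h1 | ⟨h1, h1'⟩ <;> rcases h2 with h2 | ⟨h2, h2'⟩
      · rw [val_ng] at h1; linarith
      · rw [val_ng] at h1; linarith [(abs_lt.1 h2).1]
      · rw [val_ng, abs_neg] at h1; linarith [(abs_lt.1 h1).2]
      · exact (hp.2 t).1 h1' h2'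
    have hinj2 : (W.image ng).card = W.card :=
      Finset.card_image_of_injective _ fun s s' h => by rw [← ng_ng s, h, ng_ng]
    have h1 : C.card + D.card ≤ W.card := by
      have e1 : C.card ≤ cC.card + C1.card := Finset.card_union_le cC C1
      have e2 : D.card ≤ cD.card + D1.card := Finset.card_union_le cD D1
      rw [hW, Finset.card_union_of_disjoint hdisj1, Finset.card_union_of_disjoint hdisj, hinj]
      omega
    have h2 : (W ∪ W.image ng).card ≤ 2 ^ Fintype.card ι := by
      refine (Finset.card_le_univ _).trans ?_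
      rw [Fintype.card_fun, Fintype.card_bool]
    rw [Finset.card_union_of_disjoint hdisj2, hinj2] at h2
    omega
  have memC : ∀ s, s ∈ C ↔ s ∈ cC ∨ inC1 s := fun s => by rw [hC, Finset.mem_union, memC1]
  have memD : ∀ s, s ∈ D ↔ s ∈ cD ∨ inD1 s := fun s => by rw [hD, Finset.mem_union, memD1]
  -- the cover property
  have cov1 : ∀ b a, A < val x b → val x (flp b a) < A → 0 < ht x y A b (flp b a) →
      b ∈ C ∨ flp b a ∈ C := by
    intro b a hb hq hh
    by_cases hrb : b ∈ cC
    · exact Or.inl ((memC b).2 (Or.inl hrb))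
    · right
      have hpq : pos (flp b a) := by
        by_contra hc
        exact hrb (hFU b ⟨hb, a, hq, hh, hc⟩)
      rw [memC]
      exact Or.inr (Or.inr ⟨abs_lt.2 ⟨val_flp_gt hA hb, hq⟩, hpq, b, a, hrb, hb, hh, rfl⟩)
  have cov2 : ∀ b a, A < val x b → val x (flp b a) < A → ht x y A b (flp b a) < 0 →
      b ∈ D ∨ flp b a ∈ D := by
    intro b a hb hq hh
    by_cases hrb : b ∈ cD
    · exact Or.inl ((memD b).2 (Or.inl hrb))
    · right
      have hpq : ¬ pos (flp b a) := by
        intro hc
        exact hrb (hFD b ⟨hb, a, hq, hh, hc⟩)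
      rw [memD]
      refine Or.inr (Or.inr ⟨abs_lt.2 ⟨val_flp_gt hA hb, hq⟩, hpq, ?_⟩)
      rintro (⟨h1, _⟩ | ⟨h1, h2, b₁, j, h3, h4, h5, h6⟩)
      · rw [val_ng] at h1; have := val_flp_gt hA (a := a) hb; linarith
      · rcases hLk b₁ b ⟨h4, hb, j, a, by rw [h6]; exact (abs_lt.1 h1).2, by rw [h6]; exact h5,
          by rw [h6]; exact h2, hq, hh, by rw [h6, ng_ng]⟩ with h | h
        · exact h3 h
        · exact hrb h
  -- forced vertices
  have hFU : ∀ b, FU x y A pos b → b ∈ C := fun b hb => (memC b).2 (Or.inl (hFU b hb))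
  have hFD : ∀ b, FD x y A pos b → b ∈ D := fun b hb => (memD b).2 (Or.inl (hFD b hb))
  have hmid : ∀ s, |val x s| < A → pos s → s ∈ C ∨ ng s ∈ D := by
    intro s hs hps
    by_cases h : s ∈ C
    · exact Or.inl h
    · refine Or.inr ((memD _).2 (Or.inr (Or.inr ⟨by rw [val_ng, abs_neg]; exact hs,
        fun h' => (hp.2 s).1 h' hps, fun h' => h ((memC s).2 (Or.inr ?_))⟩)))
      rwa [ng_ng] at h'
  refine ⟨C, D, hcount, fun u hu hx hy => ?_, fun u hu hx hy => ?_, fun u hu hx hy => ?_⟩
  · rcases edge_lemma' x y A u hu hx hy with ⟨s, h1, h2, h3⟩ | ⟨b, a, h1, h2, h3, h4, h5⟩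
    · exact ⟨s, (memC s).2 (Or.inr (Or.inl ⟨h2, hp.1 s h3⟩)), h1⟩
    · rcases cov1 b a h4 h3 h5 with h | h
      · exact ⟨b, h, h1⟩
      · exact ⟨_, h, h2⟩
  · rcases edge_lemma' x (fun a => - y a) A u hu hx (by
      simp only [neg_mul, Finset.sum_neg_distrib]; linarith) with ⟨s, h1, h2, h3⟩ |
      ⟨b, a, h1, h2, h3, h4, h5⟩
    · rw [val_neg_left] at h3
      refine ⟨s, (memD s).2 (Or.inr (Or.inl ⟨h2, fun h => ?_⟩)), h1⟩
      have := hp.nonneg h
      linarith
    · rw [ht_neg] at h5
      rcases cov2 b a h4 h3 (by linarith) with h | h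
      · exact ⟨b, h, h1⟩
      · exact ⟨_, h, h2⟩
  · set A0 := ∑ a, x a * u a with hA0'
    have hA1 := abs_lt.1 hx
    rcases edge_lemma' x y A0 u hu rfl hy with ⟨s, h1, h2, h3⟩ | ⟨b, a, h1, h2, h3, h4, h5⟩
    · exact ⟨s, hmid s (by rw [h2]; exact hx) (hp.1 s h3), h1⟩
    · set q := flp b a with hq
      have hgap : val x b - val x q ≤ 2 * A := by
        rw [hq, val_flp]
        have h1 : x a * sg (b a) ≤ A := by
          refine (le_abs_self _).trans ?_
          rw [abs_mul, abs_sg, mul_one]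
          exact hA a
        linarith
      unfold ht at h5
      by_cases hyb : 0 < val y b
      · rcases lt_trichotomy (val x b) A with hb | hb | hb
        · exact ⟨b, hmid b (abs_lt.2 ⟨by linarith, hb⟩) (hp.1 b hyb), h1⟩
        · exact ⟨b, Or.inl ((memC b).2 (Or.inr (Or.inl ⟨hb, hp.1 b hyb⟩))), h1⟩
        · have hq1 : |val x q| < A := abs_lt.2 ⟨by linarith, by linarith⟩
          by_cases hpq : pos q
          · exact ⟨q, hmid q hq1 hpq, h2⟩
          · have hyq := hp.nonpos hpq
            refine ⟨b, Or.inl (hFU b ⟨hb, a, by rw [← hq]; linarith, ?_, hpq⟩), h1⟩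
            rw [← hq]
            unfold ht
            nlinarith
      · push Not at hyb
        have hyq : 0 < val y q := by
          by_contra hc
          push Not at hc
          nlinarith
        rcases lt_trichotomy (val x q) (-A) with hb | hb | hb
        · have hb1 : |val x b| < A := abs_lt.2 ⟨by linarith, by linarith⟩
          by_cases hpb : pos b
          · exact ⟨b, hmid b hb1 hpb, h1⟩
          · refine ⟨q, Or.inr (hFD (ng q) ⟨by rw [val_ng]; linarith, a, ?_, ?_, ?_⟩), h2⟩
            · rw [hq, ng_flp, flp_flp, val_ng]; linarith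
            · have e : flp (ng q) a = ng b := by rw [hq, ng_flp, flp_flp]
              rw [e]
              unfold ht
              rw [val_ng, val_ng, val_ng, val_ng]
              nlinarith
            · rw [hq, ng_flp, flp_flp]
              exact (hp.2 b).2 hpb
        · refine ⟨q, Or.inr ((memD _).2 (Or.inr (Or.inl ⟨by rw [val_ng]; linarith, fun h => ?_⟩))), h2⟩
          exact (hp.2 q).1 h (hp.1 q hyq)
        · exact ⟨q, hmid q (abs_lt.2 ⟨hb, by linarith⟩) (hp.1 q hyq), h2⟩

/-- reachable from a forced vertex by a path which avoids `Z` -/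
def RchZ (x y : ι → ℝ) (A : ℝ) (pos : (ι → Bool) → Prop) (Z : Finset (ι → Bool)) (b : ι → Bool) :
    Prop :=
  ∃ b₀, (FD x y A pos b₀ ∧ b₀ ∉ Z) ∧
    Relation.ReflTransGen (fun a c => Lk x y A pos a c ∧ c ∉ Z) b₀ b

/-- the vertices of `Z` are doubled, the vertices of `I` are not used at all -/
theorem contraction_ZI (x y : ι → ℝ) {A : ℝ} (hA0 : 0 < A) (hA : ∀ a, |x a| ≤ A)
    {pos : (ι → Bool) → Prop} (hp : IsSign y pos) (Z I : Finset (ι → Bool))
    (hI : ∀ s ∈ I, A < val x s ∧ ¬ FD x y A pos s ∧ ¬ FU x y A pos s ∧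
      ∀ t, ¬ Lk x y A pos s t ∧ ¬ Lk x y A pos t s)
    (hcard : Z.card ≤ I.card)
    (hno : ∀ b, RchZ x y A pos Z b → ¬ FU x y A pos b) :
    ∃ C D : Finset (ι → Bool), 2 * (C.card + D.card) ≤ 2 ^ Fintype.card ι ∧ Good x y A C D := by
  classical
  set R : (ι → Bool) → Prop := RchZ x y A pos Z with hR
  set O : Finset (ι → Bool) := univ.filter fun s => A < val x s with hO
  have memO : ∀ s, s ∈ O ↔ A < val x s := fun s => by simp [hO]
  have hFDR : ∀ b, FD x y A pos b → R b ∨ b ∈ Z := by
    intro b hb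
    by_cases hz : b ∈ Z
    · exact Or.inr hz
    · exact Or.inl ⟨b, ⟨hb, hz⟩, Relation.ReflTransGen.refl⟩
  refine contraction_cover x y hA0 hA hp (O.filter fun b => b ∉ I ∧ ¬ R b)
    (O.filter fun b => b ∉ I ∧ (R b ∨ b ∈ Z))
    (fun b hb => mem_filter.2 ⟨(memO b).2 hb.1, fun hi => (hI b hi).2.2.1 hb, fun hr => hno b hr hb⟩)
    (fun b hb => mem_filter.2 ⟨(memO b).2 hb.1, fun hi => (hI b hi).2.1 hb, hFDR b hb⟩)
    (fun b c hbc => ?_) ?_
  · by_cases h1 : b ∈ I
    · exact absurd hbc ((hI b h1).2.2.2 c).1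
    · by_cases h2 : R b
      · right
        refine mem_filter.2 ⟨(memO c).2 hbc.2.1, fun hi => ((hI c hi).2.2.2 b).2 hbc, ?_⟩
        by_cases hz : c ∈ Z
        · exact Or.inr hz
        · obtain ⟨b₀, h7, h8⟩ := h2
          exact Or.inl ⟨b₀, h7, h8.tail ⟨hbc, hz⟩⟩
      · exact Or.inl (mem_filter.2 ⟨(memO b).2 hbc.1, h1, h2⟩)
  · rw [← Finset.card_union_add_card_inter]
    set C := O.filter fun b => b ∉ I ∧ ¬ R b
    set D := O.filter fun b => b ∉ I ∧ (R b ∨ b ∈ Z)
    have h1 : C ∩ D ⊆ Z := by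
      intro s hs
      obtain ⟨h1, h2⟩ := mem_inter.1 hs
      exact ((mem_filter.1 h2).2.2).resolve_left (mem_filter.1 h1).2.2
    have h2 : Disjoint (C ∪ D) I := by
      rw [Finset.disjoint_left]
      intro s hs
      rcases mem_union.1 hs with h | h
      · exact (mem_filter.1 h).2.1
      · exact (mem_filter.1 h).2.1
    have h3 : (C ∪ D) ∪ I ⊆ O := by
      intro s hs
      rcases mem_union.1 hs with h | h
      · rcases mem_union.1 h with h | h
        · exact (mem_filter.1 h).1
        · exact (mem_filter.1 h).1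
      · exact (memO s).2 (hI s h).1
    have h4 := Finset.card_le_card h3
    rw [Finset.card_union_of_disjoint h2] at h4
    have h5 := Finset.card_le_card h1
    have h6 : (univ.filter fun s => A < val x s).card = O.card := rfl
    omega

end C1E
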