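import Pool.Agent.C1E.Stat

/-!
# The static cover
-/

set_option linter.unusedSectionVars false
set_option linter.unusedVariables false

namespace C1E

open Finset

variable {ι : Type} [Fintype ι] [DecidableEq ι]

/-- roles of the vertices of `T`: out -/
def OutT (x y : ι → ℝ) (A : ℝ) (pos : (ι → Bool) → Prop) (g nu : ι) (b : ι → Bool) : Prop :=
  InG x y A g b ∧
    ((b nu = true ∧ (FU x y A pos b ∨ (InG x y A g (nup g nu b) ∧ Lk x y A pos b (nup g nu b) ∧
      ¬ FD x y A pos (nup g nu b)))) ∨
    (b nu = false ∧ (FU x y A pos b ∨ ∃ c, InG x y A g c ∧ Lk x y A pos b c ∧ ¬ FD x y A pos c)))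

/-- roles of the vertices of `T`: in -/
def InnT (x y : ι → ℝ) (A : ℝ) (pos : (ι → Bool) → Prop) (g nu : ι) (b : ι → Bool) : Prop :=
  (InT x A g b ∧ ¬ InG x y A g b) ∨ (InG x y A g b ∧
    ((b nu = true ∧ FD x y A pos b) ∨
    (b nu = false ∧ (FD x y A pos b ∨ ∃ c, InG x y A g c ∧ Lk x y A pos c b ∧
      ¬ FU x y A pos c))))

/-- out -/
def Out (x y : ι → ℝ) (A : ℝ) (pos : (ι → Bool) → Prop) (g nu : ι) (b : ι → Bool) : Prop :=
  OutT x y A pos g nu b ∨ (InP x A g b ∧ (FU x y A pos b ∨
    ∃ z, Lk x y A pos b z ∧ ¬ InnT x y A pos g nu z))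

/-- in -/
def Inn (x y : ι → ℝ) (A : ℝ) (pos : (ι → Bool) → Prop) (g nu : ι) (b : ι → Bool) : Prop :=
  InnT x y A pos g nu b ∨ (InP x A g b ∧ (FD x y A pos b ∨
    ∃ z, Lk x y A pos z b ∧ ¬ OutT x y A pos g nu z))

/-- the sources of the special pairs -/
def Spc (x y : ι → ℝ) (A : ℝ) (pos : (ι → Bool) → Prop) (g nu : ι) (b : ι → Bool) : Prop :=
  InG x y A g b ∧ b nu = true ∧ FD x y A pos b ∧ InG x y A g (nup g nu b) ∧
    Lk x y A pos b (nup g nu b) ∧ FU x y A pos (nup g nu b)

omit [Fintype ι] in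
theorem nup_g {g nu : ι} (h : g ≠ nu) (b : ι → Bool) : nup g nu b g = b g := by
  simp [nup, ng, flp_ne _ h, flp_same]

omit [Fintype ι] in
theorem nup_nu {g nu : ι} (h : g ≠ nu) (b : ι → Bool) : nup g nu b nu = b nu := by
  simp [nup, ng, flp_ne _ h.symm, flp_same]

omit [Fintype ι] in
theorem nup_ne {g nu a : ι} (h : a ≠ g) (h' : a ≠ nu) (b : ι → Bool) :
    nup g nu b a = !(b a) := by
  simp [nup, ng, flp_ne _ h, flp_ne _ h']

omit [Fintype ι] in
theorem nup_nup {g nu : ι} (h : g ≠ nu) (b : ι → Bool) : nup g nu (nup g nu b) = b := by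
  funext a
  by_cases h1 : a = g
  · subst h1; rw [nup_g h, nup_g h]
  · by_cases h2 : a = nu
    · subst h2; rw [nup_nu h, nup_nu h]
    · rw [nup_ne h1 h2, nup_ne h1 h2, Bool.not_not]

section

variable {x y : ι → ℝ} {A : ℝ} {pos : (ι → Bool) → Prop} {g nu : ι}

/-- heights of partners -/
theorem Ev_nup (S : Sys x y A pos g nu) (hg : g ≠ nu) {b : ι → Bool} (h1 : b g = true)
    (h2 : b nu = true) :
    Ev x y A g b + Ev x y A g (nup g nu b) = 2 * et x y g nu - 2 * (ta x y g * A) := by
  have h3 : flp b g nu = true := by rw [flp_ne b hg.symm, h2]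
  have e1 : val y (nup g nu b) = - (val y b - 2 * y g - 2 * y nu) := by
    unfold nup; rw [val_ng, val_flp_true y h3, val_flp_true y h1]
  have e2 : val x (nup g nu b) = - (val x b - 2 * x g - 2 * x nu) := by
    unfold nup; rw [val_ng, val_flp_true x h3, val_flp_true x h1]
  have e3 := S.et_g
  unfold Ev dp
  rw [e1, e2]
  unfold et at e3 ⊢
  linarith

theorem dp_nup (S : Sys x y A pos g nu) (hg : g ≠ nu) {b : ι → Bool} (h1 : b g = true)
    (h2 : b nu = true) :
    dp x A b + dp x A (nup g nu b) = 2 * x nu - 2 * (A - x g) := by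
  have h3 : flp b g nu = true := by rw [flp_ne b hg.symm, h2]
  have e2 : val x (nup g nu b) = - (val x b - 2 * x g - 2 * x nu) := by
    unfold nup; rw [val_ng, val_flp_true x h3, val_flp_true x h1]
  unfold dp
  rw [e2]; ring

theorem nup_lt (S : Sys x y A pos g nu) (hg : g ≠ nu) {b : ι → Bool} (h : InG x y A g b)
    (h2 : b nu = true) : Ev x y A g (nup g nu b) < 2 * et x y g nu := by
  have h3 := Ev_nup S hg h.1.2.1 h2
  have h4 := mul_nonneg S.tau S.A0.le
  have h5 := h.2
  linarith

/-- a link inside `G` with label `nu` -/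
theorem lk_nup (S : Sys x y A pos g nu) (hg : g ≠ nu) {b c : ι → Bool} (hb : InT x A g b)
    (hc : InG x y A g c)
    (h : Lk x y A pos b c) :
    InG x y A g b ∧ ((b nu = true ∧ c nu = true ∧ c = nup g nu b) ∨ b nu = !(c nu)) := by
  obtain ⟨j, k, h1⟩ := Lk_elim S h
  obtain ⟨h2, h3, h4⟩ := TG S h1 hb hc
  subst h2
  refine ⟨h3, ?_⟩
  by_cases h5 : nu = k
  · subst h5
    left
    exact ⟨h1.bk, h1.ck, h1.eq⟩
  · by_cases h6 : nu = j
    · exact absurd h6.symm hg
    · right
      rw [h1.ne nu h6 h5, Bool.not_not]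

theorem cover_FU (S : Sys x y A pos g nu) (b : ι → Bool) (h : FU x y A pos b) :
    Out x y A pos g nu b := by
  rcases kinds h.1 (g := g) with h1 | h1 | h1
  · by_cases h2 : InG x y A g b
    · left
      refine ⟨h2, ?_⟩
      cases h3 : b nu
      · exact Or.inr ⟨rfl, Or.inl h⟩
      · exact Or.inl ⟨rfl, Or.inl h⟩
    · exact absurd h (notG_noFU S h1 h2)
  · exact Or.inr ⟨h1, Or.inl h⟩
  · exact absurd h (h1.noFU S)

theorem cover_FD (S : Sys x y A pos g nu) (b : ι → Bool) (h : FD x y A pos b) :
    Inn x y A pos g nu b := by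
  rcases kinds h.1 (g := g) with h1 | h1 | h1
  · by_cases h2 : InG x y A g b
    · left; right
      refine ⟨h2, ?_⟩
      cases h3 : b nu
      · exact Or.inr ⟨rfl, Or.inl h⟩
      · exact Or.inl ⟨rfl, h⟩
    · exact Or.inl (Or.inl ⟨h1, h2⟩)
  · exact Or.inr ⟨h1, Or.inl h⟩
  · exact absurd h (h1.noFD S)

theorem cover_Lk (S : Sys x y A pos g nu) (hg : g ≠ nu) (b c : ι → Bool) (h : Lk x y A pos b c) :
    Out x y A pos g nu b ∨ Inn x y A pos g nu c := by
  rcases kinds h.1 (g := g) with h1 | h1 | h1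
  · rcases kinds h.2.1 (g := g) with h2 | h2 | h2
    · by_cases h3 : InG x y A g c
      · obtain ⟨h4, h5⟩ := lk_nup S hg h1 h3 h
        rcases h5 with ⟨h5, h6, h7⟩ | h5
        · by_cases h8 : FD x y A pos c
          · exact Or.inr (cover_FD S c h8)
          · left; left
            refine ⟨h4, Or.inl ⟨h5, Or.inr ?_⟩⟩
            rw [← h7]
            exact ⟨h3, h, h8⟩
        · cases h6 : c nu
          · rw [h6] at h5
            by_cases h8 : FU x y A pos b
            · exact Or.inl (cover_FU S b h8)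
            · right; left; right
              exact ⟨h3, Or.inr ⟨h6, Or.inr ⟨b, h4, h, h8⟩⟩⟩
          · rw [h6] at h5
            by_cases h8 : FD x y A pos c
            · exact Or.inr (cover_FD S c h8)
            · left; left
              exact ⟨h4, Or.inr ⟨h5, Or.inr ⟨c, h3, h, h8⟩⟩⟩
      · exact Or.inr (Or.inl (Or.inl ⟨h2, h3⟩))
    · by_cases h3 : OutT x y A pos g nu b
      · exact Or.inl (Or.inl h3)
      · exact Or.inr (Or.inr ⟨h2, Or.inr ⟨b, h, h3⟩⟩)
    · exact absurd h (h2.noLk' S)
  · rcases kinds h.2.1 (g := g) with h2 | h2 | h2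
    · by_cases h3 : InnT x y A pos g nu c
      · exact Or.inr (Or.inl h3)
      · exact Or.inl (Or.inr ⟨h1, Or.inr ⟨c, h, h3⟩⟩)
    · exact absurd h (noPP S h1 h2)
    · exact absurd h (h2.noLk' S)
  · exact absurd h (h1.noLk S)

/-! ## Counting -/

theorem OutT.G {b : ι → Bool} (h : OutT x y A pos g nu b) : InG x y A g b := h.1

theorem InnT.T {b : ι → Bool} (h : InnT x y A pos g nu b) : InT x A g b := by
  rcases h with h | h
  · exact h.1
  · exact h.1.1

theorem Out.O {b : ι → Bool} (h : Out x y A pos g nu b) : A < val x b := by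
  rcases h with h | h
  · exact h.1.1.1
  · exact h.1.1

theorem Inn.O {b : ι → Bool} (h : Inn x y A pos g nu b) : A < val x b := by
  rcases h with h | h
  · exact h.T.1
  · exact h.1.1

/-- an outer vertex without role -/
def Idle (x y : ι → ℝ) (A : ℝ) (pos : (ι → Bool) → Prop) (g nu : ι) (b : ι → Bool) : Prop :=
  A < val x b ∧ ¬ Out x y A pos g nu b ∧ ¬ Inn x y A pos g nu b

/-- a vertex with two roles -/
def Full (x y : ι → ℝ) (A : ℝ) (pos : (ι → Bool) → Prop) (g nu : ι) (b : ι → Bool) : Prop :=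
  Out x y A pos g nu b ∧ Inn x y A pos g nu b

theorem InF.idle {b : ι → Bool} (h : InF x A g b) : Idle x y A pos g nu b := by
  refine ⟨h.1, ?_, ?_⟩
  · rintro (h1 | h1)
    · exact h1.1.1.notF h
    · exact h.notP h1.1
  · rintro (h1 | h1)
    · exact h1.T.notF h
    · exact h.notP h1.1

/-- a vertex of `G` with `nu` toward is idle if it has no loop and no partner in `G` -/
theorem idle_of {b : ι → Bool} (h : InG x y A g b) (h2 : b nu = true) (h3 : ¬ FD x y A pos b)
    (h4 : ¬ FU x y A pos b) (h5 : ¬ InG x y A g (nup g nu b)) : Idle x y A pos g nu b := by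
  refine ⟨h.1.1, ?_, ?_⟩
  · rintro (⟨_, h6⟩ | h1)
    · rcases h6 with ⟨_, h6 | h6⟩ | ⟨h6, _⟩
      · exact h4 h6
      · exact h5 h6.1
      · rw [h2] at h6; exact Bool.noConfusion h6
    · exact h.1.notP h1.1
  · rintro (h6 | h1)
    · rcases h6 with h6 | ⟨_, h6⟩
      · exact h6.2 h
      · rcases h6 with ⟨_, h6⟩ | ⟨h6, _⟩
        · exact h3 h6
        · rw [h2] at h6; exact Bool.noConfusion h6
    · exact h.1.notP h1.1

theorem InP.flp (S : Sys x y A pos g nu) {b : ι → Bool} (h : InP x A g b) :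
    InF x A g (flp b g) := by
  have h1 := dp_flp_false (x := x) (A := A) h.2
  have h2 := dp_pos h.1
  have h3 := S.g0
  refine ⟨?_, by rw [flp_same, h.2]; rfl, by linarith⟩
  have : 0 < dp x A (C1E.flp b g) := by linarith
  unfold dp at this; linarith

/-- the `nu`-away vertices -/
theorem away (S : Sys x y A pos g nu) (hg : g ≠ nu) {b : ι → Bool} (h : InG x y A g b)
    (h2 : b nu = false) :
    A < val x (flp b nu) ∧ flp b nu g = true ∧ flp b nu nu = true ∧
      2 * et x y g nu < Ev x y A g (flp b nu) := by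
  have h1 := dp_flp_false (x := x) (A := A) h2
  have h3 := dp_pos h.1.1
  have h4 := S.x0 nu
  refine ⟨?_, ?_, ?_, ?_⟩
  · have : 0 < dp x A (flp b nu) := by linarith
    unfold dp at this; linarith
  · rw [flp_ne b hg]; exact h.1.2.1
  · rw [flp_same, h2]; rfl
  · rw [Ev_flp_false h2]; have := h.2; linarith

theorem away_idle (S : Sys x y A pos g nu) (hg : g ≠ nu) (h0 : 0 < et x y g nu) {b : ι → Bool} (h : InG x y A g b)
    (h2 : b nu = false) : Idle x y A pos g nu (flp b nu) := by
  obtain ⟨h3, h4, h5, h6⟩ := away S hg h h2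
  have h7 : 0 < Ev x y A g (flp b nu) := by linarith
  rcases kinds h3 (g := g) with h8 | h8 | h8
  · have hG : InG x y A g (flp b nu) := ⟨h8, h7⟩
    refine idle_of hG h5 (fun h9 => ?_) (fun h9 => ?_) (fun h9 => ?_)
    · have := FD_lt S h9 h7; linarith
    · have := FU_le S h9; linarith
    · have h10 := Ev_nup S hg h8.2.1 h5
      have h11 := h9.2
      have h12 := mul_nonneg S.tau S.A0.le
      linarith
  · rw [h8.2] at h4; exact Bool.noConfusion h4
  · exact h8.idle

/-- the near vertex below a far `nu`-flip has no in-role -/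
theorem away_P (S : Sys x y A pos g nu) (hg : g ≠ nu) (h0 : 0 < et x y g nu) {b p : ι → Bool} (h : InG x y A g b)
    (h2 : b nu = false) (hp : InP x A g p) (he : flp p g = flp b nu) :
    ¬ Inn x y A pos g nu p := by
  obtain ⟨h3, h4, h5, h6⟩ := away S hg h h2
  have hE : Ev x y A g p = Ev x y A g (flp b nu) := by
    rw [← he, Ev_flp_false hp.2, S.et_g]; ring
  rintro (h7 | ⟨_, h7⟩)
  · exact h7.T.notP hp
  · rcases h7 with h7 | ⟨z, h7, _⟩
    · have := FD_lt S h7 (by rw [hE]; linarith)
      linarith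
    · obtain ⟨j, k, h8⟩ := Lk_elim S h7
      have := h8.lt S (by rw [hE]; linarith)
      linarith

theorem full_toward (S : Sys x y A pos g nu) (hg : g ≠ nu) {b : ι → Bool} (h : InG x y A g b)
    (h2 : b nu = true) (hf : Full x y A pos g nu b) (hs : ¬ Spc x y A pos g nu b) :
    InG x y A g (nup g nu b) ∧ Idle x y A pos g nu (nup g nu b) := by
  obtain ⟨ho, hi⟩ := hf
  have hFD : FD x y A pos b := by
    rcases hi with hi | hi
    · rcases hi with hi | ⟨_, hi⟩
      · exact absurd h hi.2
      · rcases hi with hi | hi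
        · exact hi.2
        · rw [h2] at hi; exact Bool.noConfusion hi.1
    · exact absurd hi.1 h.1.notP
  have hFU : ¬ FU x y A pos b := fun h' => not_FD_FU S hFD h'
  have h3 : InG x y A g (nup g nu b) ∧ Lk x y A pos b (nup g nu b) ∧
      ¬ FD x y A pos (nup g nu b) := by
    rcases ho with ⟨_, ho⟩ | ho
    · rcases ho with ⟨_, ho | ho⟩ | ho
      · exact absurd ho hFU
      · exact ho
      · rw [h2] at ho; exact Bool.noConfusion ho.1
    · exact absurd ho.1 h.1.notP
  obtain ⟨h4, h5, h6⟩ := h3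
  have h7 : ¬ FU x y A pos (nup g nu b) := fun h7 => hs ⟨h, h2, hFD, h4, h5, h7⟩
  have h8 : nup g nu b nu = true := by rw [nup_nu hg, h2]
  refine ⟨h4, h4.1.1, ?_, ?_⟩
  · rintro (⟨_, h9⟩ | h9)
    · rcases h9 with ⟨_, h9 | h9⟩ | h9
      · exact h7 h9
      · rw [nup_nup hg] at h9; exact h9.2.2 hFD
      · rw [h8] at h9; exact Bool.noConfusion h9.1
    · exact h4.1.notP h9.1
  · rintro (h9 | h9)
    · rcases h9 with h9 | ⟨_, h9⟩
      · exact h9.2 h4
      · rcases h9 with h9 | h9
        · exact h6 h9.2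
        · rw [h8] at h9; exact Bool.noConfusion h9.1
    · exact h4.1.notP h9.1

/-- a vertex of `G` with a role -/
theorem role_pos (S : Sys x y A pos g nu) {b : ι → Bool} (h : InG x y A g b)
    (hf : Out x y A pos g nu b ∨ Inn x y A pos g nu b) : 0 < et x y g nu := by
  have hFD : FD x y A pos b → 0 < et x y g nu := fun h1 => by
    have := FD_lt S h1 h.2
    have := h.2
    linarith
  have hFU : FU x y A pos b → 0 < et x y g nu := fun h1 => by
    have := FU_le S h1
    have := h.2
    linarith
  have hLk : ∀ b c, InG x y A g c → Lk x y A pos b c → 0 < et x y g nu := fun b c h1 h2 => by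
    obtain ⟨j, k, h3⟩ := Lk_elim S h2
    have := h3.lt S h1.2
    have := h1.2
    linarith
  rcases hf with (⟨_, h1⟩ | h1) | (h1 | h1)
  · rcases h1 with ⟨_, h1 | h1⟩ | ⟨_, h1 | ⟨c, h1⟩⟩
    · exact hFU h1
    · exact hLk _ _ h1.1 h1.2.1
    · exact hFU h1
    · exact hLk _ _ h1.1 h1.2.1
  · exact absurd h1.1 h.1.notP
  · rcases h1 with h1 | ⟨_, h1⟩
    · exact absurd h h1.2
    · rcases h1 with ⟨_, h1⟩ | ⟨_, h1 | ⟨c, h1⟩⟩
      · exact hFD h1
      · exact hFD h1
      · exact hLk _ _ h h1.2.1
  · exact absurd h1.1 h.1.notP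

/-- where a full vertex is charged -/
noncomputable def chg (x : ι → ℝ) (A : ℝ) (g nu : ι) (b : ι → Bool) : ι → Bool :=
  if b g = false then flp b g else if b nu = false then flp b nu else nup g nu b

theorem full_cases (S : Sys x y A pos g nu) {b : ι → Bool} (hf : Full x y A pos g nu b) :
    InP x A g b ∨ InG x y A g b := by
  obtain ⟨ho, hi⟩ := hf
  rcases ho with ho | ho
  · exact Or.inr ho.1
  · exact Or.inl ho.1

theorem chg_idle (S : Sys x y A pos g nu) (hg : g ≠ nu) {b : ι → Bool}
    (hf : Full x y A pos g nu b) (hs : ¬ Spc x y A pos g nu b) :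
    Idle x y A pos g nu (chg x A g nu b) := by
  unfold chg
  rcases full_cases S hf with h | h
  · rw [if_pos h.2]; exact (InP.flp S h).idle
  · rw [if_neg (by rw [h.1.2.1]; simp)]
    cases h2 : b nu
    · rw [if_pos rfl]; exact away_idle S hg (role_pos S h (Or.inl hf.1)) h h2
    · rw [if_neg (by simp)]; exact (full_toward S hg h h2 hf hs).2

theorem chg_inj (S : Sys x y A pos g nu) (hg : g ≠ nu) {b b' : ι → Bool}
    (hf : Full x y A pos g nu b) (hs : ¬ Spc x y A pos g nu b)
    (hf' : Full x y A pos g nu b') (hs' : ¬ Spc x y A pos g nu b')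
    (he : chg x A g nu b = chg x A g nu b') : b = b' := by
  -- the mixed cases
  have m1 : ∀ {b b' : ι → Bool}, Full x y A pos g nu b → Full x y A pos g nu b' →
      InP x A g b → InG x y A g b' →
      b' nu = false → flp b g = flp b' nu → False := fun {b b'} hf hf' hp hG h2 he =>
    away_P S hg (role_pos S hG (Or.inl hf'.1)) hG h2 hp he hf.2
  have m2 : ∀ {b b' : ι → Bool}, InP x A g b → InG x y A g (nup g nu b') →
      flp b g = nup g nu b' → False := fun {b b'} hp hG he => by
    have := InP.flp S hp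
    rw [he] at this
    exact hG.1.notF this
  have m3 : ∀ {b b' : ι → Bool}, InG x y A g b → b nu = false → InG x y A g b' → b' nu = true →
      flp b nu = nup g nu b' → False := fun {b b'} h h2 h' h2' he => by
    have h3 := (away S hg h h2).2.2.2
    rw [he] at h3
    have := nup_lt S hg h' h2'
    linarith
  unfold chg at he
  rcases full_cases S hf with h | h <;> rcases full_cases S hf' with h' | h'
  · rw [if_pos h.2, if_pos h'.2] at he
    rw [← flp_flp b g, he, flp_flp]
  · rw [if_pos h.2, if_neg (by rw [h'.1.2.1]; simp)] at he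
    cases h2 : b' nu
    · rw [h2, if_pos rfl] at he
      exact (m1 hf hf' h h' h2 he).elim
    · rw [h2, if_neg (by simp)] at he
      exact (m2 h (full_toward S hg h' h2 hf' hs').1 he).elim
  · rw [if_pos h'.2, if_neg (by rw [h.1.2.1]; simp)] at he
    cases h2 : b nu
    · rw [h2, if_pos rfl] at he
      exact (m1 hf' hf h' h h2 he.symm).elim
    · rw [h2, if_neg (by simp)] at he
      exact (m2 h' (full_toward S hg h h2 hf hs).1 he.symm).elim
  · rw [if_neg (show ¬ (b g = false) by rw [h.1.2.1]; simp),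
      if_neg (show ¬ (b' g = false) by rw [h'.1.2.1]; simp)] at he
    cases h2 : b nu <;> cases h2' : b' nu
    · rw [h2, h2', if_pos rfl, if_pos rfl] at he
      rw [← flp_flp b nu, he, flp_flp]
    · rw [h2, h2', if_pos rfl, if_neg (by simp)] at he
      exact (m3 h h2 h' h2' he).elim
    · rw [h2, h2', if_pos rfl, if_neg (by simp)] at he
      exact (m3 h' h2' h h2 he.symm).elim
    · rw [h2, h2', if_neg (by simp), if_neg (by simp)] at he
      rw [← nup_nup hg b, he, nup_nup hg]

/-- the static cover costs at most the number of outer vertices and of special pairs -/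
theorem static_cover [DecidablePred (Spc x y A pos g nu)] (S : Sys x y A pos g nu) (hg : g ≠ nu) :
    ∃ cC cD : Finset (ι → Bool), (∀ b, FU x y A pos b → b ∈ cC) ∧
      (∀ b, FD x y A pos b → b ∈ cD) ∧ (∀ b c, Lk x y A pos b c → b ∈ cC ∨ c ∈ cD) ∧
      cC.card + cD.card ≤ (univ.filter fun s => A < val x s).card +
        (univ.filter (Spc x y A pos g nu)).card := by
  classical
  set O : Finset (ι → Bool) := univ.filter fun s => A < val x s with hO
  set cC : Finset (ι → Bool) := univ.filter (Out x y A pos g nu) with hC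
  set cD : Finset (ι → Bool) := univ.filter (Inn x y A pos g nu) with hD
  refine ⟨cC, cD, fun b hb => ?_, fun b hb => ?_, fun b c h => ?_, ?_⟩
  · simp only [hC, mem_filter, mem_univ, true_and]; exact cover_FU S b hb
  · simp only [hD, mem_filter, mem_univ, true_and]; exact cover_FD S b hb
  · simp only [hC, hD, mem_filter, mem_univ, true_and]; exact cover_Lk S hg b c h
  · set Sp : Finset (ι → Bool) := univ.filter (Spc x y A pos g nu) with hSp
    set I : Finset (ι → Bool) := univ.filter (Idle x y A pos g nu) with hI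
    have h1 : (cC ∩ cD) \ Sp ⊆ (cC ∩ cD) := sdiff_subset
    have h2 : ((cC ∩ cD) \ Sp).card ≤ I.card := by
      refine card_le_card_of_injOn (chg x A g nu) (fun b hb => ?_) (fun b hb b' hb' he => ?_)
      · simp only [coe_sdiff, coe_inter, Set.mem_sdiff, Set.mem_inter_iff, mem_coe, hC, hD, hSp,
          mem_filter, mem_univ, true_and] at hb
        simp only [hI, coe_filter, Set.mem_ofPred_eq, mem_univ, true_and]
        exact chg_idle S hg hb.1 hb.2
      · simp only [coe_sdiff, coe_inter, Set.mem_sdiff, Set.mem_inter_iff, mem_coe, hC, hD, hSp,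
          mem_filter, mem_univ, true_and] at hb hb'
        exact chg_inj S hg hb.1 hb.2 hb'.1 hb'.2 he
    have h3 : Disjoint (cC ∪ cD) I := by
      rw [disjoint_left]
      intro b hb hb'
      simp only [hI, mem_filter, mem_univ, true_and] at hb'
      rcases mem_union.1 hb with h | h
      · simp only [hC, mem_filter, mem_univ, true_and] at h
        exact hb'.2.1 h
      · simp only [hD, mem_filter, mem_univ, true_and] at h
        exact hb'.2.2 h
    have h4 : (cC ∪ cD) ∪ I ⊆ O := by
      intro b hb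
      simp only [hO, mem_filter, mem_univ, true_and]
      rcases mem_union.1 hb with h | h
      · rcases mem_union.1 h with h | h
        · simp only [hC, mem_filter, mem_univ, true_and] at h; exact h.O
        · simp only [hD, mem_filter, mem_univ, true_and] at h; exact h.O
      · simp only [hI, mem_filter, mem_univ, true_and] at h; exact h.1
    have h5 := card_le_card h4
    rw [card_union_of_disjoint h3] at h5
    have h6 := card_union_add_card_inter cC cD
    have h7 : (cC ∩ cD).card ≤ ((cC ∩ cD) \ Sp).card + Sp.card := by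
      have := card_le_card (show cC ∩ cD ⊆ ((cC ∩ cD) \ Sp) ∪ Sp by
        intro b hb
        by_cases hs : b ∈ Sp
        · exact mem_union_right _ hs
        · exact mem_union_left _ (mem_sdiff.2 ⟨hb, hs⟩))
      exact this.trans (card_union_le _ _)
    omega

end

end C1E
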