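import Mathlib

/-!
# Faces of the cube meeting a line: reduction to edges
-/

namespace C1E

open Finset

variable {ι : Type} [Fintype ι] [DecidableEq ι]

/-- the sign of a truth value -/
def sg (b : Bool) : ℝ := if b then 1 else -1

theorem sg_not (b : Bool) : sg (!b) = - sg b := by
  cases b <;> simp [sg]

theorem sg_true : sg true = 1 := by simp [sg]

theorem sg_false : sg false = -1 := by simp [sg]

theorem abs_sg (b : Bool) : |sg b| = 1 := by
  cases b <;> simp [sg]

/-- value of a linear form at a vertex of the cube -/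
def val (x : ι → ℝ) (s : ι → Bool) : ℝ := ∑ a, x a * sg (s a)

/-- `s` is a vertex of the smallest face of the cube which contains `u` -/
def InFace (u : ι → ℝ) (s : ι → Bool) : Prop :=
  ∀ a, (u a = 1 → s a = true) ∧ (u a = -1 → s a = false)

/-- the neighbour of `s` in direction `a` -/
def flp (s : ι → Bool) (a : ι) : ι → Bool := Function.update s a (!(s a))

/-- the antipode -/
def ng (s : ι → Bool) : ι → Bool := fun a => !(s a)

omit [DecidableEq ι] in
theorem val_ng (x : ι → ℝ) (s : ι → Bool) : val x (ng s) = - val x s := by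
  simp only [val, ng, sg_not, mul_neg, Finset.sum_neg_distrib]

omit [Fintype ι] [DecidableEq ι] in
theorem ng_ng (s : ι → Bool) : ng (ng s) = s := by
  funext a; simp [ng]

omit [Fintype ι] in
theorem flp_same (s : ι → Bool) (a : ι) : flp s a a = !(s a) := by simp [flp]

omit [Fintype ι] in
theorem flp_ne (s : ι → Bool) {a b : ι} (h : b ≠ a) : flp s a b = s b := by simp [flp, h]

omit [Fintype ι] in
theorem flp_flp (s : ι → Bool) (a : ι) : flp (flp s a) a = s := by
  funext b
  by_cases h : b = a
  · subst h; simp [flp]
  · simp [flp, h]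

omit [Fintype ι] in
theorem ng_flp (s : ι → Bool) (a : ι) : ng (flp s a) = flp (ng s) a := by
  funext b
  by_cases h : b = a
  · subst h; simp [flp, ng]
  · simp [flp, ng, h]

theorem val_flp (x : ι → ℝ) (s : ι → Bool) (a : ι) :
    val x (flp s a) = val x s - 2 * (x a * sg (s a)) := by
  have h1 : val x s = x a * sg (s a) + ∑ b ∈ univ.erase a, x b * sg (s b) :=
    (Finset.add_sum_erase _ _ (mem_univ a)).symm
  have h2 : val x (flp s a) = x a * sg (flp s a a) + ∑ b ∈ univ.erase a, x b * sg (flp s a b) :=
    (Finset.add_sum_erase _ _ (mem_univ a)).symm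
  have h3 : ∑ b ∈ univ.erase a, x b * sg (flp s a b) = ∑ b ∈ univ.erase a, x b * sg (s b) := by
    refine Finset.sum_congr rfl fun b hb => ?_
    rw [flp_ne s (Finset.ne_of_mem_erase hb)]
  rw [h2, h3, h1, flp_same, sg_not]
  ring

/-- a direction along which `x` is constant and `y` does not decrease -/
theorem exists_dir (x y : ι → ℝ) {a b : ι} (hab : a ≠ b) :
    ∃ d : ι → ℝ, (∀ c, c ≠ a → c ≠ b → d c = 0) ∧ (∃ c, d c ≠ 0) ∧ ∑ c, x c * d c = 0 ∧
      0 ≤ ∑ c, y c * d c := by
  have key : ∀ d : ι → ℝ, (∀ c, c ≠ a → c ≠ b → d c = 0) → (∃ c, d c ≠ 0) →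
      ∑ c, x c * d c = 0 → ∃ d : ι → ℝ, (∀ c, c ≠ a → c ≠ b → d c = 0) ∧ (∃ c, d c ≠ 0) ∧
        ∑ c, x c * d c = 0 ∧ 0 ≤ ∑ c, y c * d c := by
    intro d h1 ⟨c, hc⟩ h3
    rcases le_total 0 (∑ c, y c * d c) with h | h
    · exact ⟨d, h1, ⟨c, hc⟩, h3, h⟩
    · refine ⟨fun c => - d c, fun c hc1 hc2 => by simp [h1 c hc1 hc2],
        ⟨c, neg_ne_zero.2 hc⟩, ?_, ?_⟩
      · simp only [mul_neg, Finset.sum_neg_distrib, h3, neg_zero]
      · simp only [mul_neg, Finset.sum_neg_distrib]; linarith
  by_cases h0 : x a = 0
  · refine key (fun c => if c = a then 1 else 0) ?_ ⟨a, by simp⟩ ?_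
    · intro c hc _; simp [hc]
    · simp [h0]
  · refine key (fun c => if c = a then x b else if c = b then - x a else 0) ?_ ⟨b, ?_⟩ ?_
    · intro c hc hc'; simp [hc, hc']
    · simp [hab.symm, h0]
    · have h1 : ∀ c, x c * (if c = a then x b else if c = b then - x a else 0) =
          (if c = a then x a * x b else 0) + (if c = b then - (x a * x b) else 0) := by
        intro c
        by_cases hc : c = a
        · subst hc; simp [hab]
        · by_cases hc' : c = b
          · subst hc'; simp [hc]; ring
          · simp [hc, hc']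
      simp only [h1, Finset.sum_add_distrib, Finset.sum_ite_eq', mem_univ, if_true]
      ring

omit [DecidableEq ι] in
/-- leaving the cube along a direction -/
theorem exists_exit (u d : ι → ℝ) (hu : ∀ c, |u c| ≤ 1) (hd : ∀ c, d c ≠ 0 → |u c| < 1)
    (hne : ∃ c, d c ≠ 0) : ∃ l : ℝ, 0 ≤ l ∧ (∀ c, |u c + l * d c| ≤ 1) ∧
      ∃ c, d c ≠ 0 ∧ |u c + l * d c| = 1 := by
  classical
  set S : Finset ι := univ.filter fun c => d c ≠ 0 with hS
  have hSne : S.Nonempty := by
    obtain ⟨c, hc⟩ := hne
    exact ⟨c, by simp [hS, hc]⟩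
  set f : ι → ℝ := fun c => (1 - (if 0 < d c then u c else - u c)) / |d c| with hf
  obtain ⟨c0, hc0, hmin⟩ := S.exists_min_image f hSne
  have hd0 : d c0 ≠ 0 := (mem_filter.1 hc0).2
  have hpos : ∀ c, d c ≠ 0 → 0 < f c := by
    intro c hc
    have h1 := abs_lt.1 (hd c hc)
    refine div_pos ?_ (abs_pos.2 hc)
    split_ifs <;> linarith [h1.1, h1.2]
  refine ⟨f c0, (hpos c0 hd0).le, fun c => ?_, c0, hd0, ?_⟩
  · by_cases hc : d c = 0
    · rw [hc, mul_zero, add_zero]; exact hu c
    · have h1 := hmin c (by simp [hS, hc])
      have h2 := abs_lt.1 (hd c hc)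
      have h3 := (hpos c0 hd0).le
      rcases lt_or_gt_of_ne hc with hneg | hp
      · have h4 : f c * (- d c) = 1 + u c := by
          simp only [hf, if_neg (not_lt.2 hneg.le), abs_of_neg hneg]
          have : - d c ≠ 0 := neg_ne_zero.2 hc
          field_simp
          ring
        have h5 : f c0 * (- d c) ≤ 1 + u c := by
          rw [← h4]; exact mul_le_mul_of_nonneg_right h1 (by linarith)
        rw [abs_le]
        constructor
        · nlinarith
        · nlinarith
      · have h4 : f c * d c = 1 - u c := by
          simp only [hf, if_pos hp, abs_of_pos hp]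
          field_simp
        have h5 : f c0 * d c ≤ 1 - u c := by
          rw [← h4]; exact mul_le_mul_of_nonneg_right h1 hp.le
        rw [abs_le]
        constructor
        · nlinarith
        · nlinarith
  · rcases lt_or_gt_of_ne hd0 with hneg | hp
    · have h4 : f c0 * (- d c0) = 1 + u c0 := by
        simp only [hf, if_neg (not_lt.2 hneg.le), abs_of_neg hneg]
        have : - d c0 ≠ 0 := neg_ne_zero.2 hd0
        field_simp
        ring
      have h5 : u c0 + f c0 * d c0 = -1 := by linarith
      rw [h5]; simp
    · have h4 : f c0 * d c0 = 1 - u c0 := by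
        simp only [hf, if_pos hp, abs_of_pos hp]
        field_simp
      have h5 : u c0 + f c0 * d c0 = 1 := by linarith
      rw [h5]; simp

/-- the height of the edge `b`, `q` over `A`, times a positive factor -/
def ht (x y : ι → ℝ) (A : ℝ) (b q : ι → Bool) : ℝ :=
  val y b * (A - val x q) + val y q * (val x b - A)

theorem edge_lemma (x y : ι → ℝ) (A : ℝ) : ∀ (m : ℕ) (u : ι → ℝ),
    (univ.filter fun a => |u a| < 1).card = m → (∀ a, |u a| ≤ 1) →
    ∑ a, x a * u a = A → 0 < ∑ a, y a * u a →
    (∃ s, InFace u s ∧ val x s = A ∧ 0 < val y s) ∨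
    (∃ b a, InFace u b ∧ InFace u (flp b a) ∧ val x (flp b a) < A ∧ A < val x b ∧
      0 < ht x y A b (flp b a)) := by
  classical
  intro m
  induction m using Nat.strong_induction_on with
  | _ m ih =>
  intro u hm hu hx hy
  have hcase : ∀ a, ¬ |u a| < 1 → u a = 1 ∨ u a = -1 := by
    intro a ha
    have h1 : |u a| = 1 := le_antisymm (hu a) (not_lt.1 ha)
    rcases abs_cases (u a) with ⟨h, _⟩ | ⟨h, _⟩
    · exact Or.inl (by linarith)
    · exact Or.inr (by linarith)
  by_cases h2 : ∃ a b, a ≠ b ∧ |u a| < 1 ∧ |u b| < 1
  · obtain ⟨a, b, hab, ha, hb⟩ := h2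
    obtain ⟨d, hd1, hd2, hd3, hd4⟩ := exists_dir x y hab
    have hd5 : ∀ c, d c ≠ 0 → |u c| < 1 := by
      intro c hc
      by_cases h : c = a
      · rw [h]; exact ha
      · by_cases h' : c = b
        · rw [h']; exact hb
        · exact absurd (hd1 c h h') hc
    obtain ⟨l, hl0, hl1, c0, hc0, hc1⟩ := exists_exit u d hu hd5 hd2
    have hsub : ∀ s, InFace (fun c => u c + l * d c) s → InFace u s := by
      intro s hs c
      have key : |u c| = 1 → u c + l * d c = u c := by
        intro h
        have : d c = 0 := by
          by_contra hne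
          have := hd5 c hne
          linarith
        rw [this, mul_zero, add_zero]
      constructor
      · intro h
        refine (hs c).1 ?_
        show u c + l * d c = 1
        rw [key (by rw [h]; simp), h]
      · intro h
        refine (hs c).2 ?_
        show u c + l * d c = -1
        rw [key (by rw [h]; simp), h]
    have hlt : (univ.filter fun a => |u a + l * d a| < 1).card < m := by
      rw [← hm]
      refine Finset.card_lt_card ⟨fun c hc => ?_, fun hsup => ?_⟩
      · rw [mem_filter] at hc ⊢
        refine ⟨mem_univ c, ?_⟩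
        by_cases h : d c = 0
        · have := hc.2
          rwa [h, mul_zero, add_zero] at this
        · exact hd5 c h
      · have := hsup (mem_filter.2 ⟨mem_univ c0, hd5 c0 hc0⟩)
        rw [mem_filter] at this
        linarith [this.2]
    have hX : ∑ c, x c * (u c + l * d c) = A := by
      have : ∀ c, x c * (u c + l * d c) = x c * u c + l * (x c * d c) := fun c => by ring
      simp only [this, Finset.sum_add_distrib, ← Finset.mul_sum, hx, hd3, mul_zero, add_zero]
    have hY : 0 < ∑ c, y c * (u c + l * d c) := by
      have : ∀ c, y c * (u c + l * d c) = y c * u c + l * (y c * d c) := fun c => by ring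
      simp only [this, Finset.sum_add_distrib, ← Finset.mul_sum]
      have := mul_nonneg hl0 hd4
      linarith
    rcases ih _ hlt (fun c => u c + l * d c) rfl hl1 hX hY with ⟨s, h1, h2, h3⟩ |
      ⟨b', a', h1, h2, h3⟩
    · exact Or.inl ⟨s, hsub s h1, h2, h3⟩
    · exact Or.inr ⟨b', a', hsub _ h1, hsub _ h2, h3⟩
  · push Not at h2
    by_cases h1 : ∃ a, |u a| < 1
    · obtain ⟨a, ha⟩ := h1
      have hoth : ∀ c, c ≠ a → u c = 1 ∨ u c = -1 := fun c hc =>
        hcase c (fun h => absurd (h2 c a hc h) (not_le.2 ha))
      set s : ι → Bool := fun c => if c = a then true else decide (u c = 1) with hs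
      have hsc : ∀ c, c ≠ a → sg (s c) = u c := by
        intro c hc
        rcases hoth c hc with h | h
        · simp [hs, hc, h, sg]
        · have : ¬ ((-1 : ℝ) = 1) := by norm_num
          simp [hs, hc, h, sg, this]
      have hsa : sg (s a) = 1 := by simp [hs, sg]
      have hval : ∀ z : ι → ℝ, val z s = ∑ c, z c * u c + z a * (1 - u a) := by
        intro z
        have e1 : val z s = z a * sg (s a) + ∑ b ∈ univ.erase a, z b * sg (s b) :=
          (Finset.add_sum_erase _ _ (mem_univ a)).symm
        have e2 : ∑ c, z c * u c = z a * u a + ∑ b ∈ univ.erase a, z b * u b :=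
          (Finset.add_sum_erase _ _ (mem_univ a)).symm
        have e3 : ∑ b ∈ univ.erase a, z b * sg (s b) = ∑ b ∈ univ.erase a, z b * u b :=
          Finset.sum_congr rfl fun b hb => by rw [hsc b (Finset.ne_of_mem_erase hb)]
        rw [e1, e3, e2, hsa]; ring
      have hval' : ∀ z : ι → ℝ, val z (flp s a) = ∑ c, z c * u c - z a * (1 + u a) := by
        intro z
        rw [val_flp, hval, hsa]; ring
      have hin : InFace u s := by
        intro c
        by_cases hc : c = a
        · subst hc
          have := abs_lt.1 ha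
          exact ⟨fun h => by linarith, fun h => by linarith⟩
        · constructor
          · intro h; simp [hs, hc, h]
          · intro h
            have : ¬ ((-1 : ℝ) = 1) := by norm_num
            simp [hs, hc, h, this]
      have hin' : InFace u (flp s a) := by
        intro c
        by_cases hc : c = a
        · subst hc
          have := abs_lt.1 ha
          exact ⟨fun h => by linarith, fun h => by linarith⟩
        · rw [flp_ne s hc]
          exact hin c
      have hab := abs_lt.1 ha
      set τ := u a with hτ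
      have hX := hval x
      have hX' := hval' x
      have hY := hval y
      have hY' := hval' y
      rw [hx] at hX hX'
      set Y0 := ∑ c, y c * u c with hY0
      rcases lt_trichotomy (x a) 0 with hxa | hxa | hxa
      · refine Or.inr ⟨flp s a, a, hin', by rw [flp_flp]; exact hin, ?_, ?_, ?_⟩
        · rw [flp_flp, hX]; nlinarith
        · rw [hX']; nlinarith
        · rw [flp_flp, ht, hX, hX', hY, hY']
          have : (Y0 - y a * (1 + τ)) * (A - (A + x a * (1 - τ))) +
              (Y0 + y a * (1 - τ)) * (A - x a * (1 + τ) - A) = -(2 * x a * Y0) := by ring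
          rw [this]; nlinarith
      · rcases le_total 0 (y a) with h | h
        · refine Or.inl ⟨s, hin, by rw [hX, hxa]; ring, ?_⟩
          rw [hY]; nlinarith
        · refine Or.inl ⟨flp s a, hin', by rw [hX', hxa]; ring, ?_⟩
          rw [hY']; nlinarith
      · refine Or.inr ⟨s, a, hin, hin', ?_, ?_, ?_⟩
        · rw [hX']; nlinarith
        · rw [hX]; nlinarith
        · rw [ht, hX, hX', hY, hY']
          have : (Y0 + y a * (1 - τ)) * (A - (A - x a * (1 + τ))) +
              (Y0 - y a * (1 + τ)) * (A + x a * (1 - τ) - A) = 2 * x a * Y0 := by ring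
          rw [this]; positivity
    · push Not at h1
      have hoth : ∀ c, u c = 1 ∨ u c = -1 := fun c => hcase c (not_lt.2 (h1 c))
      set s : ι → Bool := fun c => decide (u c = 1) with hs
      have hsc : ∀ c, sg (s c) = u c := by
        intro c
        rcases hoth c with h | h
        · simp [hs, h, sg]
        · have : ¬ ((-1 : ℝ) = 1) := by norm_num
          simp [hs, h, sg, this]
      refine Or.inl ⟨s, fun c => ⟨fun h => by simp [hs, h], fun h => ?_⟩, ?_, ?_⟩
      · have : ¬ ((-1 : ℝ) = 1) := by norm_num
        simp [hs, h, this]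
      · simp only [val, hsc, hx]
      · simp only [val, hsc]; exact hy

end C1E
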