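import Pool.Agent.C1E.Red

/-!
# At most five labels
-/

namespace C1E

open Finset

section

variable {ι : Type} [Fintype ι] [DecidableEq ι]

/-- the tie-broken sign -/
def ps (y : ι → ℝ) (a₀ : ι) (s : ι → Bool) : Prop := 0 < val y s ∨ (val y s = 0 ∧ s a₀ = true)

omit [DecidableEq ι] in
theorem isSign_ps (y : ι → ℝ) (a₀ : ι) : IsSign y (ps y a₀) := by
  refine ⟨fun s hs => Or.inl hs, fun s => ?_⟩
  unfold ps
  rw [val_ng]
  rcases lt_trichotomy (val y s) 0 with h | h | h
  · constructor
    · rintro _ (h' | ⟨h', _⟩) <;> linarith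
    · intro _; left; linarith
  · have e : ng s a₀ = !(s a₀) := rfl
    rw [e, h]
    constructor
    · rintro (h' | ⟨_, h'⟩)
      · linarith
      · rintro (h'' | ⟨_, h''⟩)
        · exact absurd h'' (lt_irrefl _)
        · rw [h''] at h'; simp at h'
    · intro h'
      right
      refine ⟨by norm_num, ?_⟩
      rw [not_or] at h'
      cases hb : s a₀
      · rfl
      · exact absurd ⟨rfl, hb⟩ h'.2
  · constructor
    · rintro (h' | ⟨h', _⟩) <;> linarith
    · intro h'
      exact absurd (Or.inl h) h'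

/-- the edge in direction `a` at `b` crosses the level `A` downwards -/
theorem active {x : ι → ℝ} (y : ι → ℝ) {A : ℝ} {b : ι → Bool} {a : ι} (hb : A < val x b)
    (ha : val x (flp b a) < A) :
    0 < x a * sg (b a) ∧ val x b - A < 2 * (x a * sg (b a)) ∧
      ht x y A b (flp b a) = 2 * (x a * sg (b a)) * (val y b - y a / x a * (val x b - A)) ∧
      val y (flp b a) = val y b - 2 * (y a / x a) * (x a * sg (b a)) := by
  have h1 := val_flp x b a
  have hw : 0 < x a * sg (b a) := by linarith
  have hx : x a ≠ 0 := by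
    intro h; rw [h, zero_mul] at hw; exact lt_irrefl _ hw
  have h2 : y a * sg (b a) = y a / x a * (x a * sg (b a)) := by field_simp
  have h3 := val_flp y b a
  refine ⟨hw, by linarith, ?_, ?_⟩
  · unfold ht
    rw [h1, h3, h2]; ring
  · rw [h3, h2]; ring

/-- slopes of an over and of an under edge -/
theorem slope_lt {x y : ι → ℝ} {A : ℝ} {b : ι → Bool} {i j : ι} (hb : A < val x b)
    (hi : val x (flp b i) < A) (hi' : ht x y A b (flp b i) < 0)
    (hj : val x (flp b j) < A) (hj' : 0 < ht x y A b (flp b j)) :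
    y j / x j < y i / x i := by
  obtain ⟨h1, _, h2, _⟩ := active y hb hi
  obtain ⟨h3, _, h4, _⟩ := active y hb hj
  rw [h2] at hi'
  rw [h4] at hj'
  have h5 : val y b - y i / x i * (val x b - A) < 0 := by
    by_contra hc; push Not at hc
    have := mul_nonneg (by linarith : (0 : ℝ) ≤ 2 * (x i * sg (b i))) hc
    linarith
  have h6 : 0 < val y b - y j / x j * (val x b - A) :=
    pos_of_mul_pos_right hj' (by linarith)
  by_contra hc
  push Not at hc
  nlinarith

theorem fd_neg {x y : ι → ℝ} {A : ℝ} {pos : (ι → Bool) → Prop} (hp : IsSign y pos)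
    {b : ι → Bool} {i : ι} (hb : A < val x b)
    (hi : val x (flp b i) < A) (hi' : ht x y A b (flp b i) < 0) (hpi : pos (flp b i)) :
    y i / x i < 0 := by
  obtain ⟨h1, h0, h2, h3⟩ := active y hb hi
  rw [h2] at hi'
  have h5 : val y b - y i / x i * (val x b - A) < 0 := by
    by_contra hc; push Not at hc
    have := mul_nonneg (by linarith : (0 : ℝ) ≤ 2 * (x i * sg (b i))) hc
    linarith
  have h6 := hp.nonneg hpi
  rw [h3] at h6
  by_contra hc
  push Not at hc
  nlinarith

theorem fu_pos {x y : ι → ℝ} {A : ℝ} {pos : (ι → Bool) → Prop} (hp : IsSign y pos)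
    {b : ι → Bool} {l : ι} (hb : A < val x b)
    (hl : val x (flp b l) < A) (hl' : 0 < ht x y A b (flp b l)) (hpl : ¬ pos (flp b l)) :
    0 < y l / x l := by
  obtain ⟨h1, h0, h2, h3⟩ := active y hb hl
  rw [h2] at hl'
  have h5 : 0 < val y b - y l / x l * (val x b - A) :=
    pos_of_mul_pos_right hl' (by linarith)
  have h6 := hp.nonpos hpl
  rw [h3] at h6
  by_contra hc
  push Not at hc
  nlinarith

/-- coordinates of the end of a link -/
theorem link_coord {x : ι → ℝ} {A : ℝ} (hA : 0 < A) {b b' : ι → Bool} {j k : ι}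
    (hb : A < val x b) (hb' : A < val x b') (h : flp b' k = ng (flp b j)) :
    j ≠ k ∧ b' j = b j ∧ b' k = b k ∧ ∀ a, a ≠ j → a ≠ k → b' a = !(b a) := by
  have e : b' = flp (ng (flp b j)) k := by rw [← h, flp_flp]
  have hjk : j ≠ k := by
    rintro rfl
    rw [ng_flp, flp_flp] at e
    rw [e, val_ng] at hb'
    linarith
  refine ⟨hjk, ?_, ?_, fun a h1 h2 => ?_⟩
  · rw [e, flp_ne _ hjk]; simp [ng, flp_same]
  · rw [e, flp_same]; simp [ng, flp_ne b hjk.symm]
  · rw [e, flp_ne _ h2]; simp [ng, flp_ne b h1]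

/-- the labels with the wrong sign -/
noncomputable def Fs (x : ι → ℝ) (b : ι → Bool) : Finset ι := univ.filter fun a => x a * sg (b a) < 0

omit [DecidableEq ι] in
theorem mem_Fs {x : ι → ℝ} {b : ι → Bool} {a : ι} : a ∈ Fs x b ↔ x a * sg (b a) < 0 := by
  simp [Fs]

theorem link_Fs {x : ι → ℝ} (hx : ∀ a, x a ≠ 0) {b b' : ι → Bool} {j k : ι} (hjk : j ≠ k)
    (h1 : b' j = b j) (h2 : b' k = b k) (h3 : ∀ a, a ≠ j → a ≠ k → b' a = !(b a))
    (hj : 0 < x j * sg (b j)) (hk : 0 < x k * sg (b' k)) :
    (Fs x b).card + (Fs x b').card + 2 = Fintype.card ι := by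
  have hj1 : j ∉ Fs x b := by rw [mem_Fs]; linarith
  have hk1 : k ∉ Fs x b := by rw [mem_Fs, ← h2]; linarith
  have e : Fs x b' = (insert j (insert k (Fs x b)))ᶜ := by
    ext a
    rw [mem_compl, mem_insert, mem_insert, mem_Fs, mem_Fs]
    by_cases ha : a = j
    · subst ha
      rw [h1]
      constructor
      · intro h; linarith
      · intro h; exact absurd (Or.inl rfl) h
    · by_cases ha' : a = k
      · subst ha'
        constructor
        · intro h; linarith
        · intro h; exact absurd (Or.inr (Or.inl rfl)) h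
      · rw [h3 a ha ha', sg_not]
        have : x a * sg (b a) ≠ 0 := by
          refine mul_ne_zero (hx a) ?_
          cases b a <;> simp [sg]
        constructor
        · rintro h (h' | h' | h')
          · exact ha h'
          · exact ha' h'
          · linarith
        · intro h
          rw [not_or, not_or] at h
          have h4 := not_lt.1 h.2.2
          have h5 := lt_of_le_of_ne h4 this.symm
          linarith
  rw [e, card_compl, card_insert_of_notMem, card_insert_of_notMem hk1]
  · have h4 : (insert j (insert k (Fs x b))).card ≤ Fintype.card ι := card_le_univ _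
    rw [card_insert_of_notMem, card_insert_of_notMem hk1] at h4
    · omega
    · rw [mem_insert, not_or]; exact ⟨hjk, hj1⟩
  · rw [mem_insert, not_or]; exact ⟨hjk, hj1⟩

/-- the value after flipping all other labels -/
theorem val_le_of {x : ι → ℝ} {b b' : ι → Bool} {i : ι} (hb : ∀ a, 0 ≤ x a * sg (b a))
    (hi : b' i = !(b i)) : val x b' ≤ val x b - 2 * (x i * sg (b i)) := by
  have h1 : val x b' = x i * sg (b' i) + ∑ a ∈ univ.erase i, x a * sg (b' a) :=
    (Finset.add_sum_erase _ _ (mem_univ i)).symm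
  have h2 : val x b = x i * sg (b i) + ∑ a ∈ univ.erase i, x a * sg (b a) :=
    (Finset.add_sum_erase _ _ (mem_univ i)).symm
  have h3 : ∑ a ∈ univ.erase i, x a * sg (b' a) ≤ ∑ a ∈ univ.erase i, x a * sg (b a) := by
    refine Finset.sum_le_sum fun a _ => ?_
    have h := hb a
    by_cases hs : b' a = b a
    · rw [hs]
    · have : b' a = !(b a) := by revert hs; cases b' a <;> cases b a <;> simp
      rw [this, sg_not]; linarith
  rw [h1, h2, hi, sg_not]
  linarith

end

theorem four_all : ∀ i j k l : Fin 4, i ≠ j → k ≠ l → i ≠ k → i ≠ l → j ≠ k → j ≠ l →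
    ∀ a, a = i ∨ a = j ∨ a = k ∨ a = l := by decide

theorem eq_of_sign {x : ℝ} {s t : Bool} (h1 : 0 < x * sg s) (h2 : 0 < x * sg t) : s = t := by
  cases s <;> cases t <;> simp [sg] at h1 h2 ⊢ <;> linarith

theorem eq_of_sign' {x : ℝ} {s t : Bool} (h1 : x * sg s < 0) (h2 : x * sg t < 0) : s = t := by
  cases s <;> cases t <;> simp [sg] at h1 h2 ⊢ <;> linarith

theorem noBad4 (x y : Fin 4 → ℝ) {A : ℝ} (hA : 0 < A) {pos : (Fin 4 → Bool) → Prop}
    (hp : IsSign y pos) : NoBad x y A pos := by
  rintro bm ⟨b0, ⟨hb0, i, hi1, hi2, hi3⟩, hpath⟩ ⟨hbm, l, hl1, hl2, hl3⟩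
  have ti := fd_neg hp hb0 hi1 hi2 hi3
  have tl := fu_pos hp hbm hl1 hl2 hl3
  rcases hpath.cases_head with h | ⟨b1, h01, -⟩
  · subst h
    have := slope_lt hb0 hi1 hi2 hl1 hl2
    linarith
  rcases hpath.cases_tail with h | ⟨bz, -, hzm⟩
  · subst h
    have := slope_lt hb0 hi1 hi2 hl1 hl2
    linarith
  obtain ⟨-, -, j, -, hj1, hj2, hj3, -, -, -⟩ := h01
  obtain ⟨-, -, jz, k, -, -, hz3, hk1, hk2, hk3⟩ := hzm
  have tj := slope_lt hb0 hi1 hi2 hj1 hj2
  have tk := slope_lt hbm hk1 hk2 hl1 hl2
  have hij : i ≠ j := by rintro rfl; exact lt_irrefl _ tj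
  have hkl : k ≠ l := by rintro rfl; exact lt_irrefl _ tk
  have hik : i ≠ k := by rintro rfl; linarith
  have hil : i ≠ l := by rintro rfl; linarith
  have hjk : j ≠ k := by rintro rfl; linarith
  have hjl : j ≠ l := by rintro rfl; linarith
  have hall := four_all i j k l hij hkl hik hil hjk hjl
  have wi := (active y hb0 hi1).1
  have wj := (active y hb0 hj1).1
  have wk := (active y hbm hk1).1
  have wl := (active y hbm hl1).1
  have hx : ∀ a, x a ≠ 0 := by
    intro a h
    rcases hall a with e | e | e | e <;> subst e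
    · rw [h, zero_mul] at wi; exact lt_irrefl _ wi
    · rw [h, zero_mul] at wj; exact lt_irrefl _ wj
    · rw [h, zero_mul] at wk; exact lt_irrefl _ wk
    · rw [h, zero_mul] at wl; exact lt_irrefl _ wl
  have hcardlink : ∀ b b', Lk x y A pos b b' → (Fs x b).card + (Fs x b').card = 2 := by
    rintro b b' ⟨h1, h2, j', k', h3, -, -, h4, -, h5⟩
    obtain ⟨g1, g2, g3, g4⟩ := link_coord hA h1 h2 h5
    have := link_Fs hx g1 g2 g3 g4 (active y h1 h3).1 (active y h2 h4).1
    rw [Fintype.card_fin] at this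
    omega
  by_cases hN : (Fs x b0).card = 1
  · -- all have exactly one label with the wrong sign
    have hNm : (Fs x bm).card = 1 := by
      clear hi1 hi2 hi3 hj1 hj2 hj3 hl1 hl2 hl3 hk1 hk2 hk3 tj tk wi wj wk wl hz3 hbm
      induction hpath with
      | refl => exact hN
      | tail _ h ih => have := hcardlink _ _ h; omega
    obtain ⟨c, hc⟩ := Finset.card_eq_one.1 hN
    obtain ⟨f, hf⟩ := Finset.card_eq_one.1 hNm
    have hc1 : ∀ a, x a * sg (b0 a) < 0 ↔ a = c := fun a => by
      rw [← mem_Fs, hc, mem_singleton]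
    have hf1 : ∀ a, x a * sg (bm a) < 0 ↔ a = f := fun a => by
      rw [← mem_Fs, hf, mem_singleton]
    have hc2 : ∀ a, a ≠ c → 0 < x a * sg (b0 a) := fun a ha => by
      have h1 : ¬ x a * sg (b0 a) < 0 := fun h => ha ((hc1 a).1 h)
      refine lt_of_le_of_ne (not_lt.1 h1) (Ne.symm (mul_ne_zero (hx a) ?_))
      cases b0 a <;> simp [sg]
    have hf2 : ∀ a, a ≠ f → 0 < x a * sg (bm a) := fun a ha => by
      have h1 : ¬ x a * sg (bm a) < 0 := fun h => ha ((hf1 a).1 h)
      refine lt_of_le_of_ne (not_lt.1 h1) (Ne.symm (mul_ne_zero (hx a) ?_))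
      cases bm a <;> simp [sg]
    have hic : i ≠ c := fun h => by have := (hc1 i).2 h; linarith
    have hjc : j ≠ c := fun h => by have := (hc1 j).2 h; linarith
    have hkf : k ≠ f := fun h => by have := (hf1 k).2 h; linarith
    have hlf : l ≠ f := fun h => by have := (hf1 l).2 h; linarith
    have hfc : f ≠ c := by
      rcases hall f with e | e | e | e
      · rw [e]; exact hic
      · rw [e]; exact hjc
      · exact absurd e.symm hkf
      · exact absurd e.symm hlf
    have key : flp b0 f = flp bm c := by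
      funext a
      by_cases ha : a = f
      · subst ha
        rw [flp_same, flp_ne _ hfc]
        refine eq_of_sign' ?_ ((hf1 a).2 rfl)
        rw [sg_not]; have := hc2 a hfc; linarith
      · by_cases ha' : a = c
        · subst ha'
          rw [flp_same, flp_ne _ ha]
          refine eq_of_sign' ((hc1 a).2 rfl) ?_
          rw [sg_not]; have := hf2 a ha; linarith
        · rw [flp_ne _ ha, flp_ne _ ha']
          exact eq_of_sign (hc2 a ha') (hf2 a ha)
    have p1 : pos (flp b0 f) := by
      rcases hall f with e | e | e | e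
      · rw [e]; exact hi3
      · rw [e]; exact hj3
      · exact absurd e.symm hkf
      · exact absurd e.symm hlf
    have p2 : ¬ pos (flp bm c) := by
      rcases hall c with e | e | e | e
      · exact absurd e.symm hic
      · exact absurd e.symm hjc
      · rw [e, hk3]; exact fun h => (hp.2 _).1 h hz3
      · rw [e]; exact hl3
    rw [key] at p1
    exact p2 p1
  · -- the label `i` stays an under label
    have htrap : ∀ b, Relation.ReflTransGen (Lk x y A pos) b0 b →
        (Fs x b).card ≠ 1 ∧ A < val x b ∧ val x (flp b i) < A ∧ ht x y A b (flp b i) < 0 := by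
      intro b hb
      induction hb with
      | refl => exact ⟨hN, hb0, hi1, hi2⟩
      | @tail b b' _ h ih =>
        obtain ⟨q1, q2, q3, q4⟩ := ih
        have hc := hcardlink _ _ h
        obtain ⟨h1, h2, j', k', h3, h3', -, h4, h4', h5⟩ := h
        obtain ⟨g1, g2, g3, g4⟩ := link_coord hA h1 h2 h5
        refine ⟨by omega, h2, ?_⟩
        by_cases hki : k' = i
        · rw [← hki]; exact ⟨h4, h4'⟩
        · exfalso
          have hji : i ≠ j' := by
            rintro rfl; linarith
          have e1 : b' i = !(b i) := g4 i hji (Ne.symm hki)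
          have e2 := (active y q2 q3).1
          have e3 : i ∈ Fs x b' := by rw [mem_Fs, e1, sg_not]; linarith
          have e4 : 1 ≤ (Fs x b').card := Finset.card_pos.2 ⟨i, e3⟩
          have e5 : (Fs x b).card = 0 := by omega
          have e6 : ∀ a, 0 ≤ x a * sg (b a) := by
            intro a
            by_contra hneg
            push Not at hneg
            have : a ∈ Fs x b := mem_Fs.2 hneg
            rw [Finset.card_eq_zero.1 e5] at this
            exact absurd this (Finset.notMem_empty a)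
          have e7 := val_le_of e6 e1
          have e8 := (active y q2 q3).2.1
          linarith
    obtain ⟨-, q2, q3, q4⟩ := htrap bm hpath
    have := slope_lt hbm q3 q4 hl1 hl2
    linarith

theorem noBad3 {ι : Type} [Fintype ι] [DecidableEq ι] (hι : Fintype.card ι ≤ 3) (x y : ι → ℝ)
    {A : ℝ} {pos : (ι → Bool) → Prop} (hp : IsSign y pos) : NoBad x y A pos := by
  rintro bm ⟨b0, ⟨hb0, i, hi1, hi2, hi3⟩, hpath⟩ ⟨hbm, l, hl1, hl2, hl3⟩
  have ti := fd_neg hp hb0 hi1 hi2 hi3
  have tl := fu_pos hp hbm hl1 hl2 hl3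
  rcases hpath.cases_head with h | ⟨b1, h01, -⟩
  · subst h
    have := slope_lt hb0 hi1 hi2 hl1 hl2
    linarith
  rcases hpath.cases_tail with h | ⟨bz, -, hzm⟩
  · subst h
    have := slope_lt hb0 hi1 hi2 hl1 hl2
    linarith
  obtain ⟨-, -, j, -, hj1, hj2, hj3, -, -, -⟩ := h01
  obtain ⟨-, -, jz, k, -, -, hz3, hk1, hk2, hk3⟩ := hzm
  have tj := slope_lt hb0 hi1 hi2 hj1 hj2
  have tk := slope_lt hbm hk1 hk2 hl1 hl2
  have hij : i ≠ j := by rintro rfl; exact lt_irrefl _ tj
  have hkl : k ≠ l := by rintro rfl; exact lt_irrefl _ tk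
  have hik : i ≠ k := by rintro rfl; linarith
  have hil : i ≠ l := by rintro rfl; linarith
  have hjk : j ≠ k := by rintro rfl; linarith
  have hjl : j ≠ l := by rintro rfl; linarith
  have h4 : ({i, j, k, l} : Finset ι).card = 4 := by
    rw [Finset.card_insert_of_notMem, Finset.card_insert_of_notMem, Finset.card_insert_of_notMem,
      Finset.card_singleton]
    · simpa using hkl
    · simp [hjk, hjl]
    · simp [hij, hik, hil]
  have h5 := Finset.card_le_univ ({i, j, k, l} : Finset ι)
  omega

theorem g1_le4 {k : ℕ} (hk1 : 1 ≤ k) (hk : k ≤ 4) : G1 k := by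
  intro x y A hA hx
  have hp := isSign_ps y (⟨0, hk1⟩ : Fin k)
  have hno : NoBad x y A (ps y (⟨0, hk1⟩ : Fin k)) := by
    rcases Nat.lt_or_ge k 4 with h | h
    · exact noBad3 (by rw [Fintype.card_fin]; omega) x y hp
    · obtain rfl : k = 4 := by omega
      exact noBad4 x y hA hp
  obtain ⟨C, D, h1, h2⟩ := contraction x y hA hx hp hno
  rw [Fintype.card_fin] at h1
  exact ⟨C, D, h1, h2⟩

/-- at most five labels -/
theorem r1_le5 {n : ℕ} (h2 : 2 ≤ n) (h5 : n ≤ 5) : R1 n (2 ^ (n - 2)) := by
  obtain ⟨k, rfl⟩ : ∃ k, n = k + 1 := ⟨n - 1, by omega⟩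
  have := r1_of_g1 (k := k) (by omega) (g1_le4 (by omega) (by omega))
  have e : k + 1 - 2 = k - 1 := by omega
  rwa [e]

end C1E
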