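import Pool.Agent.C1E.Five

/-!
# Fractional colourings
-/

namespace C1E

open Finset MeasureTheory Module

/-- Fractional colouring: sets without separated pairs, with weights, such that every point gets
weight at least one and the total weight is at most `N`. -/
def Frac {ι : Type} (sep : ι → ι → Prop) (N : ℝ) : Prop :=
  ∃ (Ω : Type) (_ : Fintype Ω) (w : Ω → ℝ) (I : Ω → Set ι), (∀ o, 0 ≤ w o) ∧
    (∀ o, ∀ i ∈ I o, ∀ l ∈ I o, ¬ sep i l) ∧
    (∀ i, 1 ≤ ∑ o, (I o).indicator (fun _ => w o) i) ∧ ∑ o, w o ≤ N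

theorem Frac.mono {ι : Type} {sep sep' : ι → ι → Prop} {N N' : ℝ} (h : Frac sep' N)
    (hs : ∀ i l, sep i l → sep' i l) (hN : N ≤ N') : Frac sep N' := by
  obtain ⟨Ω, hΩ, w, I, h1, h2, h3, h4⟩ := h
  exact ⟨Ω, hΩ, w, I, h1, fun o i hi l hl h => h2 o i hi l hl (hs i l h), h3, h4.trans hN⟩

/-- both orders may be separated -/
theorem Frac.symm {ι : Type} {sep : ι → ι → Prop} {N : ℝ} (h : Frac sep N) :
    Frac (fun i l => sep i l ∨ sep l i) N := by
  obtain ⟨Ω, hΩ, w, I, h1, h2, h3, h4⟩ := h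
  refine ⟨Ω, hΩ, w, I, h1, fun o i hi l hl h => ?_, h3, h4⟩
  rcases h with h | h
  · exact h2 o i hi l hl h
  · exact h2 o l hl i hi h

theorem Frac.pi {ι : Type} {s : ℕ} {sep : Fin s → ι → ι → Prop} {N : Fin s → ℝ}
    (h : ∀ j, Frac (sep j) (N j)) : Frac (fun i l => ∃ j, sep j i l) (∏ j, N j) := by
  classical
  choose Ω hΩ w I h1 h2 h3 h4 using h
  refine ⟨(j : Fin s) → Ω j, inferInstance, fun o => ∏ j, w j (o j), fun o => {i | ∀ j, i ∈ I j (o j)},
    fun o => Finset.prod_nonneg fun j _ => h1 j (o j), ?_, ?_, ?_⟩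
  · rintro o i hi l hl ⟨j, hj⟩
    exact h2 j (o j) i (hi j) l (hl j) hj
  · intro i
    have e : ∑ o : (j : Fin s) → Ω j, ({i | ∀ j, i ∈ I j (o j)} : Set ι).indicator
        (fun _ => ∏ j, w j (o j)) i = ∏ j, ∑ o : Ω j, (I j o).indicator (fun _ => w j o) i := by
      rw [Finset.prod_univ_sum, Fintype.piFinset_univ]
      refine Finset.sum_congr rfl fun o _ => ?_
      by_cases hi : ∀ j, i ∈ I j (o j)
      · rw [Set.indicator_of_mem (show i ∈ ({i | ∀ j, i ∈ I j (o j)} : Set ι) from hi)]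
        refine Finset.prod_congr rfl fun j _ => ?_
        rw [Set.indicator_of_mem (hi j)]
      · rw [Set.indicator_of_notMem (show i ∉ ({i | ∀ j, i ∈ I j (o j)} : Set ι) from hi)]
        push Not at hi
        obtain ⟨j, hj⟩ := hi
        refine (Finset.prod_eq_zero (mem_univ j) ?_).symm
        rw [Set.indicator_of_notMem hj]
    rw [e]
    calc (1 : ℝ) = ∏ _j : Fin s, 1 := by simp
      _ ≤ _ := Finset.prod_le_prod (fun _ _ => zero_le_one) fun j _ => h3 j i
  · have e : ∑ o : (j : Fin s) → Ω j, ∏ j, w j (o j) = ∏ j, ∑ o : Ω j, w j o := by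
      rw [Finset.prod_univ_sum, Fintype.piFinset_univ]
    rw [e]
    exact Finset.prod_le_prod (fun j _ => Finset.sum_nonneg fun o _ => h1 j o) fun j _ => h4 j

theorem Frac.or {ι : Type} {sep sep' : ι → ι → Prop} {N N' : ℝ} (h : Frac sep N)
    (h' : Frac sep' N') : Frac (fun i l => sep i l ∨ sep' i l) (N * N') := by
  have h2 : ∀ j : Fin 2, Frac ((![sep, sep'] : Fin 2 → ι → ι → Prop) j)
      ((![N, N'] : Fin 2 → ℝ) j) := by
    intro j
    fin_cases j
    · exact h
    · exact h'
  refine (Frac.pi h2).mono ?_ ?_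
  · rintro i l (h | h)
    · exact ⟨0, h⟩
    · exact ⟨1, h⟩
  · simp [Fin.prod_univ_two]

/-- a colouring is a fractional colouring -/
theorem frac_of_col {ι κ : Type} [Fintype κ] {sep : ι → ι → Prop} (col : ι → κ)
    (h : ∀ i l, sep i l → col i ≠ col l) : Frac sep (Fintype.card κ) := by
  classical
  refine ⟨κ, inferInstance, fun _ => 1, fun k => {i | col i = k}, fun _ => zero_le_one, ?_, ?_, ?_⟩
  · intro k i hi l hl hs
    exact h i l hs (hi.trans hl.symm)
  · intro i
    have h1 : ({j | col j = col i} : Set ι).indicator (fun _ => (1 : ℝ)) i ≤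
        ∑ k, ({j | col j = k} : Set ι).indicator (fun _ => (1 : ℝ)) i :=
      Finset.single_le_sum (f := fun k => ({j | col j = k} : Set ι).indicator (fun _ => (1 : ℝ)) i)
        (fun k _ => Set.indicator_nonneg (fun _ _ => zero_le_one) i) (mem_univ (col i))
    rwa [Set.indicator_of_mem (show i ∈ ({j | col j = col i} : Set ι) from rfl)] at h1
  · simp

/-- hitting sets -/
theorem frac_of_hit {ι κ : Type} {sep : ι → ι → Prop} (C : Finset κ) (P : ι → κ → Prop)
    (h1 : ∀ i, ∃ s ∈ C, P i s) (h2 : ∀ i l s, P i s → P l s → ¬ sep i l) {N : ℕ}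
    (hN : C.card ≤ N) : Frac sep N := by
  classical
  refine ⟨{s // s ∈ C}, inferInstance, fun _ => 1, fun s => {i | P i s.1}, fun _ => zero_le_one,
    fun s i hi l hl => h2 i l s.1 hi hl, ?_, ?_⟩
  · intro i
    obtain ⟨s, hs, hP⟩ := h1 i
    have h3 := Finset.single_le_sum
      (f := fun k : {s // s ∈ C} => ({j | P j k.1} : Set ι).indicator (fun _ => (1 : ℝ)) i)
      (fun k _ => Set.indicator_nonneg (fun _ _ => zero_le_one) i) (mem_univ ⟨s, hs⟩)
    rwa [Set.indicator_of_mem (show i ∈ ({j | P j s} : Set ι) from hP)] at h3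
  · simp only [Finset.sum_const, Finset.card_univ, Fintype.card_coe, nsmul_eq_mul, mul_one]
    exact_mod_cast hN

/-- a family all of whose classes have at most `M` members -/
theorem Frac.card_le {ι : Type} [Fintype ι] {sep : ι → ι → Prop} {N : ℝ} (h : Frac sep N)
    {M : ℕ} (hM : ∀ S : Finset ι, (∀ i ∈ S, ∀ l ∈ S, ¬ sep i l) → S.card ≤ M) :
    (Fintype.card ι : ℝ) ≤ M * N := by
  classical
  obtain ⟨Ω, hΩ, w, I, h1, h2, h3, h4⟩ := h
  calc (Fintype.card ι : ℝ) = ∑ _i : ι, (1 : ℝ) := by simp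
    _ ≤ ∑ i : ι, ∑ o, (I o).indicator (fun _ => w o) i := Finset.sum_le_sum fun i _ => h3 i
    _ = ∑ o, ∑ i : ι, (I o).indicator (fun _ => w o) i := Finset.sum_comm
    _ ≤ ∑ o, M * w o := by
        refine Finset.sum_le_sum fun o _ => ?_
        have e : ∑ i : ι, (I o).indicator (fun _ => w o) i =
            ((univ.filter fun i => i ∈ I o).card : ℝ) * w o := by
          rw [← nsmul_eq_mul, ← Finset.sum_const, Finset.sum_filter]
          refine Finset.sum_congr rfl fun i _ => ?_
          simp [Set.indicator]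
        rw [e]
        refine mul_le_mul_of_nonneg_right ?_ (h1 o)
        have := hM (univ.filter fun i => i ∈ I o) fun i hi l hl =>
          h2 o i (mem_filter.1 hi).2 l (mem_filter.1 hl).2
        exact_mod_cast this
    _ = M * ∑ o, w o := by rw [Finset.mul_sum]
    _ ≤ M * N := mul_le_mul_of_nonneg_left h4 (Nat.cast_nonneg M)

/-- the volume argument -/
theorem frac_volume {ι E : Type} [Fintype ι] [NormedAddCommGroup E] [NormedSpace ℝ E]
    [FiniteDimensional ℝ E] (p : ι → E) (hp : ∀ i, ‖p i‖ ≤ 1) :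
    Frac (fun i l => 2 ≤ ‖p i - p l‖) (2 ^ finrank ℝ E) := by
  classical
  borelize E
  let μ : Measure E := Measure.addHaar
  set β : ℝ := μ.real (Metric.ball (0 : E) 1) with hβ
  have hβpos : 0 < β := by
    rw [hβ, Measure.real, ENNReal.toReal_pos_iff]
    exact ⟨Metric.measure_ball_pos μ 0 one_pos, measure_ball_lt_top⟩
  set A : Finset ι → Set E := fun J => {q | ∀ i, i ∈ J ↔ ‖q - p i‖ < 1} with hA
  have hAm : ∀ J, MeasurableSet (A J) := by
    intro J
    have : A J = ⋂ i, {q | i ∈ J ↔ ‖q - p i‖ < 1} := by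
      ext q; simp [hA]
    rw [this]
    refine MeasurableSet.iInter fun i => ?_
    by_cases hi : i ∈ J
    · simp only [hi, true_iff]
      exact measurableSet_lt (by fun_prop) measurable_const
    · simp only [hi, false_iff, not_lt]
      exact measurableSet_le measurable_const (by fun_prop)
  have hAd : ∀ J J', J ≠ J' → Disjoint (A J) (A J') := by
    intro J J' hne
    rw [Set.disjoint_left]
    intro q h1 h2
    apply hne
    ext i
    exact (h1 i).trans (h2 i).symm
  set S : Finset (Finset ι) := univ.filter fun J => J ≠ ∅ ∧ (A J).Nonempty with hS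
  have hball : ∀ J, J ≠ ∅ → A J ⊆ Metric.ball (0 : E) 2 := by
    intro J hJ q hq
    obtain ⟨i, hi⟩ := Finset.nonempty_iff_ne_empty.2 hJ
    have h1 := (hq i).1 hi
    have h2 := hp i
    have h3 : ‖q‖ ≤ ‖q - p i‖ + ‖p i‖ := by
      have := norm_add_le (q - p i) (p i)
      rwa [sub_add_cancel] at this
    rw [Metric.mem_ball, dist_zero_right]
    linarith
  have hfin : ∀ J, J ≠ ∅ → μ (A J) ≠ ⊤ := fun J hJ =>
    (lt_of_le_of_lt (measure_mono (hball J hJ)) measure_ball_lt_top).ne
  refine ⟨{J // J ∈ S}, inferInstance, fun J => μ.real (A J.1) / β, fun J => {i | i ∈ J.1},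
    fun J => div_nonneg measureReal_nonneg hβpos.le, ?_, ?_, ?_⟩
  · rintro ⟨J, hJ⟩ i hi l hl hs
    obtain ⟨q, hq⟩ := (mem_filter.1 hJ).2.2
    have h1 := (hq i).1 hi
    have h2 := (hq l).1 hl
    have h3 : ‖p i - p l‖ ≤ ‖q - p i‖ + ‖q - p l‖ := by
      have := norm_sub_le (q - p l) (q - p i)
      have e : q - p l - (q - p i) = p i - p l := by abel
      rw [e] at this
      linarith
    linarith
  · intro i
    have e1 : ∑ J : {J // J ∈ S}, ({i | i ∈ J.1} : Set ι).indicator
        (fun _ => μ.real (A J.1) / β) i = ∑ J ∈ S.filter fun J => i ∈ J, μ.real (A J) / β := by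
      rw [Finset.sum_filter, ← Finset.sum_coe_sort S]
      refine Finset.sum_congr rfl fun J _ => ?_
      simp [Set.indicator]
    have e2 : Metric.ball (p i) 1 = ⋃ J ∈ S.filter fun J => i ∈ J, A J := by
      ext q
      simp only [Set.mem_iUnion, mem_filter, Metric.mem_ball, dist_eq_norm, hS, mem_univ, true_and]
      constructor
      · intro hq
        set J : Finset ι := univ.filter fun l => ‖q - p l‖ < 1 with hJ
        have h1 : q ∈ A J := fun l => by simp [hJ]
        have h2 : i ∈ J := by simp [hJ, hq]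
        exact ⟨J, ⟨⟨Finset.ne_empty_of_mem h2, ⟨q, h1⟩⟩, h2⟩, h1⟩
      · rintro ⟨J, ⟨_, h2⟩, h3⟩
        exact (h3 i).1 h2
    have e3 : μ.real (Metric.ball (p i) 1) = ∑ J ∈ S.filter fun J => i ∈ J, μ.real (A J) := by
      rw [e2]
      refine measureReal_biUnion_finset (fun J _ J' _ hne => hAd J J' hne) (fun J _ => hAm J)
        (fun J hJ => ?_)
      exact hfin J (mem_filter.1 (mem_filter.1 hJ).1).2.1
    have e4 : μ.real (Metric.ball (p i) 1) = β := by
      rw [hβ, Measure.real, Measure.real, Measure.addHaar_ball_center]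
    rw [e1, ← Finset.sum_div, ← e3, e4, div_self hβpos.ne']
  · have e1 : ∑ J : {J // J ∈ S}, μ.real (A J.1) / β = (∑ J ∈ S, μ.real (A J)) / β := by
      rw [Finset.sum_div, ← Finset.sum_coe_sort S]
    have e2 : ∑ J ∈ S, μ.real (A J) = μ.real (⋃ J ∈ S, A J) := by
      refine (measureReal_biUnion_finset (fun J _ J' _ hne => hAd J J' hne) (fun J _ => hAm J)
        (fun J hJ => ?_)).symm
      exact hfin J (mem_filter.1 hJ).2.1
    have e3 : μ.real (⋃ J ∈ S, A J) ≤ μ.real (Metric.ball (0 : E) 2) := by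
      refine measureReal_mono (Set.iUnion₂_subset fun J hJ => hball J (mem_filter.1 hJ).2.1) ?_
      exact measure_ball_lt_top.ne
    have e4 : μ.real (Metric.ball (0 : E) 2) = 2 ^ finrank ℝ E * β := by
      rw [hβ, Measure.real, Measure.real]
      have h2 : (2 : ℝ) = 2 * 1 := by ring
      have h3 := Measure.addHaar_ball_mul_of_pos μ (0 : E) (by norm_num : (0 : ℝ) < 2) 1
      rw [mul_one] at h3
      rw [h3, ENNReal.toReal_mul, ENNReal.toReal_ofReal (by positivity)]
    rw [e1, e2, div_le_iff₀ hβpos]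
    linarith

end C1E
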