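import Mathlib

/-!
# König's theorem for finite bipartite graphs
-/

namespace C1E

open Finset

/-- if every matching has at most `N` edges then there is a vertex cover of size at most `N` -/
theorem konig {α β : Type} [Fintype α] [DecidableEq α] [Fintype β] [DecidableEq β]
    (r : α → β → Prop) (N : ℕ)
    (h : ∀ M : Finset (α × β), (∀ p ∈ M, r p.1 p.2) →
      (∀ p ∈ M, ∀ q ∈ M, p.1 = q.1 → p = q) → (∀ p ∈ M, ∀ q ∈ M, p.2 = q.2 → p = q) →
      M.card ≤ N) :
    ∃ (C : Finset α) (D : Finset β), (∀ a b, r a b → a ∈ C ∨ b ∈ D) ∧ C.card + D.card ≤ N := by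
  classical
  by_contra hcon
  push Not at hcon
  set nb : Finset α → Finset β := fun S => univ.filter fun b => ∃ a ∈ S, r a b with hnb
  -- covers of the standard form
  have hS : ∀ S : Finset α, N + 1 + S.card ≤ Fintype.card α + (nb S).card := by
    intro S
    have h1 := hcon (univ \ S) (nb S) (fun a b hab => by
      by_cases ha : a ∈ S
      · right; simp only [hnb, mem_filter, mem_univ, true_and]; exact ⟨a, ha, hab⟩
      · left; simp [ha])
    have h2 := card_sdiff_add_card_eq_card (subset_univ S)
    rw [card_univ] at h2
    omega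
  have h0 := hS ∅
  have h0' : (nb ∅).card = 0 := by simp [hnb]
  rw [card_empty, h0'] at h0
  set d := Fintype.card α - (N + 1) with hd
  set t : α → Finset (β ⊕ Fin d) := fun a =>
    ((univ.filter fun b => r a b).image Sum.inl) ∪ (univ.image Sum.inr) with ht
  have hall : ∀ S : Finset α, S.card ≤ (S.biUnion t).card := by
    intro S
    rcases S.eq_empty_or_nonempty with rfl | ⟨a₀, ha₀⟩
    · simp
    · have h1 : (nb S).image Sum.inl ∪ (univ : Finset (Fin d)).image Sum.inr ⊆ S.biUnion t := by
        intro p hp
        rcases mem_union.1 hp with hp | hp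
        · obtain ⟨b, hb, rfl⟩ := mem_image.1 hp
          simp only [hnb, mem_filter, mem_univ, true_and] at hb
          obtain ⟨a, ha, hab⟩ := hb
          refine mem_biUnion.2 ⟨a, ha, mem_union_left _ (mem_image.2 ⟨b, ?_, rfl⟩)⟩
          simp [hab]
        · exact mem_biUnion.2 ⟨a₀, ha₀, mem_union_right _ hp⟩
      have h2 := card_le_card h1
      have h3 : Disjoint ((nb S).image (Sum.inl : β → β ⊕ Fin d))
          ((univ : Finset (Fin d)).image Sum.inr) := by
        rw [disjoint_left]
        intro p hp hp'
        obtain ⟨b, _, rfl⟩ := mem_image.1 hp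
        obtain ⟨i, _, hi⟩ := mem_image.1 hp'
        exact Sum.inr_ne_inl hi
      rw [card_union_of_disjoint h3, card_image_of_injective _ Sum.inl_injective,
        card_image_of_injective _ Sum.inr_injective, card_univ, Fintype.card_fin] at h2
      have := hS S
      omega
  obtain ⟨f, hf, hft⟩ := (all_card_le_biUnion_card_iff_exists_injective t).1 hall
  set M : Finset (α × β) := univ.filter fun p => f p.1 = Sum.inl p.2 with hM
  have hcard : Fintype.card α ≤ M.card + d := by
    have h1 : (univ : Finset α).card ≤ (M.disjSum (univ : Finset (Fin d))).card := by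
      refine card_le_card_of_injOn
        (fun a => Sum.elim (fun b => (Sum.inl (a, b) : (α × β) ⊕ Fin d)) (fun i => Sum.inr i)
          (f a)) (fun a _ => ?_) (fun a _ a' _ haa => ?_)
      · rcases hfa : f a with b | i
        · simp [hM, hfa]
        · simp [hfa]
      · rcases hfa : f a with b | i <;> rcases hfa' : f a' with b' | i' <;>
          simp only [hfa, hfa', Sum.elim_inl, Sum.elim_inr, Sum.inl.injEq, Prod.mk.injEq,
            Sum.inr.injEq, reduceCtorEq] at haa
        · exact haa.1
        · subst haa
          exact hf (hfa.trans hfa'.symm)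
    rw [card_disjSum, card_univ, card_univ, Fintype.card_fin] at h1
    exact h1
  have hMle := h M (fun p hp => by
      have hp' : f p.1 = Sum.inl p.2 := by simpa [hM] using hp
      have := hft p.1
      rw [hp'] at this
      simpa [ht] using this)
    (fun p hp q hq hpq => by
      have hp' : f p.1 = Sum.inl p.2 := by simpa [hM] using hp
      have hq' : f q.1 = Sum.inl q.2 := by simpa [hM] using hq
      rw [← hpq, hp'] at hq'
      exact Prod.ext hpq (Sum.inl_injective hq'))
    (fun p hp q hq hpq => by
      have hp' : f p.1 = Sum.inl p.2 := by simpa [hM] using hp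
      have hq' : f q.1 = Sum.inl q.2 := by simpa [hM] using hq
      rw [← hpq, ← hp'] at hq'
      exact Prod.ext (hf hq'.symm) hpq)
  omega

end C1E
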