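import Pool.Agent.C1E.Five

/-!
# Sorted labels with `x ≥ 0`: a propositional model
-/

namespace C1E

open Finset

/-- what is used of a system with labels sorted by slope, the first `p` ones having `y ≤ 0` and the
other ones `y ≥ 0` -/
structure Mod {k : ℕ} (p : ℕ) (R S P : (Fin k → Bool) → Prop) (U D : Fin k → (Fin k → Bool) → Prop) :
    Prop where
  rs : ∀ s, R s → S s → False
  rup : ∀ s a, R (Function.update s a false) → R (Function.update s a true)
  sdn : ∀ s a, S (Function.update s a true) → S (Function.update s a false)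
  rr : ∀ s t, (∀ i j, s i = true → t i = true → s j = true → t j = true → i = j) →
    R s → R t → False
  ud : ∀ a s, U a s → D a s → False
  ui : ∀ a s c, U a (Function.update s a c) ↔ U a s
  di : ∀ a s c, D a (Function.update s a c) ↔ D a s
  um : ∀ a c s, a < c → U a (Function.update s c false) → U a (Function.update s c true)
  um' : ∀ a c s, c < a → U a (Function.update s c true) → U a (Function.update s c false)
  dm : ∀ a c s, a < c → D a (Function.update s c true) → D a (Function.update s c false)
  dm' : ∀ a c s, c < a → D a (Function.update s c false) → D a (Function.update s c true)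
  pm : ∀ a s, p ≤ a.val → P (Function.update s a false) → P (Function.update s a true)
  pm' : ∀ a s, a.val < p → P (Function.update s a true) → P (Function.update s a false)
  pa : ∀ s, P (ng s) ↔ ¬ P s
  cru : ∀ a c s, a < c → R s → U c s → U a s
  crd : ∀ a c s, a < c → R s → D a s → D c s
  csu : ∀ a c s, a < c → S s → U a s → U c s
  csd : ∀ a c s, a < c → S s → D c s → D a s
  sp : ∀ a s, a.val < p → S s → U a s → P s
  sp' : ∀ a s, p ≤ a.val → S s → D a s → P s → False

theorem sg_add_le {s t : Bool} (h : ¬ (s = true ∧ t = true)) : sg s + sg t ≤ 0 := by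
  cases s <;> cases t <;> simp [sg] at h ⊢

/-- order of directions -/
def Od (x1 y1 x2 y2 : ℝ) : Prop :=
  0 ≤ x1 * y2 - y1 * x2 ∧ (x1 = 0 → 0 < y1 → x2 = 0 ∧ 0 < y2) ∧ (x2 = 0 → y2 < 0 → x1 = 0 ∧ y1 < 0)

theorem Od.neg {x1 y1 x2 y2 : ℝ} (h : Od x1 y1 x2 y2) : Od x2 (-y2) x1 (-y1) := by
  obtain ⟨h1, h2, h3⟩ := h
  refine ⟨by nlinarith, fun e1 e2 => ?_, fun e1 e2 => ?_⟩
  · obtain ⟨g1, g2⟩ := h3 e1 (by linarith)
    exact ⟨g1, by linarith⟩
  · obtain ⟨g1, g2⟩ := h2 e1 (by linarith)
    exact ⟨g1, by linarith⟩

theorem Od.chain {x1 y1 x2 y2 X Y : ℝ} (h : Od x1 y1 x2 y2) (h1 : 0 ≤ x1) (h2 : 0 ≤ x2)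
    (hn1 : x1 ≠ 0 ∨ y1 ≠ 0) (hX : 0 < X) (h3 : 0 < x2 * Y - y2 * X) : 0 < x1 * Y - y1 * X := by
  obtain ⟨g1, g2, g3⟩ := h
  rcases h2.eq_or_lt with e | e
  · rw [← e] at h3
    have h4 : y2 < 0 := by
      by_contra hc
      push Not at hc
      nlinarith
    obtain ⟨g4, g5⟩ := g3 e.symm h4
    rw [g4]
    nlinarith
  · rcases h1.eq_or_lt with e' | e'
    · rw [← e'] at g1 ⊢
      have h5 : y1 ≤ 0 := by
        by_contra hc
        push Not at hc
        nlinarith
      have h6 : y1 ≠ 0 := by
        rcases hn1 with h | h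
        · exact absurd e'.symm h
        · exact h
      have h7 : y1 < 0 := lt_of_le_of_ne h5 h6
      nlinarith
    · have h5 : 0 < x2 * (x1 * Y - y1 * X) := by
        have : x2 * (x1 * Y - y1 * X) = x1 * (x2 * Y - y2 * X) + X * (x1 * y2 - y1 * x2) := by
          ring
        rw [this]
        have := mul_pos e' h3
        have := mul_nonneg hX.le g1
        linarith
      exact pos_of_mul_pos_right h5 h2

/-- the slope, as a number in `[-1, 1]` -/
noncomputable def kap (x y : ℝ) : ℝ := y / (x + |y|)

theorem kap_neg (x y : ℝ) : kap x (-y) = - kap x y := by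
  unfold kap; rw [abs_neg]; ring

theorem kap_zero : kap 0 0 = 0 := by simp [kap]

theorem kap_nonneg {x y : ℝ} (hx : 0 ≤ x) : 0 ≤ kap x y ↔ 0 ≤ y := by
  unfold kap
  constructor
  · intro h
    by_contra hc
    push Not at hc
    have h1 : 0 < x + |y| := by have := abs_pos.2 hc.ne; linarith
    have := div_neg_of_neg_of_pos hc h1
    linarith
  · intro h
    exact div_nonneg h (by have := abs_nonneg y; linarith)

theorem kap_nonpos {x y : ℝ} (hx : 0 ≤ x) : kap x y ≤ 0 ↔ y ≤ 0 := by
  have := kap_nonneg (y := -y) hx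
  rw [kap_neg] at this
  constructor
  · intro h; have := this.1 (by linarith); linarith
  · intro h; have := this.2 (by linarith); linarith

theorem od_of_kap {x1 y1 x2 y2 : ℝ} (h1 : 0 ≤ x1) (h2 : 0 ≤ x2) (h : kap x1 y1 ≤ kap x2 y2) :
    Od x1 y1 x2 y2 := by
  have hA : ∀ {x1 y1 x2 y2 : ℝ}, 0 ≤ x1 → 0 ≤ x2 → kap x1 y1 ≤ kap x2 y2 → x1 = 0 → 0 < y1 →
      x2 = 0 ∧ 0 < y2 := by
    intro x1 y1 x2 y2 h1 h2 h e1 e2
    have e3 : kap x1 y1 = 1 := by
      unfold kap; rw [e1, abs_of_pos e2, zero_add, div_self e2.ne']
    rw [e3] at h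
    have h4 : 0 < y2 := by
      by_contra hc
      have := (kap_nonpos (y := y2) h2).2 (not_lt.1 hc)
      linarith
    refine ⟨?_, h4⟩
    unfold kap at h
    rw [abs_of_pos h4, le_div_iff₀ (by linarith)] at h
    linarith
  refine ⟨?_, hA h1 h2 h, fun e1 e2 => ?_⟩
  · rcases le_or_gt 0 y1 with a1 | a1
    · have a2 : 0 ≤ y2 := by
        rw [← kap_nonneg h2]
        exact ((kap_nonneg h1).2 a1).trans h
      rcases a1.eq_or_lt with a3 | a3
      · rw [← a3, zero_mul, sub_zero]; exact mul_nonneg h1 a2
      · have a4 : 0 < kap x1 y1 := by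
          unfold kap
          exact div_pos a3 (by have := abs_pos.2 a3.ne'; linarith)
        have a5 : 0 < y2 := by
          by_contra hc
          have := (kap_nonpos (y := y2) h2).2 (not_lt.1 hc)
          linarith
        unfold kap at h
        rw [abs_of_pos a3, abs_of_pos a5, div_le_div_iff₀ (by linarith) (by linarith)] at h
        nlinarith
    · rcases le_or_gt 0 y2 with a2 | a2
      · nlinarith [mul_nonneg h1 a2, mul_nonneg h2 (by linarith : (0 : ℝ) ≤ -y1)]
      · unfold kap at h
        rw [abs_of_neg a1, abs_of_neg a2, div_le_div_iff₀ (by linarith) (by linarith)] at h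
        nlinarith
  · obtain ⟨g1, g2⟩ := hA (x1 := x2) (y1 := -y2) (x2 := x1) (y2 := -y1) h2 h1
      (by rw [kap_neg, kap_neg]; linarith) e1 (by linarith)
    exact ⟨g1, by linarith⟩

section

variable {k : ℕ}

theorem val_update (x : Fin k → ℝ) (s : Fin k → Bool) (a : Fin k) (c : Bool) :
    val x (Function.update s a c) = val x s + x a * (sg c - sg (s a)) := by
  have h1 : val x s = x a * sg (s a) + ∑ b ∈ univ.erase a, x b * sg (s b) :=
    (Finset.add_sum_erase _ _ (mem_univ a)).symm
  have h2 : val x (Function.update s a c) = x a * sg (Function.update s a c a) +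
      ∑ b ∈ univ.erase a, x b * sg (Function.update s a c b) :=
    (Finset.add_sum_erase _ _ (mem_univ a)).symm
  have h3 : ∑ b ∈ univ.erase a, x b * sg (Function.update s a c b) =
      ∑ b ∈ univ.erase a, x b * sg (s b) := by
    refine Finset.sum_congr rfl fun b hb => ?_
    rw [Function.update_of_ne (Finset.ne_of_mem_erase hb)]
  rw [h2, h3, h1, Function.update_self]
  ring

theorem val_up (x : Fin k → ℝ) (s : Fin k → Bool) (a : Fin k) :
    val x (Function.update s a true) = val x (Function.update s a false) + 2 * x a := by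
  rw [val_update, val_update, sg_true, sg_false]; ring

/-- the first coordinate of the direction of the label `a` -/
noncomputable def xd (x y : Fin k → ℝ) (a : Fin k) : ℝ := if x a = 0 ∧ y a = 0 then 1 else x a

/-- position of the vertex `s` with respect to the line of slope `a` through `(A, 0)` -/
noncomputable def Lf (x y : Fin k → ℝ) (A : ℝ) (a : Fin k) (s : Fin k → Bool) : ℝ :=
  xd x y a * val y s - y a * (val x s - A)

theorem xd_nonneg {x y : Fin k → ℝ} (hx : ∀ a, 0 ≤ x a) (a : Fin k) : 0 ≤ xd x y a := by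
  unfold xd; split_ifs
  · exact zero_le_one
  · exact hx a

theorem xd_ne {x y : Fin k → ℝ} (a : Fin k) : xd x y a ≠ 0 ∨ y a ≠ 0 := by
  unfold xd; split_ifs with h
  · left; exact one_ne_zero
  · exact Classical.not_and_iff_not_or_not.1 h

theorem kap_xd (x y : Fin k → ℝ) (a : Fin k) : kap (xd x y a) (y a) = kap (x a) (y a) := by
  unfold xd; split_ifs with h
  · rw [h.1, h.2]; simp [kap]
  · rfl

theorem Lf_up (x y : Fin k → ℝ) (A : ℝ) (a c : Fin k) (s : Fin k → Bool) :
    Lf x y A a (Function.update s c true) = Lf x y A a (Function.update s c false) +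
      2 * (xd x y a * y c - y a * x c) := by
  unfold Lf; rw [val_up, val_up]; ring

theorem Lf_self (x y : Fin k → ℝ) (A : ℝ) (a : Fin k) (s : Fin k → Bool) (c : Bool) :
    Lf x y A a (Function.update s a c) = Lf x y A a s := by
  unfold Lf; rw [val_update, val_update]
  have : xd x y a * y a = x a * y a := by
    unfold xd; split_ifs with h
    · rw [h.1, h.2]; ring
    · rfl
  linear_combination (sg c - sg (s a)) * this

theorem mod_geo {x y : Fin k → ℝ} {A : ℝ} (hA0 : 0 < A) (hx : ∀ a, 0 ≤ x a) (hA : ∀ a, x a ≤ A)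
    (hk : ∀ a c : Fin k, a ≤ c → kap (x a) (y a) ≤ kap (x c) (y c)) {p : ℕ}
    (hp1 : ∀ a : Fin k, a.val < p → y a ≤ 0) (hp2 : ∀ a : Fin k, p ≤ a.val → 0 ≤ y a)
    {a₀ : Fin k} (ha₀ : y a₀ ≠ 0) :
    Mod p (fun s => A < val x s) (fun s => val x s < A) (ps y a₀)
      (fun a s => 0 < Lf x y A a s) (fun a s => Lf x y A a s < 0) := by
  have hxd := fun a => xd_nonneg (x := x) (y := y) hx a
  have hod : ∀ a c : Fin k, a < c → Od (xd x y a) (y a) (xd x y c) (y c) := fun a c hac =>
    od_of_kap (hxd a) (hxd c) (by rw [kap_xd, kap_xd]; exact hk a c hac.le)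
  have hm : ∀ a c : Fin k, a < c → 0 ≤ xd x y a * y c - y a * x c := by
    intro a c hac
    have h1 := od_of_kap (hxd a) (hx c) (by rw [kap_xd]; exact hk a c hac.le)
    exact h1.1
  have hm' : ∀ a c : Fin k, c < a → xd x y a * y c - y a * x c ≤ 0 := by
    intro a c hac
    have h1 := od_of_kap (hx c) (hxd a) (by rw [kap_xd]; exact hk c a hac.le)
    have := h1.1
    linarith
  have hps0 : ∀ (s : Fin k → Bool) (a : Fin k) (c : Bool), a ≠ a₀ →
      Function.update s a c a₀ = s a₀ := fun s a c h =>
    Function.update_of_ne h.symm _ _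
  refine
    { rs := fun s h1 h2 => lt_asymm h1 h2
      rup := fun s a h => ?_
      sdn := fun s a h => ?_
      rr := fun s t hst h1 h2 => ?_
      ud := fun a s h1 h2 => lt_asymm h1 h2
      ui := fun a s c => by simp only [Lf_self]
      di := fun a s c => by simp only [Lf_self]
      um := fun a c s h h1 => ?_
      um' := fun a c s h h1 => ?_
      dm := fun a c s h h1 => ?_
      dm' := fun a c s h h1 => ?_
      pm := fun a s h h1 => ?_
      pm' := fun a s h h1 => ?_
      pa := (isSign_ps y a₀).2
      cru := fun a c s h h1 h2 => (hod a c h).chain (hxd a) (hxd c) (xd_ne a) (sub_pos.2 h1) h2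
      crd := fun a c s h h1 h2 => ?_
      csu := fun a c s h h1 h2 => ?_
      csd := fun a c s h h1 h2 => ?_
      sp := fun a s h h1 h2 => ?_
      sp' := fun a s h h1 h2 h3 => ?_ }
  · show A < val x _
    rw [val_up]; have : A < val x (Function.update s a false) := h; have := hx a; linarith
  · show val x _ < A
    have h' : val x (Function.update s a true) < A := h
    rw [val_up] at h'; have := hx a; linarith
  · have h1' : A < val x s := h1
    have h2' : A < val x t := h2
    have h3 : val x s + val x t ≤ 2 * A := by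
      unfold val
      rw [← Finset.sum_add_distrib]
      by_cases hc : ∃ i, s i = true ∧ t i = true
      · obtain ⟨i, hi1, hi2⟩ := hc
        have : ∑ a, (x a * sg (s a) + x a * sg (t a)) ≤ ∑ a, (if a = i then 2 * A else 0) := by
          refine Finset.sum_le_sum fun a _ => ?_
          by_cases ha : a = i
          · subst ha
            rw [if_pos rfl, hi1, hi2, sg_true]; have := hA a; linarith
          · rw [if_neg ha]
            have h4 : ¬ (s a = true ∧ t a = true) := fun h => ha (hst a i h.1 h.2 hi1 hi2)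
            have := mul_nonpos_of_nonneg_of_nonpos (hx a) (sg_add_le h4)
            linarith
        refine this.trans ?_
        simp
      · have : ∑ a, (x a * sg (s a) + x a * sg (t a)) ≤ ∑ a : Fin k, (0 : ℝ) := by
          refine Finset.sum_le_sum fun a _ => ?_
          have h4 : ¬ (s a = true ∧ t a = true) := fun h => hc ⟨a, h⟩
          have := mul_nonpos_of_nonneg_of_nonpos (hx a) (sg_add_le h4)
          linarith
        refine this.trans ?_
        simp only [Finset.sum_const_zero]
        linarith
    linarith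
  · show 0 < Lf x y A a _
    rw [Lf_up]; have := hm a c h; have h1' : 0 < Lf x y A a (Function.update s c false) := h1
    linarith
  · show 0 < Lf x y A a _
    have h1' : 0 < Lf x y A a (Function.update s c true) := h1
    rw [Lf_up] at h1'; have := hm' a c h; linarith
  · show Lf x y A a _ < 0
    have h1' : Lf x y A a (Function.update s c true) < 0 := h1
    rw [Lf_up] at h1'; have := hm a c h; linarith
  · show Lf x y A a _ < 0
    rw [Lf_up]; have := hm' a c h; have h1' : Lf x y A a (Function.update s c false) < 0 := h1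
    linarith
  · unfold ps at h1 ⊢
    have hy := hp2 a h
    rw [val_up]
    rcases h1 with h1 | ⟨h1, h2⟩
    · left; linarith
    · rcases hy.eq_or_lt with e | e
      · right
        refine ⟨by rw [h1, ← e]; ring, ?_⟩
        have hne : a ≠ a₀ := by rintro rfl; exact ha₀ e.symm
        rw [hps0 _ _ _ hne] at h2 ⊢; exact h2
      · left; linarith
  · unfold ps at h1 ⊢
    have hy := hp1 a h
    rw [val_up] at h1
    rcases h1 with h1 | ⟨h1, h2⟩
    · left; linarith
    · rcases hy.eq_or_lt with e | e
      · right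
        refine ⟨by rw [e] at h1; linarith, ?_⟩
        have hne : a ≠ a₀ := by rintro rfl; exact ha₀ e
        rw [hps0 _ _ _ hne] at h2 ⊢; exact h2
      · left; linarith
  · have h1' : 0 < val x s - A := sub_pos.2 h1
    have h2' : Lf x y A a s < 0 := h2
    have := (hod a c h).neg.chain (hxd c) (hxd a)
      ((xd_ne c).imp_right fun h => neg_ne_zero.2 h) h1' (Y := - val y s)
      (by unfold Lf at h2'; linarith)
    show Lf x y A c s < 0
    unfold Lf; linarith
  · have h1' : 0 < A - val x s := sub_pos.2 h1
    have h2' : 0 < Lf x y A a s := h2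
    have := (hod a c h).neg.chain (hxd c) (hxd a)
      ((xd_ne c).imp_right fun h => neg_ne_zero.2 h) h1' (Y := val y s)
      (by unfold Lf at h2'; linarith)
    show 0 < Lf x y A c s
    unfold Lf; linarith
  · have h1' : 0 < A - val x s := sub_pos.2 h1
    have h2' : Lf x y A c s < 0 := h2
    have := (hod a c h).chain (hxd a) (hxd c) (xd_ne a) h1' (Y := - val y s)
      (by unfold Lf at h2'; linarith)
    show Lf x y A a s < 0
    unfold Lf; linarith
  · have h1' : val x s - A < 0 := sub_neg.2 h1
    have h2' : 0 < xd x y a * val y s - y a * (val x s - A) := h2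
    have hy := hp1 a h
    left
    by_contra hc
    push Not at hc
    have := mul_nonneg_of_nonpos_of_nonpos hy h1'.le
    have := mul_nonpos_of_nonneg_of_nonpos (hxd a) hc
    linarith
  · have h1' : val x s - A < 0 := sub_neg.2 h1
    have h2' : xd x y a * val y s - y a * (val x s - A) < 0 := h2
    have hy := hp2 a h
    have h4 := (isSign_ps y a₀).nonneg h3
    have := mul_nonpos_of_nonneg_of_nonpos hy h1'.le
    have := mul_nonneg (hxd a) h4
    linarith

theorem flp_eq_update {s : Fin k → Bool} {a : Fin k} (h : s a = true) :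
    flp s a = Function.update s a false := by
  unfold flp; rw [h]; rfl

theorem ht_eq {x y : Fin k → ℝ} {A : ℝ} {s : Fin k → Bool} {a : Fin k} (h : s a = true) :
    ht x y A s (flp s a) = 2 * (x a * val y s - y a * (val x s - A)) := by
  unfold ht
  rw [val_flp, val_flp, h, sg_true]; ring

/-- the crossing edges at `s` -/
theorem cross {x y : Fin k → ℝ} {A : ℝ} (hx : ∀ a, 0 ≤ x a) {s : Fin k → Bool} {a : Fin k}
    (h1 : A < val x s) (h2 : val x (flp s a) < A) :
    s a = true ∧ ht x y A s (flp s a) = 2 * Lf x y A a s := by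
  have h3 : s a = true := by
    by_contra hc
    have hc' : s a = false := by simpa using hc
    rw [val_flp, hc', sg_false] at h2
    have := hx a
    linarith
  refine ⟨h3, ?_⟩
  rw [ht_eq h3]
  have hx0 : x a ≠ 0 := by
    intro h0
    rw [val_flp, h0] at h2
    linarith
  unfold Lf xd
  rw [if_neg (fun h => hx0 h.1)]

end

end C1E
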