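import Pool.Agent.C1E.Contr2
import Pool.Agent.C1E.Mod

/-!
# Normalising a contracted system
-/

namespace C1E

open Finset

variable {k : ℕ}

/-- there is a good pair of sets -/
def GG (x y : Fin k → ℝ) (A : ℝ) : Prop :=
  ∃ C D : Finset (Fin k → Bool), 2 * (C.card + D.card) ≤ 2 ^ k ∧ Good x y A C D

theorem GG.perm {x y : Fin k → ℝ} {A : ℝ} (e : Equiv.Perm (Fin k))
    (h : GG (fun a => x (e a)) (fun a => y (e a)) A) : GG x y A := by
  classical
  obtain ⟨C, D, h1, h2, h3, h4⟩ := h
  set f : (Fin k → Bool) → (Fin k → Bool) := fun s a => s (e.symm a) with hf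
  have hface : ∀ {u : Fin k → ℝ} {s : Fin k → Bool}, InFace (fun a => u (e a)) s →
      InFace u (f s) := by
    intro u s h a
    have := h (e.symm a)
    simpa [hf] using this
  have hsum : ∀ z u : Fin k → ℝ, ∑ a, z (e a) * u (e a) = ∑ a, z a * u a := fun z u =>
    Equiv.sum_comp e fun a => z a * u a
  refine ⟨C.image f, D.image f, ?_, fun u hu hx hy => ?_, fun u hu hx hy => ?_,
    fun u hu hx hy => ?_⟩
  · have := Finset.card_image_le (s := C) (f := f)
    have := Finset.card_image_le (s := D) (f := f)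
    omega
  · obtain ⟨s, hs, hs'⟩ := h2 (fun a => u (e a)) (fun a => hu _) (by rw [hsum]; exact hx)
      (by rw [hsum]; exact hy)
    exact ⟨f s, mem_image_of_mem f hs, hface hs'⟩
  · obtain ⟨s, hs, hs'⟩ := h3 (fun a => u (e a)) (fun a => hu _) (by rw [hsum]; exact hx)
      (by rw [hsum]; exact hy)
    exact ⟨f s, mem_image_of_mem f hs, hface hs'⟩
  · obtain ⟨s, hs, hs'⟩ := h4 (fun a => u (e a)) (fun a => hu _) (by rw [hsum]; exact hx)
      (by rw [hsum]; exact hy)
    exact ⟨f s, hs.imp (mem_image_of_mem f) fun h => mem_image.2 ⟨_, h, rfl⟩, hface hs'⟩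

theorem GG.flip {x y : Fin k → ℝ} {A : ℝ} (c : Fin k → Bool)
    (h : GG (fun a => sg (c a) * x a) (fun a => sg (c a) * y a) A) : GG x y A := by
  classical
  obtain ⟨C, D, h1, h2, h3, h4⟩ := h
  set f : (Fin k → Bool) → (Fin k → Bool) := fun s a => (s a == c a) with hf
  have hface : ∀ {u : Fin k → ℝ} {s : Fin k → Bool}, InFace (fun a => sg (c a) * u a) s →
      InFace u (f s) := by
    intro u s h a
    have h := h a
    simp only [hf]
    cases hc : c a
    · simp only [hc, sg_false, neg_mul, one_mul] at h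
      constructor
      · intro h5
        rw [h.2 (by rw [h5])]; rfl
      · intro h5
        rw [h.1 (by rw [h5]; ring)]; rfl
    · simp only [hc, sg_true, one_mul] at h
      constructor
      · intro h5
        rw [h.1 h5]; rfl
      · intro h5
        rw [h.2 h5]; rfl
  have hng : ∀ s, ng (f s) = f (ng s) := by
    intro s; funext a
    simp only [hf, ng]
    cases s a <;> cases c a <;> rfl
  have hsum : ∀ z u : Fin k → ℝ, ∑ a, (sg (c a) * z a) * (sg (c a) * u a) = ∑ a, z a * u a := by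
    intro z u
    refine Finset.sum_congr rfl fun a _ => ?_
    have : sg (c a) * sg (c a) = 1 := by cases c a <;> simp [sg]
    linear_combination (z a * u a) * this
  have hab : ∀ u : Fin k → ℝ, (∀ a, |u a| ≤ 1) → ∀ a, |sg (c a) * u a| ≤ 1 := by
    intro u hu a
    rw [abs_mul, abs_sg, one_mul]; exact hu a
  refine ⟨C.image f, D.image f, ?_, fun u hu hx hy => ?_, fun u hu hx hy => ?_,
    fun u hu hx hy => ?_⟩
  · have := Finset.card_image_le (s := C) (f := f)
    have := Finset.card_image_le (s := D) (f := f)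
    omega
  · obtain ⟨s, hs, hs'⟩ := h2 (fun a => sg (c a) * u a) (hab u hu) (by rw [hsum]; exact hx)
      (by rw [hsum]; exact hy)
    exact ⟨f s, mem_image_of_mem f hs, hface hs'⟩
  · obtain ⟨s, hs, hs'⟩ := h3 (fun a => sg (c a) * u a) (hab u hu) (by rw [hsum]; exact hx)
      (by rw [hsum]; exact hy)
    exact ⟨f s, mem_image_of_mem f hs, hface hs'⟩
  · obtain ⟨s, hs, hs'⟩ := h4 (fun a => sg (c a) * u a) (hab u hu) (by rw [hsum]; exact hx)
      (by rw [hsum]; exact hy)
    exact ⟨f s, hs.imp (mem_image_of_mem f) fun h => mem_image.2 ⟨_, h, (hng s).symm⟩, hface hs'⟩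

theorem GG.neg {x y : Fin k → ℝ} {A : ℝ} (h : GG x (fun a => - y a) A) : GG x y A := by
  classical
  obtain ⟨C, D, h1, h2, h3, h4⟩ := h
  refine ⟨D, C, by omega, fun u hu hx hy => h3 u hu hx ?_, fun u hu hx hy => h2 u hu hx ?_,
    fun u hu hx hy => ?_⟩
  · simp only [neg_mul, Finset.sum_neg_distrib]; linarith
  · simp only [neg_mul, Finset.sum_neg_distrib]; linarith
  · obtain ⟨s, hs, hs'⟩ := h4 (fun a => - u a) (fun a => by rw [abs_neg]; exact hu a)
      (by simp only [mul_neg, Finset.sum_neg_distrib, abs_neg]; exact hx)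
      (by simp only [mul_neg, neg_mul, neg_neg]; exact hy)
    refine ⟨ng s, ?_, inFace_neg hs'⟩
    rw [ng_ng]
    exact hs.symm

/-- it is enough to consider sorted systems with `x ≥ 0` -/
theorem gg_of_sorted {A : ℝ} (h : ∀ x y : Fin k → ℝ, (∀ a, 0 ≤ x a) → (∀ a, x a ≤ A) →
    (∀ a c : Fin k, a ≤ c → kap (x a) (y a) ≤ kap (x c) (y c)) → GG x y A) (x y : Fin k → ℝ)
    (hx : ∀ a, |x a| ≤ A) : GG x y A := by
  refine GG.flip (fun a => decide (0 ≤ x a)) ?_
  set x' : Fin k → ℝ := fun a => sg (decide (0 ≤ x a)) * x a with hx'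
  set y' : Fin k → ℝ := fun a => sg (decide (0 ≤ x a)) * y a with hy'
  have e : ∀ a, x' a = |x a| := by
    intro a
    rw [hx']
    by_cases h0 : 0 ≤ x a
    · simp [h0, sg, abs_of_nonneg h0]
    · simp [h0, sg, abs_of_neg (not_le.1 h0)]
  set κ : Fin k → ℝ := fun a => kap (x' a) (y' a) with hκ
  refine GG.perm (Tuple.sort κ) (h _ _ (fun a => ?_) (fun a => ?_) fun a c hac => ?_)
  · rw [e]; exact abs_nonneg _
  · rw [e]; exact hx _
  · exact Tuple.monotone_sort κ hac

end C1E
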