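import Pool.Agent.C1E.Body
import Pool.Agent.C1E.Planar

/-!
# One block of facet normals, for families of points
-/

namespace C1E

open Finset Module

/-- two independent relations among vectors that span little -/
theorem exists_two_relations {E : Type} [AddCommGroup E] [Module ℝ E] {m : ℕ} (u : Fin m → E)
    (hu : finrank ℝ (Submodule.span ℝ (Set.range u)) + 2 ≤ m) :
    ∃ x y : Fin m → ℝ, LinearIndependent ℝ ![x, y] ∧ ∑ a, x a • u a = 0 ∧ ∑ a, y a • u a = 0 := by
  set L : (Fin m → ℝ) →ₗ[ℝ] E := Fintype.linearCombination ℝ u with hL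
  have h1 := LinearMap.finrank_range_add_finrank_ker L
  have h2 : LinearMap.range L = Submodule.span ℝ (Set.range u) := by
    rw [hL, Fintype.range_linearCombination]
  rw [Module.finrank_fin_fun, h2] at h1
  have h3 : 1 < finrank ℝ (LinearMap.ker L) := by omega
  obtain ⟨⟨x, hx⟩, ⟨y, hy⟩, hxy⟩ : ∃ x y : LinearMap.ker L, LinearIndependent ℝ ![x, y] := by
    have : Nontrivial (LinearMap.ker L) :=
      Module.nontrivial_of_finrank_pos (R := ℝ) (M := LinearMap.ker L) (by omega)
    obtain ⟨x, hx⟩ := exists_ne (0 : LinearMap.ker L)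
    obtain ⟨y, hy⟩ := exists_linearIndependent_pair_of_one_lt_finrank h3 hx
    exact ⟨x, y, hy⟩
  refine ⟨x, y, ?_, ?_, ?_⟩
  · have h4 := hxy.map' (LinearMap.ker L).subtype (by simp)
    have e : ((LinearMap.ker L).subtype ∘ ![(⟨x, hx⟩ : LinearMap.ker L), ⟨y, hy⟩]) = ![x, y] := by
      funext j
      fin_cases j <;> rfl
    rwa [e] at h4
  · have := LinearMap.mem_ker.1 hx
    rwa [hL, Fintype.linearCombination_apply] at this
  · have := LinearMap.mem_ker.1 hy
    rwa [hL, Fintype.linearCombination_apply] at this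

/-- colours from free coordinates -/
theorem free_frac {ι : Type} [Fintype ι] {m : ℕ} (c : ι → ℝ)
    (hc : ∀ i, 0 < c i) (g : ι → Fin m → ℝ) (hint : ∀ i l a, |g i a - g l a| ≤ c i + c l) :
    ∃ col : ι → (Fin m → Bool), ∀ i l a, g i a - g l a = c i + c l → col i ≠ col l := by
  classical
  rcases isEmpty_or_nonempty ι with hι | hι
  · exact ⟨fun i => (hι.false i).elim, fun i => (hι.false i).elim⟩
  have hex : ∀ a, ∃ t : ℝ, ∀ i, g i a - c i ≤ t ∧ t ≤ g i a + c i := fun a =>
    exists_common c (fun i => g i a) fun i l => hint i l a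
  choose t ht using hex
  refine ⟨fun i a => decide (t a < g i a), fun i l a h heq => ?_⟩
  have h1 := (ht a i).1
  have h2 := (ht a l).2
  have h3 : t a < g i a := by linarith [hc i]
  have h4 : ¬ t a < g l a := by linarith [hc l]
  have := congrFun heq a
  simp only [h3, h4, decide_true, decide_false] at this
  exact absurd this (by simp)

/-- Colouring of one block with at most one vector more than the dimension. -/
theorem block_col {ι : Type} [Fintype ι] {d m k : ℕ} (hm : m ≤ k + 1)
    (u : Fin m → EuclideanSpace ℝ (Fin d))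
    (hu : finrank ℝ (Submodule.span ℝ (Set.range u)) ≤ k)
    (c : ι → ℝ) (hc : ∀ i, 0 < c i) (p : ι → EuclideanSpace ℝ (Fin d))
    (hint : ∀ i l a, |inner ℝ (u a) (p i) - inner ℝ (u a) (p l)| ≤ c i + c l) :
    ∃ col : ι → (Fin k → Bool), ∀ i l a,
      inner ℝ (u a) (p i) - inner ℝ (u a) (p l) = c i + c l → col i ≠ col l := by
  classical
  rcases Nat.lt_or_ge k m with hkm | hkm
  · obtain rfl : m = k + 1 := by omega
    rcases isEmpty_or_nonempty ι with hι | hι
    · exact ⟨fun i => (hι.false i).elim, fun i => (hι.false i).elim⟩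
    have hdep : ¬ LinearIndependent ℝ u := by
      intro h
      have h1 := finrank_span_eq_card h
      rw [Fintype.card_fin] at h1
      omega
    obtain ⟨lam, hl0, a, ha⟩ := Fintype.not_linearIndependent_iff.mp hdep
    refine Planar.block c hc (fun i a => inner ℝ (u a) (p i)) lam ⟨a, ha⟩ (fun i => ?_) hint
    have : ∑ a, lam a * inner ℝ (u a) (p i) = inner ℝ (∑ a, lam a • u a) (p i) := by
      rw [sum_inner]
      refine Finset.sum_congr rfl fun a _ => ?_
      rw [real_inner_smul_left]
    rw [this, hl0, inner_zero_left]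
  · obtain ⟨col, hcol⟩ := free_frac c hc (fun i a => inner ℝ (u a) (p i)) hint
    refine ⟨fun i b => if h : b.1 < m then col i ⟨b.1, h⟩ else false, fun i l a h heq => ?_⟩
    refine hcol i l a h ?_
    funext b
    have := congrFun heq ⟨b.1, b.2.trans_le hkm⟩
    simpa using this

/-- Fractional colouring of one block. -/
theorem block_frac {ι : Type} [Fintype ι] {d m k N : ℕ} (hN : 2 ^ k ≤ N)
    (hm : m ≤ k + 1 ∨ m ≤ k + 2 ∧ R1 m N)
    (u : Fin m → EuclideanSpace ℝ (Fin d))
    (hu : finrank ℝ (Submodule.span ℝ (Set.range u)) ≤ k)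
    (c : ι → ℝ) (hc : ∀ i, 0 < c i) (p : ι → EuclideanSpace ℝ (Fin d))
    (hint : ∀ i l a, |inner ℝ (u a) (p i) - inner ℝ (u a) (p l)| ≤ c i + c l) :
    Frac (fun i l => ∃ a, inner ℝ (u a) (p i) - inner ℝ (u a) (p l) = c i + c l) (N : ℝ) := by
  classical
  by_cases h1 : m ≤ k + 1
  · obtain ⟨col, hcol⟩ := block_col h1 u hu c hc p hint
    have h2 := frac_of_col (sep := fun i l => ∃ a, inner ℝ (u a) (p i) - inner ℝ (u a) (p l) =
      c i + c l) col (fun i l ⟨a, ha⟩ => hcol i l a ha)
    refine h2.mono (fun _ _ h => h) ?_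
    have h3 : ((2 ^ k : ℕ) : ℝ) ≤ (N : ℝ) := by exact_mod_cast hN
    simpa using h3
  · have h2 : m = k + 2 ∧ R1 m N := by
      rcases hm with h | h
      · exact absurd h h1
      · exact ⟨by omega, h.2⟩
    obtain ⟨rfl, hR⟩ := h2
    obtain ⟨x, y, hxy, hx, hy⟩ := exists_two_relations u (by omega)
    have hrel : ∀ w : Fin (k + 2) → ℝ, ∑ a, w a • u a = 0 → ∀ i,
        ∑ a, w a * inner ℝ (u a) (p i) = 0 := by
      intro w hw i
      have : ∑ a, w a * inner ℝ (u a) (p i) = inner ℝ (∑ a, w a • u a) (p i) := by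
        rw [sum_inner]
        refine Finset.sum_congr rfl fun a _ => ?_
        rw [real_inner_smul_left]
      rw [this, hw, inner_zero_left]
    exact block2 hR hN c hc (fun i a => inner ℝ (u a) (p i)) x y hxy (hrel x hx) (hrel y hy) hint

end C1E
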