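import Pool.Agent.C1E.Contr

/-!
# From the contracted system to the cube
-/

namespace C1E

open Finset

/-- hitting sets for the faces of the cube which meet a half space of codimension one -/
def R1 (n N : ℕ) : Prop := ∀ x y : Fin n → ℝ, (∃ a, x a ≠ 0) →
  ∃ C : Finset (Fin n → Bool), C.card ≤ N ∧
    ∀ u : Fin n → ℝ, (∀ a, |u a| ≤ 1) → ∑ a, x a * u a = 0 → 0 < ∑ a, y a * u a →
      ∃ s ∈ C, InFace u s

/-- the contracted statement -/
def G1 (k : ℕ) : Prop := ∀ (x y : Fin k → ℝ) (A : ℝ), 0 < A → (∀ a, |x a| ≤ A) →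
  ∃ C D : Finset (Fin k → Bool), 2 * (C.card + D.card) ≤ 2 ^ k ∧ Good x y A C D

theorem inFace_neg {ι : Type} {u : ι → ℝ} {s : ι → Bool} (h : InFace (fun a => - u a) s) :
    InFace u (ng s) := by
  intro a
  constructor
  · intro h1
    have := (h a).2 (show - u a = -1 by rw [h1])
    simp [ng, this]
  · intro h1
    have := (h a).1 (show - u a = 1 by rw [h1]; norm_num)
    simp [ng, this]

theorem inFace_insert {k : ℕ} {h : Fin (k + 1)} {u : Fin (k + 1) → ℝ} {b : Bool}
    {s : Fin k → Bool} (hs : InFace (fun a => u (h.succAbove a)) s)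
    (hb : (u h = 1 → b = true) ∧ (u h = -1 → b = false)) :
    InFace u (h.insertNth b s) := by
  intro a
  by_cases ha : a = h
  · subst ha
    simpa using hb
  · obtain ⟨c, rfl⟩ := Fin.exists_succAbove_eq ha
    simpa using hs c

theorem r1_of_g1 {k : ℕ} (hk : 1 ≤ k) (hG : G1 k) : R1 (k + 1) (2 ^ (k - 1)) := by
  classical
  intro x y hx
  obtain ⟨h, -, hmax⟩ := (univ : Finset (Fin (k + 1))).exists_max_image (fun a => |x a|)
    ⟨0, mem_univ 0⟩
  have hA : 0 < |x h| := by
    obtain ⟨a, ha⟩ := hx
    exact lt_of_lt_of_le (abs_pos.2 ha) (hmax a (mem_univ a))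
  have hxh : x h ≠ 0 := abs_pos.1 hA
  obtain ⟨e, he1, he2⟩ : ∃ e : ℝ, |e| = 1 ∧ e * x h = |x h| := by
    rcases lt_or_gt_of_ne hxh with h' | h'
    · exact ⟨-1, by norm_num, by rw [abs_of_neg h']; ring⟩
    · exact ⟨1, by norm_num, by rw [abs_of_pos h']; ring⟩
  obtain ⟨C, D, hcard, hb, hc, ha⟩ := hG (fun a => e * x (h.succAbove a))
    (fun a => y (h.succAbove a) - y h / x h * x (h.succAbove a)) |x h| hA (fun a => by
      rw [abs_mul, he1, one_mul]; exact hmax _ (mem_univ _))
  refine ⟨C.image (fun s => (h.insertNth false s : Fin (k + 1) → Bool)) ∪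
    D.image (fun s => (h.insertNth true (ng s) : Fin (k + 1) → Bool)), ?_, ?_⟩
  · have h1 := Finset.card_union_le
      (C.image (fun s => (h.insertNth false s : Fin (k + 1) → Bool)))
      (D.image (fun s => (h.insertNth true (ng s) : Fin (k + 1) → Bool)))
    have h2 := Finset.card_image_le (s := C)
      (f := fun s => (h.insertNth false s : Fin (k + 1) → Bool))
    have h3 := Finset.card_image_le (s := D)
      (f := fun s => (h.insertNth true (ng s) : Fin (k + 1) → Bool))
    have h4 : 2 ^ k = 2 * 2 ^ (k - 1) := by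
      obtain ⟨m, rfl⟩ : ∃ m, k = m + 1 := ⟨k - 1, by omega⟩
      rw [Nat.add_sub_cancel, pow_succ]; ring
    omega
  · intro u hu hux huy
    have hX : ∑ a, e * x (h.succAbove a) * u (h.succAbove a) = - (|x h| * u h) := by
      rw [Fin.sum_univ_succAbove _ h] at hux
      have : ∑ a, e * x (h.succAbove a) * u (h.succAbove a) =
          e * ∑ a, x (h.succAbove a) * u (h.succAbove a) := by
        rw [Finset.mul_sum]
        exact Finset.sum_congr rfl fun a _ => by ring
      rw [this, ← he2]
      have h5 : ∑ a, x (h.succAbove a) * u (h.succAbove a) = - (x h * u h) := by linarith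
      rw [h5]; ring
    have hY : ∑ a, (y (h.succAbove a) - y h / x h * x (h.succAbove a)) * u (h.succAbove a) =
        ∑ a, y a * u a := by
      rw [Fin.sum_univ_succAbove _ h] at hux ⊢
      have : ∑ a, (y (h.succAbove a) - y h / x h * x (h.succAbove a)) * u (h.succAbove a) =
          ∑ a, y (h.succAbove a) * u (h.succAbove a) -
            y h / x h * ∑ a, x (h.succAbove a) * u (h.succAbove a) := by
        rw [Finset.mul_sum, ← Finset.sum_sub_distrib]
        exact Finset.sum_congr rfl fun a _ => by ring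
      have h5 : ∑ a, x (h.succAbove a) * u (h.succAbove a) = - (x h * u h) := by linarith
      rw [this, h5]
      field_simp
      ring
    have huh := abs_le.1 (hu h)
    rcases eq_or_lt_of_le huh.1 with h1 | h1
    · -- `u h = -1`
      obtain ⟨s, hs, hs'⟩ := hb (fun a => u (h.succAbove a)) (fun a => hu _)
        (by rw [hX, ← h1]; ring) (by rw [hY]; exact huy)
      refine ⟨_, mem_union_left _ (mem_image.2 ⟨s, hs, rfl⟩), inFace_insert hs' ⟨?_, ?_⟩⟩
      · intro h2; rw [← h1] at h2; norm_num at h2
      · intro _; rfl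
    · rcases eq_or_lt_of_le huh.2 with h2 | h2
      · -- `u h = 1`
        obtain ⟨s, hs, hs'⟩ := hc (fun a => - u (h.succAbove a))
          (fun a => by rw [abs_neg]; exact hu _)
          (by
            simp only [mul_neg, Finset.sum_neg_distrib]
            rw [hX, h2]; ring)
          (by
            simp only [mul_neg, Finset.sum_neg_distrib]
            rw [hY]; linarith)
        refine ⟨_, mem_union_right _ (mem_image.2 ⟨s, hs, rfl⟩),
          inFace_insert (inFace_neg hs') ⟨?_, ?_⟩⟩
        · intro _; rfl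
        · intro h3; rw [h2] at h3; norm_num at h3
      · obtain ⟨s, hs, hs'⟩ := ha (fun a => u (h.succAbove a)) (fun a => hu _)
          (by rw [hX, abs_neg, abs_mul, abs_abs]; have := abs_lt.2 ⟨h1, h2⟩; nlinarith)
          (by rw [hY]; exact huy)
        have hn1 : u h ≠ 1 := h2.ne
        have hn2 : u h ≠ -1 := h1.ne'
        rcases hs with hs | hs
        · exact ⟨_, mem_union_left _ (mem_image.2 ⟨s, hs, rfl⟩),
            inFace_insert hs' ⟨fun h => absurd h hn1, fun h => absurd h hn2⟩⟩
        · refine ⟨_, mem_union_right _ (mem_image.2 ⟨ng s, hs, rfl⟩), ?_⟩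
          rw [ng_ng]
          exact inFace_insert hs' ⟨fun h => absurd h hn1, fun h => absurd h hn2⟩

end C1E
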