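import Pool.Agent.C1E.Exc
import Pool.Agent.C1E.Five

/-!
# The static cover: all numbers of labels
-/

set_option linter.unusedSectionVars false
set_option linter.unusedVariables false

namespace C1E

open Finset

variable {ι : Type} [Fintype ι] [DecidableEq ι]

/-- the depth -/
def dp (x : ι → ℝ) (A : ℝ) (b : ι → Bool) : ℝ := val x b - A

/-- minus the slope of `g` -/
noncomputable def ta (x y : ι → ℝ) (g : ι) : ℝ := - (y g / x g)

/-- second coordinates of the labels, with respect to the direction of `g` -/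
noncomputable def et (x y : ι → ℝ) (g : ι) (a : ι) : ℝ := y a + ta x y g * x a

/-- second coordinate of a vertex -/
noncomputable def Ev (x y : ι → ℝ) (A : ℝ) (g : ι) (b : ι → Bool) : ℝ :=
  val y b + ta x y g * dp x A b

/-- the assumptions: `g` is the heaviest label, of negative slope, and `nu` is the tallest one -/
structure Sys (x y : ι → ℝ) (A : ℝ) (pos : (ι → Bool) → Prop) (g nu : ι) : Prop where
  A0 : 0 < A
  x0 : ∀ a, 0 ≤ x a
  xg : ∀ a, x a ≤ x g
  xA : x g ≤ A
  g0 : 0 < x g
  yg : y g ≤ 0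
  sgn : IsSign y pos
  nu : ∀ a, a ≠ g → et x y g a ≤ et x y g nu

theorem val_flp_true (x : ι → ℝ) {b : ι → Bool} {a : ι} (h : b a = true) :
    val x (flp b a) = val x b - 2 * x a := by
  rw [val_flp, h, sg_true]; ring

theorem val_flp_false (x : ι → ℝ) {b : ι → Bool} {a : ι} (h : b a = false) :
    val x (flp b a) = val x b + 2 * x a := by
  rw [val_flp, h, sg_false]; ring

section

variable {x y : ι → ℝ} {A : ℝ} {pos : (ι → Bool) → Prop} {g nu : ι}

theorem Sys.tau (S : Sys x y A pos g nu) : 0 ≤ ta x y g := by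
  unfold ta
  have : y g / x g ≤ 0 := div_nonpos_of_nonpos_of_nonneg S.yg S.g0.le
  linarith

theorem Sys.et_g (S : Sys x y A pos g nu) : et x y g g = 0 := by
  unfold et ta
  have := S.g0.ne'
  field_simp
  ring

theorem Sys.nu' (S : Sys x y A pos g nu) {a : ι} (h : 0 < et x y g a) :
    et x y g a ≤ et x y g nu := by
  refine S.nu a ?_
  rintro rfl
  rw [S.et_g] at h; exact lt_irrefl _ h

omit [DecidableEq ι] in
theorem et_y (x y : ι → ℝ) (g a : ι) : y a = et x y g a - ta x y g * x a := by unfold et; ring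

omit [DecidableEq ι] in
theorem Ev_y (x y : ι → ℝ) (A : ℝ) (g : ι) (b : ι → Bool) :
    val y b = Ev x y A g b - ta x y g * dp x A b := by unfold Ev; ring

omit [DecidableEq ι] in
theorem dp_pos {b : ι → Bool} (h : A < val x b) : 0 < dp x A b := by unfold dp; linarith

theorem dp_flp_true {b : ι → Bool} {a : ι} (h : b a = true) :
    dp x A (flp b a) = dp x A b - 2 * x a := by
  unfold dp; rw [val_flp_true x h]; ring

theorem dp_flp_false {b : ι → Bool} {a : ι} (h : b a = false) :
    dp x A (flp b a) = dp x A b + 2 * x a := by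
  unfold dp; rw [val_flp_false x h]; ring

theorem Ev_flp_true {b : ι → Bool} {a : ι} (h : b a = true) :
    Ev x y A g (flp b a) = Ev x y A g b - 2 * et x y g a := by
  unfold Ev et; rw [val_flp_true y h, dp_flp_true h]; ring

theorem Ev_flp_false {b : ι → Bool} {a : ι} (h : b a = false) :
    Ev x y A g (flp b a) = Ev x y A g b + 2 * et x y g a := by
  unfold Ev et; rw [val_flp_false y h, dp_flp_false h]; ring

/-- a label which leads out of the outer set -/
theorem out_true (S : Sys x y A pos g nu) {b : ι → Bool} {a : ι} (hb : A < val x b)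
    (ha : val x (flp b a) < A) : b a = true ∧ dp x A b < 2 * x a ∧ 0 < x a := by
  cases h : b a
  · rw [val_flp_false x h] at ha
    have := S.x0 a
    linarith
  · rw [val_flp_true x h] at ha
    have : dp x A b < 2 * x a := by unfold dp; linarith
    have := dp_pos hb
    exact ⟨rfl, by assumption, by linarith⟩

theorem ht_true {b : ι → Bool} {a : ι} (h : b a = true) :
    ht x y A b (flp b a) = 2 * (x a * Ev x y A g b - et x y g a * dp x A b) := by
  unfold ht Ev et dp
  rw [val_flp_true x h, val_flp_true y h]; ring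

theorem FD_elim (S : Sys x y A pos g nu) {b : ι → Bool} (h : FD x y A pos b) :
    A < val x b ∧ ∃ a, b a = true ∧ dp x A b < 2 * x a ∧
      x a * Ev x y A g b < et x y g a * dp x A b ∧ 2 * y a ≤ val y b := by
  obtain ⟨h1, a, h2, h3, h4⟩ := h
  obtain ⟨h5, h6, h7⟩ := out_true S h1 h2
  refine ⟨h1, a, h5, h6, ?_, ?_⟩
  · rw [ht_true (g := g) h5] at h3; linarith
  · have := S.sgn.nonneg h4
    rw [val_flp_true y h5] at this; linarith

theorem FU_elim (S : Sys x y A pos g nu) {b : ι → Bool} (h : FU x y A pos b) :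
    A < val x b ∧ ∃ a, b a = true ∧ dp x A b < 2 * x a ∧
      et x y g a * dp x A b < x a * Ev x y A g b ∧ val y b ≤ 2 * y a := by
  obtain ⟨h1, a, h2, h3, h4⟩ := h
  obtain ⟨h5, h6, h7⟩ := out_true S h1 h2
  refine ⟨h1, a, h5, h6, ?_, ?_⟩
  · rw [ht_true (g := g) h5] at h3; linarith
  · have := S.sgn.nonpos h4
    rw [val_flp_true y h5] at this; linarith

/-- what a link looks like -/
structure Lnk (x y : ι → ℝ) (A : ℝ) (g : ι) (b c : ι → Bool) (j k : ι) : Prop where
  b0 : A < val x b
  c0 : A < val x c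
  jk : j ≠ k
  bj : b j = true
  bk : b k = true
  cj : c j = true
  ck : c k = true
  ne : ∀ a, a ≠ j → a ≠ k → c a = !(b a)
  eq : c = ng (flp (flp b j) k)
  dj : dp x A b < 2 * x j
  dk : dp x A c < 2 * x k
  hj : et x y g j * dp x A b < x j * Ev x y A g b
  hk : x k * Ev x y A g c < et x y g k * dp x A c
  sd : dp x A b + dp x A c = 2 * (x j + x k) - 2 * A
  se : Ev x y A g b + Ev x y A g c = 2 * (et x y g j + et x y g k) - 2 * (ta x y g * A)

theorem Lk_elim (S : Sys x y A pos g nu) {b c : ι → Bool} (h : Lk x y A pos b c) :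
    ∃ j k, Lnk x y A g b c j k := by
  obtain ⟨h1, h2, j, k, h3, h4, h5, h6, h7, h8⟩ := h
  obtain ⟨e1, e2, e3, e4⟩ := link_coord S.A0 h1 h2 h8
  obtain ⟨f1, f2, f3⟩ := out_true S h1 h3
  obtain ⟨f4, f5, f6⟩ := out_true S h2 h6
  have hc : c = ng (flp (flp b j) k) := by
    rw [ng_flp, ← h8, flp_flp]
  have hjk : flp b j k = true := by rw [flp_ne b e1.symm, ← e3, f4]
  have hd : dp x A b + dp x A c = 2 * (x j + x k) - 2 * A := by
    unfold dp
    rw [hc, val_ng, val_flp_true x hjk, val_flp_true x f1]; ring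
  have hy : val y b + val y c = 2 * (y j + y k) := by
    rw [hc, val_ng, val_flp_true y hjk, val_flp_true y f1]; ring
  refine ⟨j, k, h1, h2, e1, f1, by rw [← e3, f4], by rw [e2, f1], f4, e4, hc, f2, f5, ?_, ?_, hd, ?_⟩
  · rw [ht_true (g := g) f1] at h4; linarith
  · rw [ht_true (g := g) f4] at h7; linarith
  · unfold Ev et
    have : ta x y g * (dp x A b + dp x A c) = ta x y g * (2 * (x j + x k) - 2 * A) := by rw [hd]
    linarith

/-! ## Sources and sinks -/

theorem FD_neg (S : Sys x y A pos g nu) {b : ι → Bool} (h : FD x y A pos b) : val y b < 0 := by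
  obtain ⟨h1, a, h2, h3, h4, h5⟩ := FD_elim S h
  have hd := dp_pos h1
  have e1 : x a * val y b < y a * dp x A b := by
    rw [Ev_y x y A g b, et_y x y g a]; linarith
  by_contra hc
  push Not at hc
  have hxa : 0 < x a := by linarith
  have : 0 < y a * dp x A b := lt_of_le_of_lt (mul_nonneg hxa.le hc) e1
  have hya : 0 < y a := pos_of_mul_pos_left this hd.le
  nlinarith

theorem FU_pos (S : Sys x y A pos g nu) {b : ι → Bool} (h : FU x y A pos b) : 0 < val y b := by
  obtain ⟨h1, a, h2, h3, h4, h5⟩ := FU_elim S h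
  have hd := dp_pos h1
  have e1 : y a * dp x A b < x a * val y b := by
    rw [Ev_y x y A g b, et_y x y g a]; linarith
  by_contra hc
  push Not at hc
  have hxa : 0 < x a := by linarith
  have : y a * dp x A b < 0 := lt_of_lt_of_le e1 (mul_nonpos_of_nonneg_of_nonpos hxa.le hc)
  have hya : y a < 0 := by
    by_contra hc'
    push Not at hc'
    have := mul_nonneg hc' hd.le
    linarith
  nlinarith

theorem not_FD_FU (S : Sys x y A pos g nu) {b : ι → Bool} (h : FD x y A pos b)
    (h' : FU x y A pos b) : False := by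
  have := FD_neg S h
  have := FU_pos S h'
  linarith

/-- height of a source -/
theorem FD_lt (S : Sys x y A pos g nu) {b : ι → Bool} (h : FD x y A pos b)
    (hE : 0 < Ev x y A g b) : Ev x y A g b < 2 * et x y g nu := by
  obtain ⟨h1, a, h2, h3, h4, h5⟩ := FD_elim S h
  have hd := dp_pos h1
  have hxa : 0 < x a := by linarith
  have h6 : 0 < et x y g a := by
    have : 0 < et x y g a * dp x A b := lt_trans (mul_pos hxa hE) h4
    exact pos_of_mul_pos_left this hd.le
  have := S.nu' h6
  nlinarith

/-- height of a sink -/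
theorem FU_le (S : Sys x y A pos g nu) {b : ι → Bool} (h : FU x y A pos b) :
    Ev x y A g b ≤ 2 * et x y g nu := by
  obtain ⟨h1, a, h2, h3, h4, h5⟩ := FU_elim S h
  have h6 := FU_pos S h
  have h7 : a ≠ g := by
    rintro rfl
    have := S.yg; linarith
  have := S.nu a h7
  have := S.tau
  rw [Ev_y x y A g b, et_y x y g a] at h5
  nlinarith

/-- height of the end of a link -/
theorem Lnk.lt (S : Sys x y A pos g nu) {b c : ι → Bool} {j k : ι} (h : Lnk x y A g b c j k)
    (hE : 0 < Ev x y A g c) : Ev x y A g c < 2 * et x y g nu := by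
  have hd := dp_pos h.c0
  have hxa : 0 < x k := by linarith [h.dk]
  have h6 : 0 < et x y g k := by
    have : 0 < et x y g k * dp x A c := lt_trans (mul_pos hxa hE) h.hk
    exact pos_of_mul_pos_left this hd.le
  have := S.nu' h6
  nlinarith [h.hk, h.dk]

/-! ## The kinds of vertices -/

/-- `g` leads out of the outer set -/
def InT (x : ι → ℝ) (A : ℝ) (g : ι) (b : ι → Bool) : Prop :=
  A < val x b ∧ b g = true ∧ dp x A b < 2 * x g

/-- near -/
def InP (x : ι → ℝ) (A : ℝ) (g : ι) (b : ι → Bool) : Prop := A < val x b ∧ b g = false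

/-- far -/
def InF (x : ι → ℝ) (A : ℝ) (g : ι) (b : ι → Bool) : Prop :=
  A < val x b ∧ b g = true ∧ 2 * x g ≤ dp x A b

/-- above the direction of `g` -/
def InG (x y : ι → ℝ) (A : ℝ) (g : ι) (b : ι → Bool) : Prop := InT x A g b ∧ 0 < Ev x y A g b

/-- the partner -/
def nup (g nu : ι) (b : ι → Bool) : ι → Bool := ng (flp (flp b g) nu)

omit [DecidableEq ι] in
theorem kinds {b : ι → Bool} (h : A < val x b) : InT x A g b ∨ InP x A g b ∨ InF x A g b := by
  cases hg : b g
  · exact Or.inr (Or.inl ⟨h, hg⟩)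
  · rcases lt_or_ge (dp x A b) (2 * x g) with h1 | h1
    · exact Or.inl ⟨h, hg, h1⟩
    · exact Or.inr (Or.inr ⟨h, hg, h1⟩)

omit [DecidableEq ι] in
theorem InT.notP {b : ι → Bool} (h : InT x A g b) : ¬ InP x A g b := fun h' => by
  have := h.2.1; rw [h'.2] at this; exact Bool.noConfusion this

omit [DecidableEq ι] in
theorem InT.notF {b : ι → Bool} (h : InT x A g b) : ¬ InF x A g b := fun h' => by
  have := h.2.2; have := h'.2.2; linarith

omit [DecidableEq ι] in
theorem InF.notP {b : ι → Bool} (h : InF x A g b) : ¬ InP x A g b := fun h' => by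
  have := h.2.1; rw [h'.2] at this; exact Bool.noConfusion this

theorem InF.noFD (S : Sys x y A pos g nu) {b : ι → Bool} (h : InF x A g b) :
    ¬ FD x y A pos b := fun h' => by
  obtain ⟨_, a, _, h3, _⟩ := FD_elim S h'
  have := S.xg a; have := h.2.2; linarith

theorem InF.noFU (S : Sys x y A pos g nu) {b : ι → Bool} (h : InF x A g b) :
    ¬ FU x y A pos b := fun h' => by
  obtain ⟨_, a, _, h3, _⟩ := FU_elim S h'
  have := S.xg a; have := h.2.2; linarith

theorem InF.noLk (S : Sys x y A pos g nu) {b c : ι → Bool} (h : InF x A g b) :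
    ¬ Lk x y A pos b c := fun h' => by
  obtain ⟨j, k, h3⟩ := Lk_elim S h'
  have := S.xg j; have := h.2.2; linarith [h3.dj]

theorem InF.noLk' (S : Sys x y A pos g nu) {b c : ι → Bool} (h : InF x A g c) :
    ¬ Lk x y A pos b c := fun h' => by
  obtain ⟨j, k, h3⟩ := Lk_elim S h'
  have := S.xg k; have := h.2.2; linarith [h3.dk]

/-- two near vertices are not linked -/
theorem noPP (S : Sys x y A pos g nu) {b c : ι → Bool} (h : InP x A g b) (h' : InP x A g c) :
    ¬ Lk x y A pos b c := fun hl => by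
  obtain ⟨j, k, h3⟩ := Lk_elim S hl
  have h4 : g ≠ j := by rintro rfl; have := h.2; rw [h3.bj] at this; exact Bool.noConfusion this
  have h5 : g ≠ k := by rintro rfl; have := h.2; rw [h3.bk] at this; exact Bool.noConfusion this
  have h6 := h3.ne g h4 h5
  rw [h.2, h'.2] at h6
  exact Bool.noConfusion h6

/-- a link between two vertices of `T` -/
theorem TT (S : Sys x y A pos g nu) {b c : ι → Bool} {j k : ι} (h : Lnk x y A g b c j k)
    (hb : b g = true) (hc : c g = true) : j = g ∨ k = g := by
  by_contra hcon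
  rw [not_or] at hcon
  have h6 := h.ne g (Ne.symm hcon.1) (Ne.symm hcon.2)
  rw [hb, hc] at h6
  exact Bool.noConfusion h6

/-- a link ending in `G` between vertices of `T` -/
theorem TG (S : Sys x y A pos g nu) {b c : ι → Bool} {j k : ι} (h : Lnk x y A g b c j k)
    (hb : InT x A g b) (hc : InG x y A g c) : j = g ∧ InG x y A g b ∧
      Ev x y A g b + Ev x y A g c = 2 * et x y g k - 2 * (ta x y g * A) := by
  have hk : k ≠ g := by
    rintro rfl
    have h1 := h.hk
    rw [S.et_g, zero_mul] at h1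
    have := mul_pos S.g0 hc.2
    linarith
  have hj : j = g := (TT S h hb.2.1 hc.1.2.1).resolve_right hk
  refine ⟨hj, ⟨hb, ?_⟩, ?_⟩
  · have h1 := h.hj
    rw [hj, S.et_g, zero_mul] at h1
    exact pos_of_mul_pos_right h1 S.g0.le
  · rw [h.se, hj, S.et_g]; ring

theorem notG_noFU (S : Sys x y A pos g nu) {b : ι → Bool} (hb : InT x A g b)
    (h : ¬ InG x y A g b) : ¬ FU x y A pos b := fun h' => by
  have h1 : Ev x y A g b ≤ 0 := by
    by_contra hc; exact h ⟨hb, not_le.1 hc⟩
  have h2 := FU_pos S h'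
  have h3 := dp_pos hb.1
  have := mul_nonneg S.tau h3.le
  unfold Ev at h1
  linarith

end

end C1E
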